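import Pool.Agent.N846.LM.Stm
import Pool.Agent.N846.DU.Core

/-!
# LM/AFE: the approximate functional equation for `F ^ k`

By helper160, for the project LM of helper846.
-/

set_option autoImplicit false

namespace Pool.Agent.N846.LM

open Complex MeasureTheory NumberField IsDedekindDomain Filter Topology Set
open Pool.Agent.TH949.LT (TT Lam VV EE EE_int norm_exp_sq)
open Pool.Agent.N846.DT (PairF co Uc expandC cross rpow_exp JK_int co_sum co_abs Lam_nonneg summ_mono' summ_cs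
  term_norm')
open Pool.Agent.N846.DU (VX LV logRS RS LV_nonneg countable_HOS)
open Pool.Agent.TH942.SL (V shift)

namespace Afe_

theorem om_nonneg (A v : ℝ) : 0 ≤ om A v := by
  unfold om
  have := abs_nonneg v
  positivity

theorem om_int (A : ℝ) : Integrable (om A) := JK_int A

theorem om_cont (A : ℝ) : Continuous (om A) := by
  unfold om
  refine Continuous.mul ?_ (by fun_prop)
  refine Continuous.rpow_const (by fun_prop) fun v => Or.inl ?_
  have := abs_nonneg v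
  positivity

/-- the inequality of Cauchy and Schwarz with a weight -/
theorem cs {f g : ℝ → ℝ} (hf : ∀ v, 0 ≤ f v) (h0 : Integrable f) (h1 : Integrable fun v => f v * g v)
    (h2 : Integrable fun v => f v * g v ^ 2) :
    (∫ v, f v * g v) ^ 2 ≤ (∫ v, f v) * ∫ v, f v * g v ^ 2 := by
  have key : ∀ x : ℝ, 0 ≤ (∫ v, f v) * (x * x) + (-(2 * ∫ v, f v * g v)) * x + ∫ v, f v * g v ^ 2 := by
    intro x
    have h3 : 0 ≤ ∫ v, f v * (x - g v) ^ 2 := integral_nonneg fun v => mul_nonneg (hf v) (sq_nonneg _)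
    have h4 : ∀ v, f v * (x - g v) ^ 2 = f v * (x * x) + (-(2 * x)) * (f v * g v) + f v * g v ^ 2 :=
      fun v => by ring
    simp_rw [h4] at h3
    have e1 : ∫ v, (f v * (x * x) + (-(2 * x)) * (f v * g v) + f v * g v ^ 2) =
        (∫ v, (f v * (x * x) + (-(2 * x)) * (f v * g v))) + ∫ v, f v * g v ^ 2 :=
      integral_add ((h0.mul_const _).add (h1.const_mul _)) h2
    have e2 : ∫ v, (f v * (x * x) + (-(2 * x)) * (f v * g v)) =
        (∫ v, f v * (x * x)) + ∫ v, (-(2 * x)) * (f v * g v) :=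
      integral_add (h0.mul_const _) (h1.const_mul _)
    rw [e1, e2, integral_mul_const, integral_const_mul] at h3
    linarith
  have h5 := discrim_le_zero key
  unfold discrim at h5
  nlinarith

/-- an integral over a line against the weight -/
theorem line_sq {h : ℝ → ℂ} {g : ℝ → ℝ} {D A M : ℝ} (hg : Continuous g) (hg0 : ∀ v, 0 ≤ g v)
    (hgM : ∀ v, g v ≤ M) (hh : ∀ v, ‖h v‖ ≤ D * (om A v * g v)) :
    ‖∫ v, h v‖ ^ 2 ≤ D ^ 2 * (∫ v, om A v) * ∫ v, om A v * g v ^ 2 := by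
  have h1 : Integrable fun v => om A v * g v := by
    refine ((om_int A).mul_const M).mono' ((om_cont A).mul hg).aestronglyMeasurable
      (Eventually.of_forall fun v => ?_)
    rw [Real.norm_of_nonneg (mul_nonneg (om_nonneg A v) (hg0 v))]
    exact mul_le_mul_of_nonneg_left (hgM v) (om_nonneg A v)
  have h2 : Integrable fun v => om A v * g v ^ 2 := by
    refine ((om_int A).mul_const (M ^ 2)).mono' ((om_cont A).mul (hg.pow 2)).aestronglyMeasurable
      (Eventually.of_forall fun v => ?_)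
    rw [Real.norm_of_nonneg (mul_nonneg (om_nonneg A v) (sq_nonneg _))]
    exact mul_le_mul_of_nonneg_left (pow_le_pow_left₀ (hg0 v) (hgM v) 2) (om_nonneg A v)
  have h3 : ‖∫ v, h v‖ ≤ D * ∫ v, om A v * g v := by
    rw [← integral_const_mul]
    exact norm_integral_le_of_norm_le (h1.const_mul D) (Eventually.of_forall hh)
  have h4 := cs (om_nonneg A) (om_int A) h1 h2
  calc ‖∫ v, h v‖ ^ 2 ≤ (D * ∫ v, om A v * g v) ^ 2 := pow_le_pow_left₀ (norm_nonneg _) h3 2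
    _ = D ^ 2 * (∫ v, om A v * g v) ^ 2 := by ring
    _ ≤ D ^ 2 * ((∫ v, om A v) * ∫ v, om A v * g v ^ 2) := mul_le_mul_of_nonneg_left h4 (sq_nonneg D)
    _ = _ := by ring

variable {T : Type}

/-- a Dirichlet series -/
noncomputable def DS (b : T → ℂ) (Λ : T → ℝ) (s : ℂ) : ℂ := ∑' l, b l * cexp (-(s * Λ l))

theorem DS_bound {b : T → ℂ} {Λ : T → ℝ} (hΛ : ∀ l, 0 ≤ Λ l) {σ : ℝ}
    (hb : Summable fun l => ‖b l‖ * Real.exp (-(σ * Λ l))) {s : ℂ} (hs : σ ≤ s.re) :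
    ‖DS b Λ s‖ ≤ ∑' l, ‖b l‖ * Real.exp (-(σ * Λ l)) := by
  have h1 : ∀ l, ‖b l * cexp (-(s * Λ l))‖ ≤ ‖b l‖ * Real.exp (-(σ * Λ l)) := by
    intro l
    rw [term_norm']
    exact mul_le_mul_of_nonneg_left (Real.exp_le_exp.2 (by nlinarith [hΛ l])) (norm_nonneg _)
  exact tsum_of_norm_bounded hb.hasSum h1

theorem DS_diff {b : T → ℂ} {Λ : T → ℝ} (hΛ : ∀ l, 0 ≤ Λ l) {σ : ℝ}
    (hb : Summable fun l => ‖b l‖ * Real.exp (-(σ * Λ l))) {s : ℂ} (hs : σ < s.re) :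
    DifferentiableAt ℂ (DS b Λ) s := by
  have hopen : IsOpen {z : ℂ | σ < z.re} := isOpen_lt continuous_const Complex.continuous_re
  have h1 : DifferentiableOn ℂ (fun z => ∑' l, b l * cexp (-(z * Λ l))) {z : ℂ | σ < z.re} := by
    refine Complex.differentiableOn_tsum_of_summable_norm hb (fun l => ?_) hopen (fun l w hw => ?_)
    · exact Differentiable.differentiableOn (by fun_prop)
    · rw [term_norm']
      have hw' : σ < w.re := hw
      exact mul_le_mul_of_nonneg_left (Real.exp_le_exp.2 (by nlinarith [hΛ l])) (norm_nonneg _)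
  exact h1.differentiableAt (hopen.mem_nhds hs)

theorem DS_conj (b : T → ℂ) (Λ : T → ℝ) (s : ℂ) :
    (starRingEnd ℂ) (DS b Λ s) = DS (fun l => (starRingEnd ℂ) (b l)) Λ ((starRingEnd ℂ) s) := by
  unfold DS
  rw [Complex.conj_tsum]
  refine tsum_congr fun l => ?_
  rw [map_mul, ← Complex.exp_conj, map_neg, map_mul, Complex.conj_ofReal]

theorem line_cont' {f : ℂ → ℂ} {x t : ℝ} (h : ∀ s : ℂ, s.re = x → ContinuousAt f s) :
    Continuous fun v : ℝ => f ((x : ℂ) + (t + v : ℝ) * I) := by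
  rw [continuous_iff_continuousAt]
  intro v
  have h1 : ContinuousAt f ((x : ℂ) + (t + v : ℝ) * I) := h _ (by simp)
  exact ContinuousAt.comp (f := fun v : ℝ => (x : ℂ) + (t + v : ℝ) * I) h1 (by fun_prop)

/-- exponential growth against the Gaussian -/
theorem exp_decay {A x : ℝ} (hx : 0 ≤ x) :
    Real.exp (A * x) * Real.exp (-x ^ 2) ≤ Real.exp ((A + 2) ^ 2) * (1 + x) ^ (-2 : ℝ) := by
  have h1 : (1 + x) ^ 2 ≤ Real.exp (2 * x) := by
    have h2 : 1 + x ≤ Real.exp x := by linarith [Real.add_one_le_exp x]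
    calc (1 + x) ^ 2 ≤ (Real.exp x) ^ 2 := pow_le_pow_left₀ (by linarith) h2 2
      _ = _ := by rw [← Real.exp_nat_mul]; norm_num
  rw [Real.rpow_neg (by linarith), ← div_eq_mul_inv, le_div_iff₀ (by positivity)]
  have e : (1 + x) ^ (2 : ℝ) = (1 + x) ^ 2 := by
    rw [← Real.rpow_natCast]
    norm_num
  rw [e]
  calc Real.exp (A * x) * Real.exp (-x ^ 2) * (1 + x) ^ 2
      ≤ Real.exp (A * x) * Real.exp (-x ^ 2) * Real.exp (2 * x) :=
        mul_le_mul_of_nonneg_left h1 (by positivity)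
    _ = Real.exp (A * x + -x ^ 2 + 2 * x) := by rw [Real.exp_add, Real.exp_add]
    _ ≤ _ := by
        refine Real.exp_le_exp.2 ?_
        nlinarith [sq_nonneg (x - (A + 2) / 2), sq_nonneg (A + 2)]

theorem sq3 (x y z : ℂ) : ‖x - y - z‖ ^ 2 ≤ 3 * ‖x‖ ^ 2 + 3 * ‖y‖ ^ 2 + 3 * ‖z‖ ^ 2 := by
  have h1 : ‖x - y - z‖ ≤ ‖x‖ + ‖y‖ + ‖z‖ := by
    calc ‖x - y - z‖ ≤ ‖x - y‖ + ‖z‖ := norm_sub_le _ _
      _ ≤ _ := by linarith [norm_sub_le x y]
  have h2 := pow_le_pow_left₀ (norm_nonneg _) h1 2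
  nlinarith [sq_nonneg (‖x‖ - ‖y‖), sq_nonneg (‖y‖ - ‖z‖), sq_nonneg (‖x‖ - ‖z‖)]

/-- the abstract approximate functional equation -/
theorem core [Countable T] {a : T → ℂ} {Λ : T → ℝ} {G χ : ℂ → ℂ} (hΛ : ∀ l, 0 ≤ Λ l)
    (ha : ∀ σ : ℝ, 1 < σ → Summable fun l => ‖a l‖ * Real.exp (-(σ * Λ l))) (hG : Differentiable ℂ G)
    (hgr : ∃ C A : ℝ, ∀ s : ℂ, -(1 / 2) ≤ s.re → s.re ≤ 7 / 2 → ‖G s‖ ≤ C * (1 + |s.im|) ^ A)
    (hGs : ∀ s : ℂ, 1 < s.re → HasSum (fun l => a l * cexp (-(s * Λ l))) (G s))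
    {c : ℝ} (hc : 0 < c) (hc4 : c ≤ 1 / 4) (hχd : ∀ s : ℂ, s.re < 1 / 2 → DifferentiableAt ℂ χ s)
    (hfe : ∀ s : ℂ, s.re < 1 / 2 → G s = χ s * (starRingEnd ℂ) (G (1 - (starRingEnd ℂ) s)))
    {t y B1 B2 A : ℝ} (hy : 0 ≤ y)
    (hB1 : ∀ v : ℝ, ‖χ (((1 / 2 - c : ℝ) : ℂ) + (t + v : ℝ) * I)‖ ≤ B1 * (1 + |v|) ^ A)
    (hB2 : ∀ v : ℝ, ‖χ (((-(1 / 2) : ℝ) : ℂ) + (t + v : ℝ) * I)‖ ≤ B2 * (1 + |v|) ^ A)
    {C' A' : ℝ} (hA' : 0 ≤ A')
    (hst : ∀ s : ℂ, -(1 / 2) ≤ s.re → s.re ≤ 1 / 2 - c → ‖χ s‖ ≤ C' * Real.exp (A' * |s.im|)) :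
    ‖G (1 / 2 + t * I)‖ ^ 2 ≤
      3 * ‖∑' l, a l * cexp (-((1 / 2 + t * I) * Λ l)) * VV (y - Λ l)‖ ^ 2 +
      3 * ((Real.exp 1 / c * B1 * Real.exp (-(c * y))) ^ 2 * (∫ v, om A v) *
        ∫ v, om A v * ‖DS (fun l => if Λ l ≤ y then a l else 0) Λ
          (((1 / 2 + c : ℝ) : ℂ) + (t + v : ℝ) * I)‖ ^ 2) +
      3 * ((Real.exp 1 * B2 * Real.exp (-y)) ^ 2 * (∫ v, om A v) *
        ∫ v, om A v * ‖DS (fun l => if Λ l ≤ y then 0 else a l) Λ
          (((3 / 2 : ℝ) : ℂ) + (t + v : ℝ) * I)‖ ^ 2) := by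
  set bl : T → ℂ := fun l => if Λ l ≤ y then a l else 0 with hbl
  set bg : T → ℂ := fun l => if Λ l ≤ y then 0 else a l with hbg
  have hB10 : 0 ≤ B1 := by
    have := (norm_nonneg _).trans (hB1 0)
    simpa using this
  have hB20 : 0 ≤ B2 := by
    have := (norm_nonneg _).trans (hB2 0)
    simpa using this
  -- summability
  have hbgs : ∀ σ : ℝ, 1 < σ → Summable fun l => ‖bg l‖ * Real.exp (-(σ * Λ l)) := by
    intro σ hσ
    refine Summable.of_nonneg_of_le (fun l => by positivity) (fun l => ?_) (ha σ hσ)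
    refine mul_le_mul_of_nonneg_right ?_ (Real.exp_pos _).le
    simp only [hbg]
    split_ifs
    · simp
    · exact le_rfl
  have hbls : ∀ σ : ℝ, Summable fun l => ‖bl l‖ * Real.exp (-(σ * Λ l)) := by
    intro σ
    refine Summable.of_nonneg_of_le (fun l => by positivity) (fun l => ?_)
      ((ha 2 (by norm_num)).mul_left (Real.exp (|2 - σ| * y)))
    simp only [hbl]
    split_ifs with hl
    · have h1 : Real.exp (-(σ * Λ l)) ≤ Real.exp (|2 - σ| * y) * Real.exp (-(2 * Λ l)) := by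
        rw [← Real.exp_add]
        refine Real.exp_le_exp.2 ?_
        have h2 : (2 - σ) * Λ l ≤ |2 - σ| * y :=
          mul_le_mul (le_abs_self _) hl (hΛ l) (abs_nonneg _)
        linarith
      calc ‖a l‖ * Real.exp (-(σ * Λ l)) ≤
            ‖a l‖ * (Real.exp (|2 - σ| * y) * Real.exp (-(2 * Λ l))) :=
            mul_le_mul_of_nonneg_left h1 (norm_nonneg _)
        _ = _ := by ring
    · simp
      positivity
  have hblc : ∀ σ : ℝ, Summable fun l => ‖(starRingEnd ℂ) (bl l)‖ * Real.exp (-(σ * Λ l)) := by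
    intro σ
    refine (hbls σ).congr fun l => ?_
    rw [RCLike.norm_conj]
  set s0 : ℂ := 1 / 2 + t * I with hs0
  have hs0re : s0.re = 1 / 2 := by simp [hs0]
  have hs0im : s0.im = t := by simp [hs0]
  -- the smoothed sum
  have h1 := expandC (c := a) (Λ := Λ) (F := G) (s0 := s0) (b := 3) (by norm_num)
    (ha (s0.re + 3) (by rw [hs0re]; norm_num))
    (fun s hs => hGs s (by rw [hs, hs0re]; norm_num)) y
  -- crossing the pole
  set H : ℂ → ℂ := fun w => G (s0 + w) * cexp (w * y) with hH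
  obtain ⟨C1, A1, hCA⟩ := hgr
  obtain ⟨C2, hC20, hC2⟩ := rpow_exp (|A1|)
  have hHb : ∀ w : ℂ, -1 ≤ w.re → w.re ≤ 3 →
      ‖H w‖ ≤ |C1| * ((1 + |s0.im|) ^ (|A1|) * C2) * Real.exp (3 * y) * Real.exp |w.im| := by
    intro w hw1 hw2
    rw [hH]
    simp only
    rw [norm_mul]
    have h2 := hCA (s0 + w) (by rw [Complex.add_re, hs0re]; linarith)
      (by rw [Complex.add_re, hs0re]; linarith)
    have h3 : ‖cexp (w * y)‖ ≤ Real.exp (3 * y) := by
      rw [Complex.norm_exp]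
      refine Real.exp_le_exp.2 ?_
      simp only [Complex.mul_re, Complex.ofReal_re, Complex.ofReal_im, mul_zero, sub_zero]
      exact mul_le_mul_of_nonneg_right hw2 hy
    have h4 : (1 + |(s0 + w).im|) ^ A1 ≤ (1 + |s0.im|) ^ (|A1|) * C2 * Real.exp |w.im| := by
      have e1 : 1 + |(s0 + w).im| ≤ (1 + |s0.im|) * (1 + |w.im|) := by
        rw [Complex.add_im]
        have := abs_add_le s0.im w.im
        nlinarith [abs_nonneg s0.im, abs_nonneg w.im]
      have e2 : (1 + |(s0 + w).im|) ^ A1 ≤ (1 + |(s0 + w).im|) ^ (|A1|) :=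
        Real.rpow_le_rpow_of_exponent_le (by linarith [abs_nonneg (s0 + w).im]) (le_abs_self _)
      have e3 : (1 + |(s0 + w).im|) ^ (|A1|) ≤ ((1 + |s0.im|) * (1 + |w.im|)) ^ (|A1|) :=
        Real.rpow_le_rpow (by positivity) e1 (abs_nonneg _)
      rw [Real.mul_rpow (by positivity) (by positivity)] at e3
      refine (e2.trans e3).trans ?_
      rw [mul_assoc]
      exact mul_le_mul_of_nonneg_left (hC2 _ (abs_nonneg _)) (by positivity)
    have h5 : ‖G (s0 + w)‖ ≤ |C1| * ((1 + |s0.im|) ^ (|A1|) * C2 * Real.exp |w.im|) := by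
      refine h2.trans ?_
      have hX : 0 ≤ (1 + |(s0 + w).im|) ^ A1 := Real.rpow_nonneg (by positivity) _
      calc _ ≤ |C1| * (1 + |(s0 + w).im|) ^ A1 := mul_le_mul_of_nonneg_right (le_abs_self _) hX
        _ ≤ _ := mul_le_mul_of_nonneg_left h4 (abs_nonneg _)
    calc ‖G (s0 + w)‖ * ‖cexp (w * y)‖ ≤
          (|C1| * ((1 + |s0.im|) ^ (|A1|) * C2 * Real.exp |w.im|)) * Real.exp (3 * y) :=
          mul_le_mul h5 h3 (norm_nonneg _) (by positivity)
      _ = _ := by ring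
  have hHd : Differentiable ℂ H := (hG.comp (by fun_prop)).mul (by fun_prop)
  have h2 := cross hHd (by norm_num : (-1 : ℝ) < 0) (by norm_num : (0 : ℝ) < 3) hHb
  have hH0 : H 0 = G s0 := by
    rw [hH]
    simp
  rw [hH0] at h2
  set S1 : ℂ := ∑' l, a l * cexp (-(s0 * Λ l)) * VV (y - Λ l) with hS1
  have h3 : (∫ v : ℝ, H ((3 : ℝ) + v * I) * (cexp (((3 : ℝ) + v * I) ^ 2) / ((3 : ℝ) + v * I))) =
      2 * Real.pi * S1 := by
    have h4 : (∫ v : ℝ, G (s0 + ((3 : ℝ) + v * I)) * cexp (((3 : ℝ) + v * I) * y) * EE 3 v) =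
        2 * Real.pi * S1 := by
      rw [← h1.tsum_eq, tsum_mul_left]
    rw [← h4]
    rfl
  rw [h3] at h2
  -- the line `Re z = -1`
  set X1 : ℝ → ℂ := fun v => χ (((-(1 / 2) : ℝ) : ℂ) + (t + v : ℝ) * I) *
    (starRingEnd ℂ) (DS bl Λ (((3 / 2 : ℝ) : ℂ) + (t + v : ℝ) * I)) *
    cexp (((-1 : ℝ) + v * I) * y) * (cexp (((-1 : ℝ) + v * I) ^ 2) / ((-1 : ℝ) + v * I)) with hX1
  set X2 : ℝ → ℂ := fun v => χ (((-(1 / 2) : ℝ) : ℂ) + (t + v : ℝ) * I) *
    (starRingEnd ℂ) (DS bg Λ (((3 / 2 : ℝ) : ℂ) + (t + v : ℝ) * I)) *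
    cexp (((-1 : ℝ) + v * I) * y) * (cexp (((-1 : ℝ) + v * I) ^ 2) / ((-1 : ℝ) + v * I)) with hX2
  have hsplit : ∀ v : ℝ, H ((-1 : ℝ) + v * I) *
      (cexp (((-1 : ℝ) + v * I) ^ 2) / ((-1 : ℝ) + v * I)) = X1 v + X2 v := by
    intro v
    have e1 : s0 + ((-1 : ℝ) + v * I) = ((-(1 / 2) : ℝ) : ℂ) + (t + v : ℝ) * I := by
      rw [hs0]
      push_cast
      ring
    have e2 : 1 - (starRingEnd ℂ) (((-(1 / 2) : ℝ) : ℂ) + (t + v : ℝ) * I) =
        ((3 / 2 : ℝ) : ℂ) + (t + v : ℝ) * I := by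
      apply Complex.ext
      · simp
        norm_num
      · simp
    have e3 : G (((3 / 2 : ℝ) : ℂ) + (t + v : ℝ) * I) = DS bl Λ (((3 / 2 : ℝ) : ℂ) + (t + v : ℝ) * I) +
        DS bg Λ (((3 / 2 : ℝ) : ℂ) + (t + v : ℝ) * I) := by
      have e4 : (((3 / 2 : ℝ) : ℂ) + (t + v : ℝ) * I).re = 3 / 2 := by simp
      have e5 := hGs (((3 / 2 : ℝ) : ℂ) + (t + v : ℝ) * I) (by rw [e4]; norm_num)
      have hsl : Summable fun l => bl l * cexp (-((((3 / 2 : ℝ) : ℂ) + (t + v : ℝ) * I) * Λ l)) := by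
        refine Summable.of_norm ((hbls (3 / 2)).congr fun l => ?_)
        rw [term_norm', e4]
      have hsg : Summable fun l => bg l * cexp (-((((3 / 2 : ℝ) : ℂ) + (t + v : ℝ) * I) * Λ l)) := by
        refine Summable.of_norm ((hbgs (3 / 2) (by norm_num)).congr fun l => ?_)
        rw [term_norm', e4]
      unfold DS
      rw [← hsl.tsum_add hsg, ← e5.tsum_eq]
      refine tsum_congr fun l => ?_
      simp only [hbl, hbg]
      split_ifs <;> ring
    rw [hH]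
    simp only
    rw [e1, hfe _ (by simp), e2, e3, map_add, hX1, hX2]
    simp only
    ring
  have hpt1 : ∀ v : ℝ, ‖cexp (((-1 : ℝ) + v * I) * y)‖ = Real.exp (-y) := by
    intro v
    rw [Complex.norm_exp]
    simp
  have hpt2 : ∀ v : ℝ, ‖cexp ((((-1 : ℝ) : ℂ) + v * I) ^ 2) / (((-1 : ℝ) : ℂ) + v * I)‖ ≤
      Real.exp 1 * Real.exp (-v ^ 2) := by
    intro v
    rw [norm_div, norm_exp_sq]
    have e4 : 1 ≤ ‖((-1 : ℝ) : ℂ) + v * I‖ := by
      have h5 := Complex.abs_re_le_norm (((-1 : ℝ) : ℂ) + v * I)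
      have h6 : (((-1 : ℝ) : ℂ) + v * I).re = -1 := by simp
      rw [h6] at h5
      simpa using h5
    refine (div_le_self (Real.exp_pos _).le e4).trans (le_of_eq ?_)
    rw [← Real.exp_add]
    congr 1
    simp
    ring
  have hXb : ∀ (b : T → ℂ) (v : ℝ), ‖χ (((-(1 / 2) : ℝ) : ℂ) + (t + v : ℝ) * I) *
      (starRingEnd ℂ) (DS b Λ (((3 / 2 : ℝ) : ℂ) + (t + v : ℝ) * I)) *
      cexp (((-1 : ℝ) + v * I) * y) * (cexp (((-1 : ℝ) + v * I) ^ 2) / ((-1 : ℝ) + v * I))‖ ≤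
      (Real.exp 1 * B2 * Real.exp (-y)) *
        (om A v * ‖DS b Λ (((3 / 2 : ℝ) : ℂ) + (t + v : ℝ) * I)‖) := by
    intro b v
    rw [norm_mul, norm_mul, norm_mul, RCLike.norm_conj, hpt1]
    have hX : 0 ≤ (1 + |v|) ^ A := Real.rpow_nonneg (by positivity) _
    calc _ ≤ (B2 * (1 + |v|) ^ A) * ‖DS b Λ (((3 / 2 : ℝ) : ℂ) + (t + v : ℝ) * I)‖ * Real.exp (-y) *
          (Real.exp 1 * Real.exp (-v ^ 2)) := by
          refine mul_le_mul (mul_le_mul_of_nonneg_right (mul_le_mul_of_nonneg_right (hB2 v)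
            (norm_nonneg _)) (Real.exp_pos _).le) (hpt2 v) (norm_nonneg _) (by positivity)
      _ = _ := by
          unfold om
          ring
  have hcχ : Continuous fun v : ℝ => χ (((-(1 / 2) : ℝ) : ℂ) + (t + v : ℝ) * I) :=
    line_cont' fun s hs => (hχd s (by rw [hs]; norm_num)).continuousAt
  have hcl : ∀ x : ℝ, Continuous fun v : ℝ => DS bl Λ ((x : ℂ) + (t + v : ℝ) * I) := fun x =>
    line_cont' fun s hs => (DS_diff hΛ (hbls (x - 1)) (by rw [hs]; linarith)).continuousAt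
  have hcg : Continuous fun v : ℝ => DS bg Λ (((3 / 2 : ℝ) : ℂ) + (t + v : ℝ) * I) :=
    line_cont' fun s hs =>
      (DS_diff hΛ (hbgs (5 / 4) (by norm_num)) (by rw [hs]; norm_num)).continuousAt
  have hbdl : ∀ x v : ℝ, ‖DS bl Λ ((x : ℂ) + (t + v : ℝ) * I)‖ ≤ ∑' l, ‖bl l‖ * Real.exp (-(x * Λ l)) :=
    fun x v => DS_bound hΛ (hbls x) (by simp)
  have hbdg : ∀ v : ℝ, ‖DS bg Λ (((3 / 2 : ℝ) : ℂ) + (t + v : ℝ) * I)‖ ≤
      ∑' l, ‖bg l‖ * Real.exp (-((3 / 2 : ℝ) * Λ l)) :=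
    fun v => DS_bound hΛ (hbgs (3 / 2) (by norm_num)) (by simp)
  have hcE : Continuous fun v : ℝ =>
      cexp ((((-1 : ℝ) : ℂ) + v * I) ^ 2) / (((-1 : ℝ) : ℂ) + v * I) := by
    refine Continuous.div (by fun_prop) (by fun_prop) fun v h => ?_
    have := congrArg Complex.re h
    simp at this
  have hIX : ∀ (b : T → ℂ) (M : ℝ), (Continuous fun v : ℝ =>
      DS b Λ (((3 / 2 : ℝ) : ℂ) + (t + v : ℝ) * I)) →
      (∀ v : ℝ, ‖DS b Λ (((3 / 2 : ℝ) : ℂ) + (t + v : ℝ) * I)‖ ≤ M) →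
      Integrable fun v : ℝ => χ (((-(1 / 2) : ℝ) : ℂ) + (t + v : ℝ) * I) *
      (starRingEnd ℂ) (DS b Λ (((3 / 2 : ℝ) : ℂ) + (t + v : ℝ) * I)) *
      cexp (((-1 : ℝ) + v * I) * y) * (cexp (((-1 : ℝ) + v * I) ^ 2) / ((-1 : ℝ) + v * I)) := by
    intro b M hb hM
    refine (((om_int A).mul_const M).const_mul (Real.exp 1 * B2 * Real.exp (-y))).mono' ?_
      (Eventually.of_forall fun v => ?_)
    · refine Continuous.aestronglyMeasurable ?_
      exact ((hcχ.mul (Complex.continuous_conj.comp hb)).mul (by fun_prop)).mul hcE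
    · refine (hXb b v).trans ?_
      refine mul_le_mul_of_nonneg_left ?_ (by positivity)
      exact mul_le_mul_of_nonneg_left (hM v) (om_nonneg A v)
  have hI1 : Integrable X1 := hIX bl _ (hcl (3 / 2)) (hbdl (3 / 2))
  have hI2 : Integrable X2 := hIX bg _ hcg hbdg
  simp_rw [hsplit] at h2
  rw [integral_add hI1 hI2] at h2
  -- the second part
  have hD2 : ‖∫ v, X2 v‖ ^ 2 ≤ (Real.exp 1 * B2 * Real.exp (-y)) ^ 2 * (∫ v, om A v) *
      ∫ v, om A v * ‖DS bg Λ (((3 / 2 : ℝ) : ℂ) + (t + v : ℝ) * I)‖ ^ 2 :=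
    line_sq hcg.norm (fun v => norm_nonneg _) hbdg (fun v => hXb bg v)
  -- the first part: the shift
  set Φ : ℂ → ℂ := fun z => χ (s0 + z) * DS (fun l => (starRingEnd ℂ) (bl l)) Λ (1 - s0 - z) *
    cexp (z * y) * (cexp (z ^ 2) / z) with hΦ
  have hΦ1 : ∀ v : ℝ, Φ (((-1 : ℝ) : ℂ) + v * I) = X1 v := by
    intro v
    rw [hΦ, hX1]
    simp only
    have e1 : s0 + (((-1 : ℝ) : ℂ) + v * I) = ((-(1 / 2) : ℝ) : ℂ) + (t + v : ℝ) * I := by
      rw [hs0]
      push_cast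
      ring
    have e2 : 1 - s0 - (((-1 : ℝ) : ℂ) + v * I) =
        (starRingEnd ℂ) (((3 / 2 : ℝ) : ℂ) + (t + v : ℝ) * I) := by
      rw [map_add, map_mul, Complex.conj_ofReal, Complex.conj_ofReal, Complex.conj_I, hs0]
      push_cast
      ring
    rw [e1, e2, DS_conj]
  have hΦc : ∀ v : ℝ, Φ (((-c : ℝ) : ℂ) + v * I) = χ (((1 / 2 - c : ℝ) : ℂ) + (t + v : ℝ) * I) *
      (starRingEnd ℂ) (DS bl Λ (((1 / 2 + c : ℝ) : ℂ) + (t + v : ℝ) * I)) *
      cexp ((((-c : ℝ) : ℂ) + v * I) * y) *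
      (cexp ((((-c : ℝ) : ℂ) + v * I) ^ 2) / (((-c : ℝ) : ℂ) + v * I)) := by
    intro v
    rw [hΦ]
    simp only
    have e1 : s0 + (((-c : ℝ) : ℂ) + v * I) = ((1 / 2 - c : ℝ) : ℂ) + (t + v : ℝ) * I := by
      rw [hs0]
      push_cast
      ring
    have e2 : 1 - s0 - (((-c : ℝ) : ℂ) + v * I) =
        (starRingEnd ℂ) (((1 / 2 + c : ℝ) : ℂ) + (t + v : ℝ) * I) := by
      rw [map_add, map_mul, Complex.conj_ofReal, Complex.conj_ofReal, Complex.conj_I, hs0]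
      push_cast
      ring
    rw [e1, e2, DS_conj]
  have hzne : ∀ z : ℂ, z.re ≤ -c → c ≤ ‖z‖ := by
    intro z hz
    have h5 := Complex.abs_re_le_norm z
    rw [abs_of_neg (by linarith)] at h5
    linarith
  have hΦd : ∀ z : ℂ, -1 ≤ z.re → z.re ≤ -c → DifferentiableAt ℂ Φ z := by
    intro z _ hz2
    have hz0 : z ≠ 0 := by
      intro h0
      have := hzne z hz2
      rw [h0, norm_zero] at this
      linarith
    have d1 : DifferentiableAt ℂ (fun z => χ (s0 + z)) z := by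
      have := hχd (s0 + z) (by rw [Complex.add_re, hs0re]; linarith)
      exact DifferentiableAt.comp z this (by fun_prop)
    have d2 : DifferentiableAt ℂ
        (fun z => DS (fun l => (starRingEnd ℂ) (bl l)) Λ (1 - s0 - z)) z := by
      have := DS_diff hΛ (hblc ((1 - s0 - z).re - 1)) (s := 1 - s0 - z) (by linarith)
      exact DifferentiableAt.comp z this (by fun_prop)
    have d3 : DifferentiableAt ℂ (fun z : ℂ => cexp (z ^ 2) / z) z :=
      DifferentiableAt.div (by fun_prop) (by fun_prop) hz0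
    exact ((d1.mul d2).mul (by fun_prop)).mul d3
  have hC'0 : 0 ≤ C' := by
    have h5 := (norm_nonneg _).trans (hst 0 (by simp) (by simp; linarith))
    simpa using h5
  set M0 : ℝ := ∑' l, ‖(starRingEnd ℂ) (bl l)‖ * Real.exp (-((0 : ℝ) * Λ l)) with hM0
  have hM00 : 0 ≤ M0 := tsum_nonneg fun l => by positivity
  have hΦb : ∀ z : ℂ, -1 ≤ z.re → z.re ≤ -c → ‖Φ z‖ ≤
      (C' * Real.exp (A' * |t|) * M0 * (Real.exp 1 / c) * Real.exp ((A' + 2) ^ 2)) *
        (1 + |z.im|) ^ (-2 : ℝ) := by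
    intro z hz1 hz2
    rw [hΦ]
    simp only
    rw [norm_mul, norm_mul, norm_mul]
    have b1 : ‖χ (s0 + z)‖ ≤ C' * Real.exp (A' * |t|) * Real.exp (A' * |z.im|) := by
      have h5 := hst (s0 + z) (by rw [Complex.add_re, hs0re]; linarith)
        (by rw [Complex.add_re, hs0re]; linarith)
      refine h5.trans ?_
      rw [mul_assoc, ← Real.exp_add]
      refine mul_le_mul_of_nonneg_left (Real.exp_le_exp.2 ?_) hC'0
      rw [Complex.add_im, hs0im, ← mul_add]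
      exact mul_le_mul_of_nonneg_left (abs_add_le _ _) hA'
    have b2 : ‖DS (fun l => (starRingEnd ℂ) (bl l)) Λ (1 - s0 - z)‖ ≤ M0 := by
      refine DS_bound hΛ (hblc 0) ?_
      rw [Complex.sub_re, Complex.sub_re, hs0re]
      simp
      linarith
    have b3 : ‖cexp (z * y)‖ ≤ 1 := by
      rw [Complex.norm_exp, Real.exp_le_one_iff]
      simp only [Complex.mul_re, Complex.ofReal_re, Complex.ofReal_im, mul_zero, sub_zero]
      nlinarith
    have b4 : ‖cexp (z ^ 2) / z‖ ≤ Real.exp 1 / c * Real.exp (-|z.im| ^ 2) := by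
      rw [norm_div, norm_exp_sq, div_mul_eq_mul_div, ← Real.exp_add]
      refine div_le_div₀ (Real.exp_pos _).le (Real.exp_le_exp.2 ?_) hc (hzne z hz2)
      rw [sq_abs]
      nlinarith
    have b5 := exp_decay (A := A') (abs_nonneg z.im)
    calc ‖χ (s0 + z)‖ * ‖DS (fun l => (starRingEnd ℂ) (bl l)) Λ (1 - s0 - z)‖ * ‖cexp (z * y)‖ *
          ‖cexp (z ^ 2) / z‖ ≤
          (C' * Real.exp (A' * |t|) * Real.exp (A' * |z.im|)) * M0 * 1 *
            (Real.exp 1 / c * Real.exp (-|z.im| ^ 2)) :=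
          mul_le_mul (mul_le_mul (mul_le_mul b1 b2 (norm_nonneg _) (by positivity)) b3
            (norm_nonneg _) (by positivity)) b4 (norm_nonneg _) (by positivity)
      _ = (C' * Real.exp (A' * |t|) * M0 * (Real.exp 1 / c)) *
            (Real.exp (A' * |z.im|) * Real.exp (-|z.im| ^ 2)) := by ring
      _ ≤ (C' * Real.exp (A' * |t|) * M0 * (Real.exp 1 / c)) *
            (Real.exp ((A' + 2) ^ 2) * (1 + |z.im|) ^ (-2 : ℝ)) :=
          mul_le_mul_of_nonneg_left b5 (by positivity)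
      _ = _ := by ring
  have hsh := shift (H := Φ) (a := -1) (b := -c) (p := 2) (by norm_num) (by linarith)
    (fun z h5 h6 => hΦd z h5 h6) (fun z h5 h6 => hΦb z h5 h6)
  unfold V at hsh
  have hpi := Real.pi_pos
  have hpic : (((2 * Real.pi)⁻¹ : ℝ) : ℂ) ≠ 0 := by
    exact_mod_cast (by positivity : (2 * Real.pi)⁻¹ ≠ 0)
  have hsh2 : (∫ v, X1 v) = ∫ v : ℝ, Φ (((-c : ℝ) : ℂ) + v * I) := by
    rw [← mul_left_cancel₀ hpic hsh]
    refine integral_congr_ae (Eventually.of_forall fun v => ?_)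
    exact (hΦ1 v).symm
  have hD1 : ‖∫ v, X1 v‖ ^ 2 ≤ (Real.exp 1 / c * B1 * Real.exp (-(c * y))) ^ 2 * (∫ v, om A v) *
      ∫ v, om A v * ‖DS bl Λ (((1 / 2 + c : ℝ) : ℂ) + (t + v : ℝ) * I)‖ ^ 2 := by
    rw [hsh2]
    refine line_sq (hcl (1 / 2 + c)).norm (fun v => norm_nonneg _) (hbdl (1 / 2 + c)) (fun v => ?_)
    rw [hΦc v, norm_mul, norm_mul, norm_mul, RCLike.norm_conj]
    have hX : 0 ≤ (1 + |v|) ^ A := Real.rpow_nonneg (by positivity) _
    have b3 : ‖cexp ((((-c : ℝ) : ℂ) + v * I) * y)‖ = Real.exp (-(c * y)) := by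
      rw [Complex.norm_exp]
      simp
    have b4 : ‖cexp ((((-c : ℝ) : ℂ) + v * I) ^ 2) / (((-c : ℝ) : ℂ) + v * I)‖ ≤
        Real.exp 1 / c * Real.exp (-v ^ 2) := by
      rw [norm_div, norm_exp_sq, div_mul_eq_mul_div, ← Real.exp_add]
      have h6 : (((-c : ℝ) : ℂ) + v * I).re = -c := by simp
      have h7 : (((-c : ℝ) : ℂ) + v * I).im = v := by simp
      refine div_le_div₀ (Real.exp_pos _).le (Real.exp_le_exp.2 ?_) hc (hzne _ h6.le)
      rw [h6, h7]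
      nlinarith
    rw [b3]
    calc _ ≤ (B1 * (1 + |v|) ^ A) * ‖DS bl Λ (((1 / 2 + c : ℝ) : ℂ) + (t + v : ℝ) * I)‖ *
          Real.exp (-(c * y)) * (Real.exp 1 / c * Real.exp (-v ^ 2)) := by
          refine mul_le_mul (mul_le_mul_of_nonneg_right (mul_le_mul_of_nonneg_right (hB1 v)
            (norm_nonneg _)) (Real.exp_pos _).le) b4 (norm_nonneg _) (by positivity)
      _ = _ := by
          unfold om
          ring
  -- conclusion
  have h2pi : (2 * Real.pi : ℂ) ≠ 0 := by exact_mod_cast (by positivity : (2 * Real.pi : ℝ) ≠ 0)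
  have hGeq : G s0 = S1 - (2 * Real.pi : ℂ)⁻¹ * (∫ v, X1 v) - (2 * Real.pi : ℂ)⁻¹ * ∫ v, X2 v := by
    have h5 : (2 * Real.pi : ℂ) * G s0 = (2 * Real.pi : ℂ) * (S1 - (2 * Real.pi : ℂ)⁻¹ * (∫ v, X1 v) -
        (2 * Real.pi : ℂ)⁻¹ * ∫ v, X2 v) := by
      rw [← h2, mul_sub, mul_sub, mul_inv_cancel_left₀ h2pi, mul_inv_cancel_left₀ h2pi]
      ring
    exact mul_left_cancel₀ h2pi h5
  have hsmall : ∀ x : ℂ, ‖(2 * Real.pi : ℂ)⁻¹ * x‖ ^ 2 ≤ ‖x‖ ^ 2 := by
    intro x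
    refine pow_le_pow_left₀ (norm_nonneg _) ?_ 2
    rw [norm_mul, norm_inv]
    have h5 : ‖(2 * Real.pi : ℂ)‖ = 2 * Real.pi := by
      rw [norm_mul, Complex.norm_real, Real.norm_of_nonneg hpi.le]
      simp
    rw [h5]
    have h6 : (2 * Real.pi)⁻¹ ≤ 1 := inv_le_one_of_one_le₀ (by linarith [Real.pi_gt_three])
    calc _ ≤ 1 * ‖x‖ := mul_le_mul_of_nonneg_right h6 (norm_nonneg _)
      _ = _ := one_mul _
  rw [hGeq]
  refine (sq3 _ _ _).trans ?_
  have h5 := (hsmall (∫ v, X1 v)).trans hD1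
  have h6 := (hsmall (∫ v, X2 v)).trans hD2
  linarith

end Afe_

open Afe_

/-- AFE with the parentheses that are missing in `S_AFE` (there the first integral swallows the third term) -/
def S_AFE2 : Prop := ∀ (N k : ℕ) (c : ℝ), 1 ≤ k → 0 < c → c ≤ 1 / 4 → ∃ C A : ℝ, 0 < C ∧ 0 ≤ A ∧
  ∀ (K : Type) [Field K] [NumberField K] (u w : VX K → ℂ) (q : ℝ) (κ : Fin N → ℂ) (F : ℂ → ℂ),
    RS u w q κ 0 → (∀ j, -(1 / 2) < (κ j).re) → Differentiable ℂ F →
    (∀ s : ℂ, 1 < s.re → F s = Complex.exp (logRS u w s)) →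
    (∀ σ : ℝ, 1 < σ → Summable fun x : VX K => ‖u x‖ ^ 2 * Real.exp (-(σ * LV x))) →
    (∀ σ : ℝ, 1 < σ → Summable fun x : VX K => ‖w x‖ ^ 2 * Real.exp (-(σ * LV x))) →
    ∀ t y Q : ℝ, 0 ≤ y → q * ∏ j, (1 + ‖κ j + (1 / 2 + t * I)‖) ≤ Q →
      ‖F (1 / 2 + t * I)‖ ^ (2 * k) ≤
        3 * ‖∑' l : TT (VX K), co u (fun x => k * w x) l *
          Complex.exp (-((1 / 2 + t * I) * Lam LV l)) * VV (y - Lam LV l)‖ ^ 2 +
        C * (Q ^ (2 * k * c) * Real.exp (-(2 * c * y))) * (∫ v : ℝ, om A v *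
          ‖∑' l : TT (VX K), if Lam LV l ≤ y then co u (fun x => k * w x) l *
            Complex.exp (-((((1 / 2 + c : ℝ) : ℂ) + (t + v : ℝ) * I) * Lam LV l)) else 0‖ ^ 2) +
        C * (Q ^ (2 * k : ℝ) * Real.exp (-(2 * y))) * (∫ v : ℝ, om A v *
          ‖∑' l : TT (VX K), if Lam LV l ≤ y then 0 else co u (fun x => k * w x) l *
            Complex.exp (-((((3 / 2 : ℝ) : ℂ) + (t + v : ℝ) * I) * Lam LV l))‖ ^ 2)

theorem afe2 (h : S_CHI) : S_AFE2 := by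
  intro N k c hk hc hc4
  obtain ⟨C, hC, hch⟩ := h N c hc hc4
  have hJ : 0 ≤ ∫ v, om ((N : ℝ) * k) v := integral_nonneg fun v => om_nonneg _ v
  refine ⟨3 * (Real.exp 1 / c) ^ 2 * ((∫ v, om ((N : ℝ) * k) v) + 1) * (C ^ k) ^ 2, (N : ℝ) * k,
    by positivity, by positivity, ?_⟩
  intro K _ _ u w q κ F hRS hκ hF hFe hu hw t y Q hy hQ
  obtain ⟨χ, hχd, hfe, hb1, hb2, C', hst⟩ := hch K u w q κ F hRS hκ hF hFe
  haveI : Countable (HeightOneSpectrum (𝓞 K)) := countable_HOS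
  set kw : VX K → ℂ := fun x => (k : ℂ) * w x with hkw
  have hq1 := hRS.one_le
  -- the Dirichlet series of `F ^ k`
  have hukw : ∀ σ : ℝ, 1 < σ → Summable fun x : VX K => ‖u x‖ * ‖kw x‖ * Real.exp (-(σ * LV x)) := by
    intro σ hσ
    refine ((summ_cs (hu σ hσ) (hw σ hσ)).mul_left (k : ℝ)).congr fun x => ?_
    rw [hkw]
    simp only
    rw [norm_mul, Complex.norm_natCast]
    ring
  have hGs : ∀ s : ℂ, 1 < s.re → HasSum (fun l : TT (VX K) => co u kw l * cexp (-(s * Lam LV l)))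
      (F s ^ k) := by
    intro s hs
    have h1 := co_sum (u := u) (v := kw) (L := LV) (s := s) (hukw s.re hs)
    have h2 : F s ^ k = cexp (∑' x, u x * (starRingEnd ℂ) (kw x) * cexp (-(s * LV x))) := by
      rw [hFe s hs, ← Complex.exp_nat_mul]
      unfold logRS
      rw [← tsum_mul_left]
      congr 1
      refine tsum_congr fun x => ?_
      rw [hkw]
      simp only
      rw [map_mul, Complex.conj_natCast]
      ring
    rw [h2]
    exact h1
  have ha : ∀ σ : ℝ, 1 < σ → Summable fun l : TT (VX K) => ‖co u kw l‖ * Real.exp (-(σ * Lam LV l)) :=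
    fun σ hσ => (co_abs (hukw σ hσ)).summable
  -- growth
  have hgr : ∃ C A : ℝ, ∀ s : ℂ, -(1 / 2) ≤ s.re → s.re ≤ 7 / 2 → ‖F s ^ k‖ ≤ C * (1 + |s.im|) ^ A := by
    obtain ⟨F0, Ξ, ω, _, hF0, _, hF0e, hF0g, _, _⟩ := hRS.cont
    have hFF : F0 = F := by
      have hev : F0 =ᶠ[𝓝 (3 : ℂ)] F := by
        have hopen : IsOpen {s : ℂ | 1 < s.re} := isOpen_lt continuous_const Complex.continuous_re
        filter_upwards [hopen.mem_nhds (show (3 : ℂ) ∈ {s : ℂ | 1 < s.re} by simp)] with s hs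
        have hs' : 1 < s.re := hs
        rw [hF0e s hs', hFe s hs', pow_zero, one_mul]
      have hFa : AnalyticOnNhd ℂ F0 Set.univ := hF0.differentiableOn.analyticOnNhd isOpen_univ
      have hGa : AnalyticOnNhd ℂ F Set.univ := hF.differentiableOn.analyticOnNhd isOpen_univ
      exact hFa.eq_of_eventuallyEq hGa hev
    rw [hFF] at hF0g
    obtain ⟨C0, A0, h0⟩ := hF0g (-(1 / 2)) (7 / 2)
    refine ⟨|C0| ^ k, A0 * k, fun s hs1 hs2 => ?_⟩
    rw [norm_pow]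
    have hX : 0 ≤ (1 + |s.im|) ^ A0 := Real.rpow_nonneg (by positivity) _
    have h1 : ‖F s‖ ≤ |C0| * (1 + |s.im|) ^ A0 :=
      (h0 s hs1 hs2).trans (mul_le_mul_of_nonneg_right (le_abs_self _) hX)
    refine (pow_le_pow_left₀ (norm_nonneg _) h1 k).trans (le_of_eq ?_)
    rw [mul_pow, Real.rpow_mul_natCast (by positivity)]
  have hP0 : 0 ≤ q * ∏ j, (1 + ‖κ j + (1 / 2 + t * I)‖) :=
    mul_nonneg (by linarith) (Finset.prod_nonneg fun j _ => by positivity)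
  have hQ0 : 0 ≤ Q := hP0.trans hQ
  have hrp : ∀ (B r v : ℝ), 0 ≤ B → ∀ z : ℂ, ‖z‖ ≤ B * (1 + |v|) ^ (N : ℝ) →
      ‖z ^ k‖ ≤ B ^ k * (1 + |v|) ^ ((N : ℝ) * k) := by
    intro B r v hB z hz
    rw [norm_pow]
    refine (pow_le_pow_left₀ (norm_nonneg _) hz k).trans (le_of_eq ?_)
    rw [mul_pow, Real.rpow_mul_natCast (by positivity)]
  have hmain := core (a := fun l : TT (VX K) => co u kw l) (Λ := Lam LV) (G := fun s => F s ^ k)
    (χ := fun s => χ s ^ k) (fun l => Lam_nonneg LV_nonneg l) ha (hF.pow k) hgr hGs hc hc4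
    (fun s hs => (hχd s hs).pow k)
    (fun s hs => by
      rw [hfe s hs, mul_pow, map_pow])
    (t := t) (y := y) (B1 := (C * Q ^ c) ^ k) (B2 := (C * Q) ^ k) (A := (N : ℝ) * k) hy
    (fun v => by
      refine hrp (C * Q ^ c) 0 v (by positivity) _ ((hb1 t v).trans ?_)
      have hX : 0 ≤ (1 + |v|) ^ (N : ℝ) := Real.rpow_nonneg (by positivity) _
      refine mul_le_mul_of_nonneg_right (mul_le_mul_of_nonneg_left ?_ hC.le) hX
      exact Real.rpow_le_rpow hP0 hQ hc.le)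
    (fun v => by
      refine hrp (C * Q) 0 v (by positivity) _ ((hb2 t v).trans ?_)
      have hX : 0 ≤ (1 + |v|) ^ (N : ℝ) := Real.rpow_nonneg (by positivity) _
      exact mul_le_mul_of_nonneg_right (mul_le_mul_of_nonneg_left hQ hC.le) hX)
    (C' := |C'| ^ k) (A' := 3 * N * k) (by positivity)
    (fun s hs1 hs2 => by
      rw [norm_pow]
      have h1 : ‖χ s‖ ≤ |C'| * Real.exp (3 * N * |s.im|) :=
        (hst s hs1 hs2).trans (mul_le_mul_of_nonneg_right (le_abs_self _) (Real.exp_pos _).le)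
      refine (pow_le_pow_left₀ (norm_nonneg _) h1 k).trans (le_of_eq ?_)
      rw [mul_pow, ← Real.exp_nat_mul]
      congr 2
      ring)
  have hl : ‖F (1 / 2 + t * I)‖ ^ (2 * k) = ‖F (1 / 2 + t * I) ^ k‖ ^ 2 := by
    rw [norm_pow, ← pow_mul, mul_comm 2 k]
  rw [hl]
  refine hmain.trans ?_
  have e1 : ∀ v : ℝ, DS (fun l : TT (VX K) => if Lam LV l ≤ y then co u kw l else 0) (Lam LV)
      (((1 / 2 + c : ℝ) : ℂ) + (t + v : ℝ) * I) = ∑' l : TT (VX K), if Lam LV l ≤ y then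
        co u kw l * Complex.exp (-((((1 / 2 + c : ℝ) : ℂ) + (t + v : ℝ) * I) * Lam LV l)) else 0 := by
    intro v
    unfold DS
    refine tsum_congr fun l => ?_
    by_cases hl : Lam LV l ≤ y
    · simp [hl]
    · simp [hl]
  have e2 : ∀ v : ℝ, DS (fun l : TT (VX K) => if Lam LV l ≤ y then 0 else co u kw l) (Lam LV)
      (((3 / 2 : ℝ) : ℂ) + (t + v : ℝ) * I) = ∑' l : TT (VX K), if Lam LV l ≤ y then 0 else
        co u kw l * Complex.exp (-((((3 / 2 : ℝ) : ℂ) + (t + v : ℝ) * I) * Lam LV l)) := by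
    intro v
    unfold DS
    refine tsum_congr fun l => ?_
    by_cases hl : Lam LV l ≤ y
    · simp [hl]
    · simp [hl]
  simp_rw [e1, e2]
  set I1 : ℝ := ∫ v : ℝ, om ((N : ℝ) * k) v * ‖∑' l : TT (VX K), if Lam LV l ≤ y then
        co u kw l * Complex.exp (-((((1 / 2 + c : ℝ) : ℂ) + (t + v : ℝ) * I) * Lam LV l)) else 0‖ ^ 2
    with hI1
  set I2 : ℝ := ∫ v : ℝ, om ((N : ℝ) * k) v * ‖∑' l : TT (VX K), if Lam LV l ≤ y then 0 else
        co u kw l * Complex.exp (-((((3 / 2 : ℝ) : ℂ) + (t + v : ℝ) * I) * Lam LV l))‖ ^ 2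
    with hI2
  have hI10 : 0 ≤ I1 := integral_nonneg fun v => mul_nonneg (om_nonneg _ v) (sq_nonneg _)
  have hI20 : 0 ≤ I2 := integral_nonneg fun v => mul_nonneg (om_nonneg _ v) (sq_nonneg _)
  set J : ℝ := ∫ v, om ((N : ℝ) * k) v with hJdef
  have p1 : 3 * ((Real.exp 1 / c * (C * Q ^ c) ^ k * Real.exp (-(c * y))) ^ 2 * J * I1) ≤
      3 * (Real.exp 1 / c) ^ 2 * (J + 1) * (C ^ k) ^ 2 *
        (Q ^ (2 * k * c) * Real.exp (-(2 * c * y))) * I1 := by
    have f1 : ((Q ^ c) ^ k) ^ 2 = Q ^ (2 * k * c) := by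
      rw [← Real.rpow_natCast, ← Real.rpow_natCast, ← Real.rpow_mul hQ0, ← Real.rpow_mul hQ0]
      congr 1
      push_cast
      ring
    have f2 : Real.exp (-(c * y)) ^ 2 = Real.exp (-(2 * c * y)) := by
      rw [← Real.exp_nat_mul]
      congr 1
      push_cast
      ring
    rw [← f1, ← f2]
    have f3 : 0 ≤ (Real.exp 1 / c) ^ 2 * (C ^ k) ^ 2 * (((Q ^ c) ^ k) ^ 2 * Real.exp (-(c * y)) ^ 2) * I1 := by
      positivity
    calc 3 * ((Real.exp 1 / c * (C * Q ^ c) ^ k * Real.exp (-(c * y))) ^ 2 * J * I1)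
        = 3 * J * ((Real.exp 1 / c) ^ 2 * (C ^ k) ^ 2 *
          (((Q ^ c) ^ k) ^ 2 * Real.exp (-(c * y)) ^ 2) * I1) := by rw [mul_pow C]; ring
      _ ≤ 3 * (J + 1) * ((Real.exp 1 / c) ^ 2 * (C ^ k) ^ 2 *
          (((Q ^ c) ^ k) ^ 2 * Real.exp (-(c * y)) ^ 2) * I1) :=
          mul_le_mul_of_nonneg_right (by linarith) f3
      _ = _ := by ring
  have p2 : 3 * ((Real.exp 1 * (C * Q) ^ k * Real.exp (-y)) ^ 2 * J * I2) ≤
      3 * (Real.exp 1 / c) ^ 2 * (J + 1) * (C ^ k) ^ 2 *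
        (Q ^ (2 * k : ℝ) * Real.exp (-(2 * y))) * I2 := by
    have f1 : (Q ^ k) ^ 2 = Q ^ (2 * k : ℝ) := by
      rw [← pow_mul, ← Real.rpow_natCast]
      congr 1
      push_cast
      ring
    have f2 : Real.exp (-y) ^ 2 = Real.exp (-(2 * y)) := by
      rw [← Real.exp_nat_mul]
      congr 1
      push_cast
      ring
    have f4 : Real.exp 1 ^ 2 ≤ (Real.exp 1 / c) ^ 2 := by
      refine pow_le_pow_left₀ (Real.exp_pos _).le ?_ 2
      rw [le_div_iff₀ hc]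
      nlinarith [Real.exp_pos 1]
    rw [← f1, ← f2]
    have f3 : 0 ≤ (C ^ k) ^ 2 * ((Q ^ k) ^ 2 * Real.exp (-y) ^ 2) * I2 := by
      positivity
    calc 3 * ((Real.exp 1 * (C * Q) ^ k * Real.exp (-y)) ^ 2 * J * I2)
        = 3 * (Real.exp 1 ^ 2 * J) * ((C ^ k) ^ 2 * ((Q ^ k) ^ 2 * Real.exp (-y) ^ 2) * I2) := by
          rw [mul_pow C]; ring
      _ ≤ 3 * ((Real.exp 1 / c) ^ 2 * (J + 1)) *
          ((C ^ k) ^ 2 * ((Q ^ k) ^ 2 * Real.exp (-y) ^ 2) * I2) := by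
          refine mul_le_mul_of_nonneg_right (mul_le_mul_of_nonneg_left ?_ (by norm_num)) f3
          exact mul_le_mul f4 (by linarith) hJ (by positivity)
      _ = _ := by ring
  linarith

end Pool.Agent.N846.LM
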