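import Pool.Agent.N846.LM.Stm

/-!
# LM/CHI: the functional equation in the form `F(s) = χ(s) conj (F(1 - conj s))`
-/

set_option autoImplicit false

namespace Pool.Agent.N846.LM

open Complex MeasureTheory Filter Topology NumberField IsDedekindDomain
open Pool.Agent.N846.DU (VX LV logRS RS)

namespace ChiAux

theorem norm_Gamma_le {z : ℂ} (hz : 0 < z.re) : ‖Complex.Gamma z‖ ≤ Real.Gamma z.re := by
  rw [Complex.Gamma_eq_integral hz, Real.Gamma_eq_integral hz, Complex.GammaIntegral]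
  refine (norm_integral_le_integral_norm _).trans (le_of_eq ?_)
  refine setIntegral_congr_fun measurableSet_Ioi fun x hx => ?_
  have hx0 : (0 : ℝ) < x := hx
  simp only [norm_mul, Complex.norm_real, Real.norm_eq_abs, abs_of_pos (Real.exp_pos (-x))]
  rw [Complex.norm_cpow_eq_rpow_re_of_pos hx0]
  simp

/-- `Γ_ℝ` is bounded in vertical strips in the right half-plane -/
theorem gr_bd (a b : ℝ) (ha : 0 < a) : ∃ C : ℝ, 0 ≤ C ∧ ∀ s : ℂ, a ≤ s.re → s.re ≤ b →
    ‖Gammaℝ s‖ ≤ C := by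
  have hc : ContinuousOn Real.Gamma (Set.Icc (a / 2) (b / 2)) := fun x hx => by
    have hx0 : 0 < x := by linarith [hx.1]
    refine (Real.differentiableAt_Gamma fun m h => ?_).continuousAt.continuousWithinAt
    have : (0 : ℝ) ≤ m := Nat.cast_nonneg _
    linarith
  obtain ⟨C, hC⟩ := isCompact_Icc.exists_bound_of_continuousOn hc
  refine ⟨|C|, abs_nonneg _, fun s h1 h2 => ?_⟩
  rw [Gammaℝ_def, norm_mul]
  have h3 : ‖(Real.pi : ℂ) ^ (-s / 2)‖ ≤ 1 := by
    rw [Complex.norm_cpow_eq_rpow_re_of_pos Real.pi_pos]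
    refine Real.rpow_le_one_of_one_le_of_nonpos (by linarith [Real.pi_gt_three]) ?_
    simp only [div_ofNat_re, neg_re]
    linarith
  have e : (s / 2).re = s.re / 2 := by simp
  have h4 : ‖Complex.Gamma (s / 2)‖ ≤ |C| := by
    refine (norm_Gamma_le (by rw [e]; linarith)).trans ?_
    have h5 := hC (s / 2).re ⟨by rw [e]; linarith, by rw [e]; linarith⟩
    exact (le_abs_self _).trans (h5.trans (le_abs_self C))
  calc _ ≤ 1 * |C| := mul_le_mul h3 h4 (norm_nonneg _) zero_le_one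
    _ = _ := one_mul _

theorem c2 : (starRingEnd ℂ) (2 : ℂ) = 2 := Complex.conj_ofNat 2

theorem gr_conj (s : ℂ) : Gammaℝ ((starRingEnd ℂ) s) = (starRingEnd ℂ) (Gammaℝ s) := by
  unfold Gammaℝ
  rw [map_mul, ← Complex.Gamma_conj]
  have h1 : (starRingEnd ℂ) s / 2 = (starRingEnd ℂ) (s / 2) := by
    rw [map_div₀, c2]
  have h2 : -(starRingEnd ℂ) s / 2 = (starRingEnd ℂ) (-s / 2) := by
    rw [map_div₀, map_neg, c2]
  rw [h1, h2, cpow_conj _ _ (by
    rw [Complex.arg_ofReal_of_nonneg Real.pi_pos.le]; exact Real.pi_pos.ne), conj_ofReal]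

theorem gr_diff {z : ℂ} (hz : 0 < z.re) : DifferentiableAt ℂ Gammaℝ z := by
  have h1 : DifferentiableAt ℂ (fun s => ((Gammaℝ s)⁻¹)⁻¹) z :=
    (differentiable_Gammaℝ_inv z).inv (inv_ne_zero (Gammaℝ_ne_zero_of_re_pos hz))
  simpa only [inv_inv] using h1

/-- the factor in the functional equation -/
noncomputable def chi {N : ℕ} (q : ℝ) (κ : Fin N → ℂ) (ω s : ℂ) : ℂ :=
  ω * (q : ℂ) ^ (1 / 2 - s) * ∏ j, (Gammaℝ (1 - s + (starRingEnd ℂ) (κ j)) * (Gammaℝ (s + κ j))⁻¹)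

variable {N : ℕ} {q : ℝ} {κ : Fin N → ℂ} {ω : ℂ}

/-- the bound on a vertical line -/
theorem chi_line {b C₀ : ℝ} (hb : 0 < b) (hC₀ : 0 < C₀) (h0 : ∀ z : ℂ, -b < z.re →
      ‖Complex.Gammaℝ (z + ((2 * b : ℝ) : ℂ)) * (Complex.Gammaℝ z)⁻¹‖ ≤ C₀ * (1 + ‖z‖) ^ b)
    (hq : 1 ≤ q) (hω : ‖ω‖ = 1) (hκ : ∀ j, -(1 / 2) < (κ j).re) (hb1 : b ≤ 1) (t v : ℝ) :
    ‖chi q κ ω (((1 / 2 - b : ℝ) : ℂ) + (t + v : ℝ) * I)‖ ≤
      (C₀ * (1 + b) ^ b) ^ N * (q * ∏ j, (1 + ‖κ j + (1 / 2 + t * I)‖)) ^ b *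
        (1 + |v|) ^ (N : ℝ) := by
  have hq0 : 0 < q := by linarith
  obtain ⟨s, hs⟩ : ∃ s : ℂ, s = ((1 / 2 - b : ℝ) : ℂ) + (t + v : ℝ) * I := ⟨_, rfl⟩
  rw [← hs]
  have hsre : s.re = 1 / 2 - b := by simp [hs]
  have hsim : s.im = t + v := by simp [hs]
  have hP : (0 : ℝ) ≤ ∏ j, (1 + ‖κ j + (1 / 2 + t * I)‖) :=
    Finset.prod_nonneg fun j _ => by positivity
  have h1 : ‖(q : ℂ) ^ (1 / 2 - s)‖ = q ^ b := by
    rw [Complex.norm_cpow_eq_rpow_re_of_pos hq0]
    congr 1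
    rw [sub_re, hsre]
    norm_num
  have h2 : ∀ j, ‖Gammaℝ (1 - s + (starRingEnd ℂ) (κ j)) * (Gammaℝ (s + κ j))⁻¹‖ ≤
      C₀ * (1 + b) ^ b * (1 + |v|) ^ b * (1 + ‖κ j + (1 / 2 + t * I)‖) ^ b := by
    intro j
    have h3 : 1 - s + (starRingEnd ℂ) (κ j) = (starRingEnd ℂ) (s + κ j + ((2 * b : ℝ) : ℂ)) := by
      rw [map_add, map_add, conj_ofReal, hs]
      simp only [map_add, map_mul, conj_ofReal, conj_I]
      push_cast
      ring
    rw [h3, gr_conj, norm_mul, RCLike.norm_conj, ← norm_mul]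
    refine (h0 (s + κ j) (by rw [add_re, hsre]; linarith [hκ j])).trans ?_
    have hx : 0 ≤ ‖κ j + (1 / 2 + t * I)‖ := norm_nonneg _
    have hv : 0 ≤ |v| := abs_nonneg v
    have h4 : ‖s + κ j‖ ≤ b + |v| + ‖κ j + (1 / 2 + t * I)‖ := by
      have e : s + κ j = ((-b : ℝ) : ℂ) + (v : ℂ) * I + (κ j + (1 / 2 + t * I)) := by
        rw [hs]
        push_cast
        ring
      rw [e]
      refine (norm_add_le _ _).trans (add_le_add_left ((norm_add_le _ _).trans ?_) _)
      rw [norm_mul, Complex.norm_I, mul_one, Complex.norm_real, Complex.norm_real,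
        Real.norm_eq_abs, Real.norm_eq_abs, abs_neg, abs_of_pos hb]
    have h5 : 1 + ‖s + κ j‖ ≤ (1 + b) * (1 + |v|) * (1 + ‖κ j + (1 / 2 + t * I)‖) := by
      nlinarith [mul_nonneg hb.le hv, mul_nonneg hb.le hx, mul_nonneg hv hx,
        mul_nonneg (mul_nonneg hb.le hv) hx]
    calc C₀ * (1 + ‖s + κ j‖) ^ b
        ≤ C₀ * ((1 + b) * (1 + |v|) * (1 + ‖κ j + (1 / 2 + t * I)‖)) ^ b := by
          refine mul_le_mul_of_nonneg_left ?_ hC₀.le
          exact Real.rpow_le_rpow (by positivity) h5 hb.le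
      _ = _ := by
          rw [Real.mul_rpow (by positivity) (by positivity),
            Real.mul_rpow (by positivity) (by positivity)]
          ring
  unfold chi
  rw [norm_mul, norm_mul, hω, one_mul, h1, norm_prod]
  calc q ^ b * ∏ j, ‖Gammaℝ (1 - s + (starRingEnd ℂ) (κ j)) * (Gammaℝ (s + κ j))⁻¹‖
      ≤ q ^ b * ∏ j, (C₀ * (1 + b) ^ b * (1 + |v|) ^ b * (1 + ‖κ j + (1 / 2 + t * I)‖) ^ b) := by
        refine mul_le_mul_of_nonneg_left ?_ (by positivity)
        exact Finset.prod_le_prod (fun j _ => norm_nonneg _) fun j _ => h2 j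
    _ = (C₀ * (1 + b) ^ b) ^ N * (q ^ b * (∏ j, (1 + ‖κ j + (1 / 2 + t * I)‖)) ^ b) *
        ((1 + |v|) ^ b) ^ N := by
        rw [Finset.prod_mul_distrib, Finset.prod_const, Finset.card_univ, Fintype.card_fin,
          Real.finsetProd_rpow _ _ fun j _ => by positivity, mul_pow]
        ring
    _ ≤ (C₀ * (1 + b) ^ b) ^ N * (q * ∏ j, (1 + ‖κ j + (1 / 2 + t * I)‖)) ^ b *
        (1 + |v|) ^ (N : ℝ) := by
        rw [← Real.mul_rpow hq0.le hP, Real.rpow_natCast]
        refine mul_le_mul_of_nonneg_left ?_ (by positivity)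
        refine pow_le_pow_left₀ (by positivity) ?_ N
        calc (1 + |v|) ^ b ≤ (1 + |v|) ^ (1 : ℝ) :=
              Real.rpow_le_rpow_of_exponent_le (by linarith [abs_nonneg v]) hb1
          _ = 1 + |v| := Real.rpow_one _

end ChiAux

open ChiAux

theorem chi (h1 : S_GAMS) (h2 : S_GI) : S_CHI := by
  intro N c hc hc4
  obtain ⟨C₀, hC₀, g0⟩ := h1 c hc
  obtain ⟨C₁, hC₁, g1⟩ := h1 1 one_pos
  refine ⟨(C₀ * (1 + c) ^ c) ^ N + (C₁ * (1 + 1) ^ (1 : ℝ)) ^ N, by positivity, ?_⟩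
  intro K _ _ u w q κ F hRS hκ hFd hFe
  obtain ⟨F₀, Ξ, ω, hω, hF₀, hΞ, hFe₀, hgr, hΞF, hfe⟩ := hRS.cont
  have hq1 := hRS.one_le
  have hq0 : (0 : ℝ) < q := lt_of_lt_of_le one_pos hq1
  have hqc : (q : ℂ) ≠ 0 := by exact_mod_cast hq0.ne'
  have hopen : IsOpen {s : ℂ | 1 < s.re} := isOpen_lt continuous_const Complex.continuous_re
  have h3 : {s : ℂ | 1 < s.re} ∈ 𝓝 (3 : ℂ) :=
    hopen.mem_nhds (show (3 : ℂ) ∈ {s : ℂ | 1 < s.re} by simp)
  -- the identity everywhere
  have key : ∀ s : ℂ, F s * (q : ℂ) ^ (s / 2) = Ξ s * ∏ j, (Gammaℝ (s + κ j))⁻¹ := by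
    have hGd : Differentiable ℂ (fun s : ℂ => Ξ s * ∏ j, (Gammaℝ (s + κ j))⁻¹) := by
      refine hΞ.mul ?_
      refine Differentiable.fun_finsetProd fun j _ => ?_
      exact differentiable_Gammaℝ_inv.comp (by fun_prop)
    have hHd : Differentiable ℂ (fun s : ℂ => F s * (q : ℂ) ^ (s / 2)) := by
      refine hFd.mul ?_
      intro s
      exact (DifferentiableAt.const_cpow (by fun_prop) (Or.inl hqc))
    have hev : (fun s : ℂ => F s * (q : ℂ) ^ (s / 2)) =ᶠ[𝓝 (3 : ℂ)]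
        (fun s : ℂ => Ξ s * ∏ j, (Gammaℝ (s + κ j))⁻¹) := by
      filter_upwards [h3] with s hs
      have hs' : 1 < s.re := hs
      rw [hΞF s hs', hFe₀ s hs', hFe s hs']
      have hp : ∏ j, Gammaℝ (s + κ j) ≠ 0 := by
        refine Finset.prod_ne_zero_iff.2 fun j _ => Gammaℝ_ne_zero_of_re_pos ?_
        have := hκ j
        rw [Complex.add_re]
        linarith
      have e : ∏ j, (Gammaℝ (s + κ j))⁻¹ = (∏ j, Gammaℝ (s + κ j))⁻¹ := by
        simp_rw [Finset.prod_inv_distrib]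
      rw [e, pow_zero, pow_zero, one_mul, one_mul, mul_assoc, mul_assoc, mul_inv_cancel₀ hp,
        mul_one]
    have hFa := hHd.differentiableOn.analyticOnNhd isOpen_univ
    have hGa := hGd.differentiableOn.analyticOnNhd isOpen_univ
    have := hFa.eq_of_eventuallyEq hGa hev
    intro s
    exact congrFun this s
  have hqn : ∀ z : ℂ, (q : ℂ) ^ z ≠ 0 := fun z => by
    rw [Complex.cpow_def_of_ne_zero hqc]
    exact Complex.exp_ne_zero _
  refine ⟨ChiAux.chi q κ ω, fun s hs => ?_, fun s hs => ?_, fun t v => ?_, fun t v => ?_, ?_⟩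
  · -- differentiability
    unfold ChiAux.chi
    refine (DifferentiableAt.mul (differentiableAt_const _)
      (DifferentiableAt.const_cpow (by fun_prop) (Or.inl hqc))).mul ?_
    refine DifferentiableAt.fun_finsetProd fun j _ => DifferentiableAt.mul ?_ ?_
    · refine DifferentiableAt.comp s (g := Gammaℝ) (gr_diff ?_) (by fun_prop)
      rw [add_re, sub_re, one_re, conj_re]
      linarith [hκ j]
    · exact (differentiable_Gammaℝ_inv _).comp s (by fun_prop)
  · -- the functional equation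
    obtain ⟨s', hs'⟩ : ∃ s' : ℂ, s' = 1 - (starRingEnd ℂ) s := ⟨_, rfl⟩
    rw [← hs']
    have hs're : 1 / 2 < s'.re := by
      rw [hs', sub_re, one_re, conj_re]
      linarith
    have hcs' : (starRingEnd ℂ) s' = 1 - s := by
      rw [hs', map_sub, map_one, Complex.conj_conj]
    have e1 : Ξ s = ω * (starRingEnd ℂ) (Ξ s') := by
      have h4 := hfe (1 - s)
      rw [sub_sub_cancel, map_sub, map_one, ← hs'] at h4
      exact h4
    have hp : ∏ j, Gammaℝ (s' + κ j) ≠ 0 := by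
      refine Finset.prod_ne_zero_iff.2 fun j _ => Gammaℝ_ne_zero_of_re_pos ?_
      have := hκ j
      rw [Complex.add_re]
      linarith
    have e2 : Ξ s' = F s' * (q : ℂ) ^ (s' / 2) * ∏ j, Gammaℝ (s' + κ j) := by
      rw [key s', Finset.prod_inv_distrib, mul_assoc, inv_mul_cancel₀ hp, mul_one]
    have e3 : (starRingEnd ℂ) ((q : ℂ) ^ (s' / 2)) = (q : ℂ) ^ ((1 - s) / 2) := by
      have e : (1 - s) / 2 = (starRingEnd ℂ) (s' / 2) := by rw [map_div₀, c2, hcs']
      rw [e, cpow_conj _ _ (by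
        rw [Complex.arg_ofReal_of_nonneg hq0.le]; exact Real.pi_pos.ne), conj_ofReal]
    have e4 : (starRingEnd ℂ) (∏ j, Gammaℝ (s' + κ j)) =
        ∏ j, Gammaℝ (1 - s + (starRingEnd ℂ) (κ j)) := by
      rw [map_prod]
      refine Finset.prod_congr rfl fun j _ => ?_
      rw [← gr_conj, map_add, hcs']
    have e5 := key s
    rw [e1, e2, map_mul, map_mul, e3, e4] at e5
    have e6 : (q : ℂ) ^ ((1 - s) / 2) = (q : ℂ) ^ (1 / 2 - s) * (q : ℂ) ^ (s / 2) := by
      rw [← cpow_add _ _ hqc]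
      congr 1
      ring
    rw [e6] at e5
    unfold ChiAux.chi
    refine mul_right_cancel₀ (hqn (s / 2)) (e5.trans ?_)
    rw [Finset.prod_mul_distrib]
    ring
  · -- the first line
    refine (chi_line hc hC₀ g0 hq1 hω hκ (by linarith) t v).trans ?_
    have h5 : (0 : ℝ) ≤ (q * ∏ j, (1 + ‖κ j + (1 / 2 + t * I)‖)) ^ c :=
      Real.rpow_nonneg (mul_nonneg hq0.le (Finset.prod_nonneg fun j _ => by positivity)) _
    refine mul_le_mul_of_nonneg_right (mul_le_mul_of_nonneg_right ?_ h5) (by positivity)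
    have : 0 ≤ (C₁ * (1 + 1) ^ (1 : ℝ)) ^ N := by positivity
    linarith
  · -- the second line
    have h6 := chi_line one_pos hC₁ g1 hq1 hω hκ le_rfl t v
    have h7 : (1 / 2 - 1 : ℝ) = -(1 / 2) := by norm_num
    rw [h7, Real.rpow_one, Real.rpow_one] at h6
    refine h6.trans ?_
    have h5 : (0 : ℝ) ≤ q * ∏ j, (1 + ‖κ j + (1 / 2 + t * I)‖) :=
      mul_nonneg hq0.le (Finset.prod_nonneg fun j _ => by positivity)
    refine mul_le_mul_of_nonneg_right (mul_le_mul_of_nonneg_right ?_ h5) (by positivity)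
    have : 0 ≤ (C₀ * (1 + c) ^ c) ^ N := by positivity
    rw [Real.rpow_one]
    linarith
  · -- growth
    choose D hD0 hD using fun j : Fin N => gr_bd (1 / 2 + c + (κ j).re) (3 / 2 + (κ j).re)
      (by linarith [hκ j])
    choose G hG0 hG using fun j : Fin N => h2 (-(1 / 2) + (κ j).re) (1 / 2 + (κ j).re)
    refine ⟨q * ∏ j, (D j * (G j * Real.exp (3 * |(κ j).im|))), fun s ha hb => ?_⟩
    unfold ChiAux.chi
    rw [norm_mul, norm_mul, hω, one_mul, norm_prod]
    have h5 : ‖(q : ℂ) ^ (1 / 2 - s)‖ ≤ q := by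
      rw [Complex.norm_cpow_eq_rpow_re_of_pos hq0]
      calc q ^ (1 / 2 - s).re ≤ q ^ (1 : ℝ) := by
            refine Real.rpow_le_rpow_of_exponent_le hq1 ?_
            rw [sub_re]
            norm_num
            linarith
        _ = q := Real.rpow_one q
    have h6 : ∀ j, ‖Gammaℝ (1 - s + (starRingEnd ℂ) (κ j)) * (Gammaℝ (s + κ j))⁻¹‖ ≤
        D j * (G j * Real.exp (3 * |(κ j).im|)) * Real.exp (3 * |s.im|) := by
      intro j
      rw [norm_mul]
      have h7 := hD j (1 - s + (starRingEnd ℂ) (κ j))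
        (by rw [add_re, sub_re, one_re, conj_re]; linarith)
        (by rw [add_re, sub_re, one_re, conj_re]; linarith)
      have h8 := hG j (s + κ j) (by rw [add_re]; linarith) (by rw [add_re]; linarith)
      have h9 : Real.exp (3 * |(s + κ j).im|) ≤ Real.exp (3 * |(κ j).im|) * Real.exp (3 * |s.im|) := by
        rw [← Real.exp_add, Real.exp_le_exp, add_im]
        have := abs_add_le s.im (κ j).im
        linarith
      calc _ ≤ D j * (G j * (Real.exp (3 * |(κ j).im|) * Real.exp (3 * |s.im|))) :=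
            mul_le_mul h7 (h8.trans (mul_le_mul_of_nonneg_left h9 (hG0 j).le)) (norm_nonneg _)
              (hD0 j)
        _ = _ := by ring
    calc _ ≤ q * ∏ j, (D j * (G j * Real.exp (3 * |(κ j).im|)) * Real.exp (3 * |s.im|)) := by
          refine mul_le_mul h5 (Finset.prod_le_prod (fun j _ => norm_nonneg _) fun j _ => h6 j)
            (Finset.prod_nonneg fun j _ => norm_nonneg _) hq0.le
      _ = _ := by
          rw [Finset.prod_mul_distrib, Finset.prod_const, Finset.card_univ, Fintype.card_fin,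
            ← Real.exp_nat_mul]
          rw [mul_assoc]
          congr 3
          ring

end Pool.Agent.N846.LM

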