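import Pool.Agent.N846.LM.Stm
import Pool.Agent.N846.DU.Gam

/-!
# Quotients of Gamma factors with small shifts (helper438)
-/

set_option autoImplicit false

namespace Pool.Agent.N846.LM

open Complex

theorem gams : S_GAMS := by
  intro c hc
  have hπ := Real.pi_pos
  obtain ⟨C, hC, h⟩ := Pool.Agent.N846.DU.gam (c + 1 / 2) (by linarith)
  refine ⟨C * (2 * Real.pi) * ((1 + 3 * c) / c), by positivity, fun z hz => ?_⟩
  obtain ⟨s, hs⟩ : ∃ s : ℂ, s = z + ((2 * c : ℝ) : ℂ) := ⟨_, rfl⟩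
  have hre : s.re = z.re + 2 * c := by rw [hs, add_re, ofReal_re]
  have hs0 : s ≠ 0 := by
    intro h0
    rw [h0, zero_re] at hre
    linarith
  have hsn : c < ‖s‖ := by
    have h1 := Complex.re_le_norm s
    linarith
  have hzn : ‖z‖ ≤ ‖s‖ + 2 * c := by
    have h1 : z = s - ((2 * c : ℝ) : ℂ) := by rw [hs]; ring
    calc ‖z‖ = ‖s - ((2 * c : ℝ) : ℂ)‖ := by rw [← h1]
      _ ≤ ‖s‖ + ‖((2 * c : ℝ) : ℂ)‖ := norm_sub_le _ _
      _ = _ := by rw [Complex.norm_real, Real.norm_of_nonneg (by linarith)]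
  have h2 := h z (by linarith)
  have e1 : z + ((1 + 2 * (c + 1 / 2) : ℝ) : ℂ) = s + 2 := by
    rw [hs]
    push_cast
    ring
  have e2 : (1 / 2 + (c + 1 / 2) : ℝ) = 1 + c := by ring
  rw [e1, e2, Complex.Gammaℝ_add_two hs0] at h2
  rw [← hs]
  have h3 : ‖Gammaℝ s * s / 2 / Real.pi * (Gammaℝ z)⁻¹‖ =
      ‖Gammaℝ s * (Gammaℝ z)⁻¹‖ * (‖s‖ / (2 * Real.pi)) := by
    rw [norm_mul, norm_div, norm_div, norm_mul, norm_mul, Complex.norm_real,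
      Real.norm_of_nonneg hπ.le]
    have : ‖(2 : ℂ)‖ = 2 := by simp
    rw [this]
    field_simp
  rw [h3] at h2
  have h4 : (1 + ‖z‖) ≤ ((1 + 3 * c) / c) * ‖s‖ := by
    rw [div_mul_eq_mul_div, le_div_iff₀ hc]
    nlinarith
  have hz1 : 0 < 1 + ‖z‖ := by positivity
  have h5 : (1 + ‖z‖) ^ (1 + c) = (1 + ‖z‖) * (1 + ‖z‖) ^ c := by
    rw [Real.rpow_add hz1, Real.rpow_one]
  have hs1 : 0 < ‖s‖ := by linarith
  have h6 : ‖Gammaℝ s * (Gammaℝ z)⁻¹‖ ≤ C * (1 + ‖z‖) ^ (1 + c) / (‖s‖ / (2 * Real.pi)) := by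
    rw [le_div_iff₀ (by positivity)]
    exact h2
  refine h6.trans ?_
  rw [div_le_iff₀ (by positivity), h5]
  have h7 : 0 ≤ (1 + ‖z‖) ^ c := by positivity
  calc C * ((1 + ‖z‖) * (1 + ‖z‖) ^ c) ≤ C * ((((1 + 3 * c) / c) * ‖s‖) * (1 + ‖z‖) ^ c) := by
        gcongr
    _ = _ := by
        field_simp

end Pool.Agent.N846.LM
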