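import Pool.Agent.N846.LM.Stm
import Pool.Agent.N846.DT.Gam

/-!
# Project LM, part GI (helper891): growth of the inverse of the Gamma factor in vertical strips
-/

set_option autoImplicit false

namespace Pool.Agent.N846.LM

open Complex

namespace GI

/-- lower bound for the Gamma factor away from the real axis -/
theorem gr_low (n : ℕ) (b : ℝ) : ∃ C : ℝ, 0 < C ∧ ∀ z : ℂ, -(2 * n : ℝ) < z.re → z.re ≤ b →
    2 ≤ |z.im| → ‖(Gammaℝ z)⁻¹‖ ≤ C * Real.exp (3 * |z.im|) := by
  obtain ⟨c, hc, hlow⟩ := Pool.Agent.N846.DT.GAM.low n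
  have hπ := Real.pi_pos
  set M : ℕ := n + 1 with hM
  have hMf : (0:ℝ) < (M.factorial : ℝ) := by exact_mod_cast M.factorial_pos
  refine ⟨Real.pi ^ (b / 2) * M.factorial / c, by positivity, fun z hz1 hz2 hz3 => ?_⟩
  set x : ℝ := z.re / 2 with hx
  set t : ℝ := |z.im| / 2 with ht
  have ht1 : 1 ≤ t := by rw [ht]; linarith
  have ht0 : 0 < t := by linarith
  have h1 := hlow x t (by rw [hx]; linarith) ht1
  -- the norm of the Gamma function
  have h2 : ‖Gamma (z / 2)‖ = ‖Gamma ((x : ℂ) + t * I)‖ := by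
    rcases le_or_gt 0 z.im with h | h
    · have e : z / 2 = (x : ℂ) + t * I := by
        apply Complex.ext
        · simp [hx]
        · simp [ht, abs_of_nonneg h]
      rw [e]
    · have e : z / 2 = (starRingEnd ℂ) ((x : ℂ) + t * I) := by
        apply Complex.ext
        · rw [Complex.conj_re]
          simp [hx]
        · rw [Complex.conj_im]
          simp [ht, abs_of_neg h]
          ring
      rw [e, Complex.Gamma_conj, RCLike.norm_conj]
  have h3 : ‖Gammaℝ z‖ = Real.pi ^ (-x) * ‖Gamma ((x : ℂ) + t * I)‖ := by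
    rw [Gammaℝ_def, norm_mul, h2]
    congr 1
    have e : (Real.pi : ℂ) ^ (-z / 2) = ((Real.pi : ℝ) : ℂ) ^ (-z / 2) := rfl
    rw [Complex.norm_cpow_eq_rpow_re_of_pos hπ]
    congr 1
    simp [hx]
    ring
  -- lower bound
  have h4 : Real.exp (-t) / M.factorial ≤ t ^ (x - 1 / 2) := by
    have e1 : t ^ (-(M:ℝ)) ≤ t ^ (x - 1 / 2) := by
      refine Real.rpow_le_rpow_of_exponent_le ht1 ?_
      rw [hM, hx]
      push_cast
      linarith
    refine le_trans ?_ e1
    rw [Real.rpow_neg ht0.le, Real.rpow_natCast, Real.exp_neg]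
    have e2 : t ^ M / M.factorial ≤ Real.exp t := Real.pow_div_factorial_le_exp t ht0.le M
    rw [div_le_iff₀ hMf] at e2
    rw [inv_div_left, mul_comm (M.factorial : ℝ)]
    exact inv_anti₀ (by positivity) e2
  have h5 : Real.pi ^ (-(b / 2)) ≤ Real.pi ^ (-x) := by
    refine Real.rpow_le_rpow_of_exponent_le (by linarith [Real.pi_gt_three]) ?_
    rw [hx]
    linarith
  have h6 : Real.pi ^ (-(b / 2)) * (c * (Real.exp (-t) / M.factorial) *
      Real.exp (-(Real.pi / 2 * t))) ≤ ‖Gammaℝ z‖ := by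
    rw [h3]
    have e1 : c * (Real.exp (-t) / M.factorial) * Real.exp (-(Real.pi / 2 * t)) ≤
        ‖Gamma ((x : ℂ) + t * I)‖ := by
      refine le_trans ?_ h1
      gcongr
    gcongr
  have h7 : Real.pi ^ (-(b / 2)) * (c * (Real.exp (-t) / M.factorial) *
      Real.exp (-(Real.pi / 2 * t))) =
      (Real.pi ^ (b / 2) * M.factorial / c * Real.exp ((1 + Real.pi / 2) * t))⁻¹ := by
    rw [Real.rpow_neg hπ.le, Real.exp_neg, Real.exp_neg, add_mul, Real.exp_add, one_mul]
    have hp : 0 < Real.pi ^ (b / 2) := by positivity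
    have := (Real.exp_pos t).ne'
    have := (Real.exp_pos (Real.pi / 2 * t)).ne'
    field_simp
  rw [h7] at h6
  rw [norm_inv]
  have h8 := inv_anti₀ (by positivity) h6
  rw [inv_inv] at h8
  refine h8.trans ?_
  have : Real.pi ≤ 4 := Real.pi_le_four
  have e : |z.im| = 2 * t := by rw [ht]; ring
  have h9 : (1 + Real.pi / 2) * t ≤ 3 * |z.im| := by
    rw [e]
    nlinarith
  exact mul_le_mul_of_nonneg_left (Real.exp_le_exp.mpr h9) (by positivity)

end GI

/-- GI -/
theorem gi : S_GI := by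
  intro a b
  obtain ⟨n, hn⟩ := exists_nat_gt |a|
  obtain ⟨C2, hC2, h2⟩ := GI.gr_low n b
  have hK : IsCompact (Set.Icc a b ×ℂ Set.Icc (-2 : ℝ) 2) := isCompact_Icc.reProdIm isCompact_Icc
  obtain ⟨C1, hC1⟩ := hK.exists_bound_of_continuousOn
    differentiable_Gammaℝ_inv.continuous.continuousOn
  refine ⟨|C1| + C2, by positivity, fun z hz1 hz2 => ?_⟩
  have he : 1 ≤ Real.exp (3 * |z.im|) := Real.one_le_exp (by positivity)
  rcases le_or_gt |z.im| 2 with h | h
  · have h1 := hC1 z ⟨⟨hz1, hz2⟩, abs_le.mp h⟩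
    calc ‖(Gammaℝ z)⁻¹‖ ≤ |C1| := h1.trans (le_abs_self _)
      _ ≤ |C1| + C2 := by linarith
      _ = (|C1| + C2) * 1 := (mul_one _).symm
      _ ≤ (|C1| + C2) * Real.exp (3 * |z.im|) := by gcongr
  · have h1 := h2 z (by
      have := neg_abs_le a
      have := abs_nonneg a
      linarith) hz2 h.le
    refine h1.trans ?_
    gcongr
    have := abs_nonneg C1
    linarith

end Pool.Agent.N846.LM
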