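import Pool.Agent.N846.LM.Stm

/-!
# The large sieve by duality
-/

set_option autoImplicit false

namespace Pool.Agent.N846.LM

open Complex

/-- LS (helper317) -/
theorem ls : S_LS := by
  intro T ι _ _ a b W M hM hW h1 h2 h3
  classical
  set B : ℝ := ∑' l, ‖b l‖ ^ 2 / W l with hB
  have hB0 : 0 ≤ B := tsum_nonneg fun l => div_nonneg (sq_nonneg _) (hW l).le
  set Sf : ι → ℂ := fun f => ∑' l, a f l * b l with hSf
  set X : ℝ := ∑ f, ‖Sf f‖ ^ 2 with hX
  have hX0 : 0 ≤ X := Finset.sum_nonneg fun f _ => sq_nonneg _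
  -- summability
  have hab : ∀ f, Summable fun l => a f l * b l := by
    intro f
    apply Summable.of_norm_bounded (g := fun l => (‖a f l‖ ^ 2 * W l + ‖b l‖ ^ 2 / W l) / 2)
      (((h1 f).add h2).div_const 2)
    intro l
    rw [norm_mul]
    have hw := hW l
    have e : ‖b l‖ ^ 2 / W l = (‖b l‖ / W l) ^ 2 * W l := by
      field_simp
    rw [e]
    have e2 : ‖a f l‖ * ‖b l‖ = ‖a f l‖ * (‖b l‖ / W l) * W l := by
      field_simp
    rw [e2]
    nlinarith [mul_nonneg (sq_nonneg (‖a f l‖ - ‖b l‖ / W l)) hw.le]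
  have haa : ∀ f g, Summable fun l => a f l * (starRingEnd ℂ) (a g l) * W l := by
    intro f g
    apply Summable.of_norm_bounded (g := fun l => (‖a f l‖ ^ 2 * W l + ‖a g l‖ ^ 2 * W l) / 2)
      (((h1 f).add (h1 g)).div_const 2)
    intro l
    have hw := hW l
    rw [norm_mul, norm_mul, RCLike.norm_conj, Complex.norm_real, Real.norm_of_nonneg hw.le]
    nlinarith [mul_nonneg (sq_nonneg (‖a f l‖ - ‖a g l‖)) hw.le]
  set G : ι → ι → ℂ := fun f g => ∑' l, a f l * (starRingEnd ℂ) (a g l) * W l with hG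
  have hGs : ∀ f g, ‖G f g‖ = ‖G g f‖ := by
    intro f g
    have : G f g = (starRingEnd ℂ) (G g f) := by
      simp only [hG]
      rw [Complex.conj_tsum]
      refine tsum_congr fun l => ?_
      simp only [map_mul, Complex.conj_conj, Complex.conj_ofReal]
      ring
    rw [this, RCLike.norm_conj]
  -- the combination
  set u : T → ℂ := fun l => ∑ f, (starRingEnd ℂ) (Sf f) * a f l with hu
  have hub : HasSum (fun l => u l * b l) ((X : ℝ) : ℂ) := by
    have h4 : HasSum (fun l => ∑ f, (starRingEnd ℂ) (Sf f) * (a f l * b l))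
        (∑ f, (starRingEnd ℂ) (Sf f) * Sf f) :=
      hasSum_sum fun f _ => ((hab f).hasSum).mul_left _
    have e1 : (∑ f, (starRingEnd ℂ) (Sf f) * Sf f) = ((X : ℝ) : ℂ) := by
      rw [hX]
      push_cast
      refine Finset.sum_congr rfl fun f _ => ?_
      rw [mul_comm, Complex.mul_conj, Complex.normSq_eq_norm_sq]
      push_cast
      rfl
    rw [e1] at h4
    refine h4.congr_fun ?_ |> fun h => h
    intro l
    simp only [hu]
    rw [Finset.sum_mul]
    exact Finset.sum_congr rfl fun f _ => by ring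
  have huu : HasSum (fun l => ((‖u l‖ ^ 2 * W l : ℝ) : ℂ))
      (∑ f, ∑ g, (starRingEnd ℂ) (Sf f) * Sf g * G f g) := by
    have h4 : HasSum (fun l => ∑ f, ∑ g, (starRingEnd ℂ) (Sf f) * Sf g *
        (a f l * (starRingEnd ℂ) (a g l) * W l))
        (∑ f, ∑ g, (starRingEnd ℂ) (Sf f) * Sf g * G f g) :=
      hasSum_sum fun f _ => hasSum_sum fun g _ => ((haa f g).hasSum).mul_left _
    refine h4.congr_fun ?_ |> fun h => h
    intro l
    have e1 : ((‖u l‖ ^ 2 : ℝ) : ℂ) = u l * (starRingEnd ℂ) (u l) := by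
      rw [Complex.mul_conj, Complex.normSq_eq_norm_sq]
    push_cast at e1 ⊢
    rw [e1]
    simp only [hu]
    rw [map_sum, Finset.sum_mul_sum, Finset.sum_mul]
    refine Finset.sum_congr rfl fun f _ => ?_
    rw [Finset.sum_mul]
    refine Finset.sum_congr rfl fun g _ => ?_
    simp only [map_mul, Complex.conj_conj]
    ring
  have huR : Summable fun l => ‖u l‖ ^ 2 * W l := by
    have := huu.summable
    exact Complex.summable_ofReal.1 this
  have hU : ∑' l, ‖u l‖ ^ 2 * W l ≤ M * X := by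
    have h4 : ((∑' l, ‖u l‖ ^ 2 * W l : ℝ) : ℂ) =
        ∑ f, ∑ g, (starRingEnd ℂ) (Sf f) * Sf g * G f g := by
      rw [Complex.ofReal_tsum]
      exact huu.tsum_eq
    have h5 : ∑' l, ‖u l‖ ^ 2 * W l ≤ ‖((∑' l, ‖u l‖ ^ 2 * W l : ℝ) : ℂ)‖ := by
      rw [Complex.norm_real]
      exact Real.le_norm_self _
    rw [h4] at h5
    refine h5.trans ?_
    calc ‖∑ f, ∑ g, (starRingEnd ℂ) (Sf f) * Sf g * G f g‖
        ≤ ∑ f, ∑ g, ‖(starRingEnd ℂ) (Sf f) * Sf g * G f g‖ :=
          (norm_sum_le _ _).trans (Finset.sum_le_sum fun f _ => norm_sum_le _ _)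
      _ ≤ ∑ f, ∑ g, (‖Sf f‖ ^ 2 * ‖G f g‖ / 2 + ‖Sf g‖ ^ 2 * ‖G g f‖ / 2) := by
          refine Finset.sum_le_sum fun f _ => Finset.sum_le_sum fun g _ => ?_
          rw [norm_mul, norm_mul, RCLike.norm_conj, hGs g f]
          nlinarith [mul_nonneg (sq_nonneg (‖Sf f‖ - ‖Sf g‖)) (norm_nonneg (G f g))]
      _ = ∑ f, ‖Sf f‖ ^ 2 * ∑ g, ‖G f g‖ := by
          have e1 : ∑ f, ∑ g, (‖Sf f‖ ^ 2 * ‖G f g‖ / 2 + ‖Sf g‖ ^ 2 * ‖G g f‖ / 2) =
              ∑ f, ∑ g, ‖Sf f‖ ^ 2 * ‖G f g‖ / 2 + ∑ f, ∑ g, ‖Sf g‖ ^ 2 * ‖G g f‖ / 2 := by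
            simp only [Finset.sum_add_distrib]
          rw [e1, Finset.sum_comm (f := fun f g => ‖Sf g‖ ^ 2 * ‖G g f‖ / 2), ← Finset.sum_add_distrib]
          refine Finset.sum_congr rfl fun f _ => ?_
          rw [← Finset.sum_add_distrib, Finset.mul_sum]
          exact Finset.sum_congr rfl fun g _ => by ring
      _ ≤ ∑ f, ‖Sf f‖ ^ 2 * M :=
          Finset.sum_le_sum fun f _ => mul_le_mul_of_nonneg_left (h3 f) (sq_nonneg _)
      _ = M * X := by rw [hX, ← Finset.sum_mul, mul_comm]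
  -- the inequality
  refine le_of_forall_pos_le_add fun ε hε => ?_
  have key : ∀ N : ℝ, M < N → X ≤ N * B := by
    intro N hN
    have hN0 : 0 < N := lt_of_le_of_lt hM hN
    have h4 : X ≤ ∑' l, (‖u l‖ ^ 2 * W l / N + N * (‖b l‖ ^ 2 / W l)) / 2 := by
      have hs : Summable fun l => (‖u l‖ ^ 2 * W l / N + N * (‖b l‖ ^ 2 / W l)) / 2 :=
        ((huR.div_const N).add (h2.mul_left N)).div_const 2
      have h5 : ‖((X : ℝ) : ℂ)‖ ≤ ∑' l, (‖u l‖ ^ 2 * W l / N + N * (‖b l‖ ^ 2 / W l)) / 2 := by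
        rw [← hub.tsum_eq]
        apply tsum_of_norm_bounded hs.hasSum
        intro l
        have hw := hW l
        rw [norm_mul]
        have e : N * (‖b l‖ ^ 2 / W l) = (N * ‖b l‖ / W l) ^ 2 * W l / N := by
          field_simp
        have e2 : ‖u l‖ * ‖b l‖ = ‖u l‖ * (N * ‖b l‖ / W l) * (W l / N) := by
          field_simp
        rw [e, e2]
        have hwN : 0 < W l / N := by positivity
        have e3 : ‖u l‖ ^ 2 * W l / N = ‖u l‖ ^ 2 * (W l / N) := by ring
        have e4 : (N * ‖b l‖ / W l) ^ 2 * W l / N = (N * ‖b l‖ / W l) ^ 2 * (W l / N) := by ring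
        rw [e3, e4]
        nlinarith [mul_nonneg (sq_nonneg (‖u l‖ - N * ‖b l‖ / W l)) hwN.le]
      rw [Complex.norm_real] at h5
      exact (Real.le_norm_self _).trans h5
    have h6 : ∑' l, (‖u l‖ ^ 2 * W l / N + N * (‖b l‖ ^ 2 / W l)) / 2 =
        ((∑' l, ‖u l‖ ^ 2 * W l) / N + N * B) / 2 := by
      rw [tsum_div_const, Summable.tsum_add (huR.div_const N) (h2.mul_left N), tsum_div_const,
        tsum_mul_left]
    rw [h6] at h4
    have h7 : (∑' l, ‖u l‖ ^ 2 * W l) / N ≤ X := by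
      rw [div_le_iff₀ hN0]
      refine hU.trans ?_
      nlinarith
    linarith
  have h8 := key (M + ε / (B + 1)) (by have : 0 < ε / (B + 1) := by positivity
                                       linarith)
  refine h8.trans ?_
  have h9 : ε / (B + 1) * B ≤ ε := by
    rw [div_mul_eq_mul_div, div_le_iff₀ (by positivity)]
    nlinarith
  linarith

end Pool.Agent.N846.LM
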