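import Pool.Agent.N846.LM.Stm

/-!
# The weight `WW`
-/

set_option autoImplicit false

namespace Pool.Agent.N846.LM

open Real

theorem EG_pos (x : ℝ) : 0 < EG x := by
  unfold EG
  positivity

theorem rho_pos (y x : ℝ) : 0 < rho y x := Real.exp_pos _

theorem rho_le_one (y x : ℝ) : rho y x ≤ 1 := by
  unfold rho
  rw [Real.exp_le_one_iff]
  have := le_max_right (x - y) 0
  linarith

theorem EG_le (b u : ℝ) : EG u ≤ Real.exp (b ^ 2) / (2 * √Real.pi) * Real.exp (b * u) := by
  unfold EG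
  have h : 0 < 2 * √Real.pi := by positivity
  rw [div_mul_eq_mul_div, div_le_div_iff_of_pos_right h, ← Real.exp_add]
  apply Real.exp_le_exp.2
  nlinarith [sq_nonneg (u / 2 + b)]

theorem exp_nat_summable : Summable fun m : ℕ => Real.exp (-(m : ℝ)) := by
  have h : (fun m : ℕ => Real.exp (-(m : ℝ))) = fun m : ℕ => (Real.exp (-1)) ^ m := by
    funext m
    rw [← Real.exp_nat_mul]
    congr 1
    ring
  rw [h]
  exact summable_geometric_of_lt_one (Real.exp_pos _).le (by rw [Real.exp_lt_one_iff]; norm_num)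

theorem ww_summable (y x : ℝ) : Summable fun m : ℕ => rho y m * EG (m - x) := by
  apply Summable.of_nonneg_of_le (fun m => (mul_pos (rho_pos _ _) (EG_pos _)).le) (fun m => ?_)
    (exp_nat_summable.mul_left (Real.exp ((-1) ^ 2) / (2 * √Real.pi) * Real.exp x))
  have h1 := EG_le (-1) (m - x)
  have e : Real.exp ((-1) * ((m : ℝ) - x)) = Real.exp x * Real.exp (-(m : ℝ)) := by
    rw [← Real.exp_add]
    congr 1
    ring
  rw [e, ← mul_assoc] at h1
  calc rho y m * EG (m - x) ≤ 1 * EG (m - x) :=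
        mul_le_mul_of_nonneg_right (rho_le_one _ _) (EG_pos _).le
    _ = EG (m - x) := one_mul _
    _ ≤ _ := h1

theorem ww_lower (y x : ℝ) (hx : 0 ≤ x) :
    Real.exp (-3 / 2) * (Real.exp (-1 / 4) / (2 * √Real.pi)) * rho y x ≤ WW y x := by
  set m : ℕ := ⌈x⌉₊ with hm
  have h1 : x ≤ m := Nat.le_ceil _
  have h2 : (m : ℝ) < x + 1 := Nat.ceil_lt_add_one hx
  have h3 : rho y m * EG (m - x) ≤ WW y x := by
    unfold WW
    exact (ww_summable y x).le_tsum m fun j _ => (mul_pos (rho_pos _ _) (EG_pos _)).le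
  refine le_trans ?_ h3
  have h4 : Real.exp (-1 / 4) / (2 * √Real.pi) ≤ EG (m - x) := by
    unfold EG
    apply div_le_div_of_nonneg_right _ (by positivity)
    apply Real.exp_le_exp.2
    nlinarith
  have h5 : Real.exp (-3 / 2) * rho y x ≤ rho y m := by
    unfold rho
    rw [← Real.exp_add]
    apply Real.exp_le_exp.2
    have h6 : max ((m : ℝ) - y) 0 ≤ max (x - y) 0 + 1 := by
      apply max_le
      · have := le_max_left (x - y) 0
        linarith
      · have := le_max_right (x - y) 0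
        linarith
    linarith
  calc Real.exp (-3 / 2) * (Real.exp (-1 / 4) / (2 * √Real.pi)) * rho y x =
        (Real.exp (-3 / 2) * rho y x) * (Real.exp (-1 / 4) / (2 * √Real.pi)) := by ring
    _ ≤ rho y m * EG (m - x) := mul_le_mul h5 h4 (by positivity) (rho_pos _ _).le

/-- the two-sided sum -/
noncomputable def gz (n : ℤ) : ℝ := Real.exp (-(|(n : ℝ)| / 4))

theorem gz_summable : Summable gz := by
  have h : Summable fun m : ℕ => Real.exp (-((m : ℝ) / 4)) := by
    have h : (fun m : ℕ => Real.exp (-((m : ℝ) / 4))) = fun m : ℕ => (Real.exp (-1 / 4)) ^ m := by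
      funext m
      rw [← Real.exp_nat_mul]
      congr 1
      ring
    rw [h]
    exact summable_geometric_of_lt_one (Real.exp_pos _).le
      (by rw [Real.exp_lt_one_iff]; norm_num)
  apply Summable.of_nat_of_neg
  · refine h.congr fun m => ?_
    unfold gz
    push_cast
    rw [abs_of_nonneg (Nat.cast_nonneg m)]
  · refine h.congr fun m => ?_
    unfold gz
    push_cast
    rw [abs_neg, abs_of_nonneg (Nat.cast_nonneg m)]

theorem gz_bound {y : ℝ} (hy : 0 ≤ y) :
    (Summable fun m : ℕ => Real.exp (-(|(m : ℝ) - y| / 4))) ∧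
    ∑' m : ℕ, Real.exp (-(|(m : ℝ) - y| / 4)) ≤ Real.exp (1 / 4) * ∑' n : ℤ, gz n := by
  set j : ℕ := ⌊y⌋₊ with hj
  have h1 : (j : ℝ) ≤ y := Nat.floor_le hy
  have h2 : y < j + 1 := Nat.lt_floor_add_one y
  have hinj : Function.Injective (fun m : ℕ => (m : ℤ) - j) := by
    intro m n hmn
    simpa using hmn
  have hs : Summable fun m : ℕ => gz ((m : ℤ) - j) := gz_summable.comp_injective hinj
  have hle : ∀ m : ℕ, Real.exp (-(|(m : ℝ) - y| / 4)) ≤ Real.exp (1 / 4) * gz ((m : ℤ) - j) := by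
    intro m
    unfold gz
    rw [← Real.exp_add]
    apply Real.exp_le_exp.2
    push_cast
    have h3 : |(m : ℝ) - j| ≤ |(m : ℝ) - y| + |y - j| := by
      have e : (m : ℝ) - j = (m - y) + (y - j) := by ring
      rw [e]
      exact abs_add_le _ _
    have h4 : |y - j| ≤ 1 := by
      rw [abs_le]
      constructor <;> linarith
    linarith
  have hs2 : Summable fun m : ℕ => Real.exp (-(|(m : ℝ) - y| / 4)) :=
    Summable.of_nonneg_of_le (fun m => (Real.exp_pos _).le) hle (hs.mul_left _)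
  refine ⟨hs2, ?_⟩
  calc ∑' m : ℕ, Real.exp (-(|(m : ℝ) - y| / 4)) ≤
        ∑' m : ℕ, Real.exp (1 / 4) * gz ((m : ℤ) - j) := hs2.tsum_le_tsum hle (hs.mul_left _)
    _ = Real.exp (1 / 4) * ∑' m : ℕ, gz ((m : ℤ) - j) := tsum_mul_left
    _ ≤ _ := by
      apply mul_le_mul_of_nonneg_left _ (Real.exp_pos _).le
      exact hs.tsum_le_tsum_of_inj (fun m : ℕ => (m : ℤ) - j) hinj
        (fun n _ => (Real.exp_pos _).le) (fun m => le_rfl) gz_summable

theorem ww_upper {η : ℝ} (hη : 0 < η) (hη' : η ≤ 1 / 4) (y x : ℝ) (hy : 0 ≤ y) :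
    WW y x ≤ (Real.exp ((1 + η) ^ 2) / (2 * √Real.pi) * (Real.exp (1 / 4) * ∑' n : ℤ, gz n)) *
      Real.exp ((1 + η) * (y - x)) := by
  obtain ⟨hs, hb⟩ := gz_bound hy
  have hle : ∀ m : ℕ, rho y m * EG (m - x) ≤
      (Real.exp ((1 + η) ^ 2) / (2 * √Real.pi) * Real.exp ((1 + η) * (y - x))) *
        Real.exp (-(|(m : ℝ) - y| / 4)) := by
    intro m
    have h1 := EG_le (1 + η) (m - x)
    have h2 : rho y m * Real.exp ((1 + η) * ((m : ℝ) - x)) ≤
        Real.exp ((1 + η) * (y - x)) * Real.exp (-(|(m : ℝ) - y| / 4)) := by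
      unfold rho
      rw [← Real.exp_add, ← Real.exp_add]
      apply Real.exp_le_exp.2
      rcases le_total (m : ℝ) y with h | h
      · rw [max_eq_right (by linarith), abs_of_nonpos (by linarith)]
        nlinarith
      · rw [max_eq_left (by linarith), abs_of_nonneg (by linarith)]
        nlinarith
    have h3 : 0 < Real.exp ((1 + η) ^ 2) / (2 * √Real.pi) := by positivity
    calc rho y m * EG (m - x) ≤ rho y m *
          (Real.exp ((1 + η) ^ 2) / (2 * √Real.pi) * Real.exp ((1 + η) * ((m : ℝ) - x))) :=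
          mul_le_mul_of_nonneg_left h1 (rho_pos _ _).le
      _ = Real.exp ((1 + η) ^ 2) / (2 * √Real.pi) *
          (rho y m * Real.exp ((1 + η) * ((m : ℝ) - x))) := by ring
      _ ≤ Real.exp ((1 + η) ^ 2) / (2 * √Real.pi) *
          (Real.exp ((1 + η) * (y - x)) * Real.exp (-(|(m : ℝ) - y| / 4))) :=
          mul_le_mul_of_nonneg_left h2 h3.le
      _ = _ := by ring
  unfold WW
  refine ((ww_summable y x).tsum_le_tsum hle (hs.mul_left _)).trans ?_
  rw [tsum_mul_left]
  calc Real.exp ((1 + η) ^ 2) / (2 * √Real.pi) * Real.exp ((1 + η) * (y - x)) *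
        ∑' m : ℕ, Real.exp (-(|(m : ℝ) - y| / 4)) ≤
        Real.exp ((1 + η) ^ 2) / (2 * √Real.pi) * Real.exp ((1 + η) * (y - x)) *
        (Real.exp (1 / 4) * ∑' n : ℤ, gz n) :=
        mul_le_mul_of_nonneg_left hb (by positivity)
    _ = _ := by ring

/-- WW (helper317) -/
theorem ww : S_WW := by
  refine ⟨ww_summable, ⟨_, ?_, ww_lower⟩, fun η hη hη' => ⟨_, ?_, fun y x hy =>
    ww_upper hη hη' y x hy⟩⟩
  · positivity
  · have h : 0 < ∑' n : ℤ, gz n := gz_summable.tsum_pos (fun n => (Real.exp_pos _).le) 0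
      (Real.exp_pos _)
    positivity

end Pool.Agent.N846.LM
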