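import Pool.Agent.N846.LM.Stm

/-!
# The off-diagonal elements of the Gram matrix (helper438)
-/

set_option autoImplicit false

namespace Pool.Agent.N846.LM

open Filter Topology Complex MeasureTheory Set
open Pool.Agent.TH942.SL (V shift)
open Pool.Agent.TH949.LT (TT Lam norm_exp_sq exp_aux)
open Pool.Agent.N846.DT (PairF co Uc co_sum co_abs rpow_exp JK JK_int JK_nonneg summ_cs summ_mono'
  term_norm')

namespace GRAMP

theorem EG_pos (x : ℝ) : 0 < EG x := by
  have := Real.pi_pos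
  unfold EG
  positivity

theorem rho_pos (y x : ℝ) : 0 < rho y x := Real.exp_pos _

theorem rho_le (y x : ℝ) : rho y x ≤ 1 := by
  unfold rho
  rw [Real.exp_le_one_iff]
  have := le_max_right (x - y) 0
  linarith

/-- the Gaussian as an integral over a line -/
theorem EG_int (c x : ℝ) : ∫ v : ℝ, cexp (((c : ℂ) + v * I) ^ 2 + (c + v * I) * x) =
    2 * Real.pi * EG x := by
  have h1 := integral_cexp_quadratic (b := -1) (by simp) (I * (2 * c + x)) ((c : ℂ) ^ 2 + c * x)
  have h2 : (fun v : ℝ => cexp (((c : ℂ) + v * I) ^ 2 + (c + v * I) * x)) =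
      fun v : ℝ => cexp (-1 * (v : ℂ) ^ 2 + I * (2 * c + x) * v + ((c : ℂ) ^ 2 + c * x)) := by
    funext v
    congr 1
    linear_combination ((v : ℂ) ^ 2) * Complex.I_sq
  rw [h2, h1]
  have h3 : ((c : ℂ) ^ 2 + c * x) - (I * (2 * c + x)) ^ 2 / (4 * -1) = ((-x ^ 2 / 4 : ℝ) : ℂ) := by
    push_cast
    linear_combination ((2 * (c : ℂ) + x) ^ 2 / 4) * Complex.I_sq
  rw [h3, ← Complex.ofReal_exp]
  have h4 : ((Real.pi : ℂ) / - -1) ^ (1 / 2 : ℂ) = ((√Real.pi : ℝ) : ℂ) := by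
    rw [neg_neg, div_one, Real.sqrt_eq_rpow, Complex.ofReal_cpow Real.pi_pos.le]
    norm_num
  rw [h4]
  unfold EG
  have h5 : √Real.pi * √Real.pi = Real.pi := Real.mul_self_sqrt Real.pi_pos.le
  have h6 : √Real.pi ≠ 0 := (Real.sqrt_pos.2 Real.pi_pos).ne'
  have h7 : √Real.pi * Real.exp (-x ^ 2 / 4) =
      2 * Real.pi * (Real.exp (-x ^ 2 / 4) / (2 * √Real.pi)) := by
    rw [mul_div_assoc', eq_div_iff (by positivity)]
    linear_combination (2 * Real.exp (-x ^ 2 / 4)) * h5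
  exact_mod_cast h7

/-- the Gaussian factor -/
noncomputable def EX (b v : ℝ) : ℂ := cexp (((b : ℂ) + v * I) ^ 2)

theorem EX_norm (b v : ℝ) : ‖EX b v‖ = Real.exp (b ^ 2) * Real.exp (-v ^ 2) := by
  unfold EX
  rw [norm_exp_sq, ← Real.exp_add]
  congr 1
  simp
  ring

theorem EX_cont (b : ℝ) : Continuous (EX b) := by
  unfold EX
  fun_prop

theorem EX_int (b : ℝ) : Integrable (EX b) := by
  have h1 : Integrable fun v : ℝ => Real.exp (b ^ 2) * Real.exp (-1 * v ^ 2) :=
    (integrable_exp_neg_mul_sq one_pos).const_mul _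
  refine h1.mono' (EX_cont b).aestronglyMeasurable (Eventually.of_forall fun v => ?_)
  rw [EX_norm]
  refine le_of_eq ?_
  congr 2
  ring

theorem expandG {ι : Type*} [Countable ι] {c : ι → ℂ} {Λ : ι → ℝ} {F : ℂ → ℂ} {s0 : ℂ} {b : ℝ}
    (hs : Summable fun l => ‖c l‖ * Real.exp (-((s0.re + b) * Λ l)))
    (hF : ∀ s : ℂ, s.re = s0.re + b → HasSum (fun l => c l * cexp (-(s * Λ l))) (F s)) (y : ℝ) :
    HasSum (fun l => 2 * Real.pi * (c l * cexp (-(s0 * Λ l)) * EG (y - Λ l)))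
      (∫ v : ℝ, F (s0 + (b + v * I)) * cexp ((b + v * I) * y) * EX b v) := by
  set G : ι → ℝ → ℂ := fun l v => (c l * cexp (-((s0 + (b + v * I)) * Λ l))) *
    cexp ((b + v * I) * y) * EX b v with hG
  have hre : ∀ v : ℝ, (s0 + (b + v * I)).re = s0.re + b := by
    intro v
    simp
  have hGn : ∀ l v, ‖G l v‖ = ‖c l‖ * Real.exp (-((s0.re + b) * Λ l)) *
      (Real.exp (b * y) * ‖EX b v‖) := by
    intro l v
    rw [hG]
    simp only
    rw [norm_mul, norm_mul, term_norm', hre, Complex.norm_exp]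
    have : (((b : ℂ) + v * I) * y).re = b * y := by simp
    rw [this]
    ring
  have hGi : ∀ l, Integrable (G l) := by
    intro l
    have h1 : Integrable fun v : ℝ =>
        ‖c l‖ * Real.exp (-((s0.re + b) * Λ l)) * (Real.exp (b * y) * ‖EX b v‖) :=
      ((EX_int b).norm.const_mul _).const_mul _
    refine h1.mono' ?_ (Eventually.of_forall fun v => (hGn l v).le)
    refine Continuous.aestronglyMeasurable ?_
    rw [hG]
    exact (Continuous.mul (by fun_prop) (by fun_prop)).mul (EX_cont b)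
  have h2 : Summable fun l => ∫ v : ℝ, ‖G l v‖ := by
    have : ∀ l, ∫ v : ℝ, ‖G l v‖ =
        ‖c l‖ * Real.exp (-((s0.re + b) * Λ l)) * ∫ v : ℝ, Real.exp (b * y) * ‖EX b v‖ := by
      intro l
      rw [← integral_const_mul]
      congr 1
      ext v
      exact hGn l v
    simp_rw [this]
    exact hs.mul_right _
  have h3 := hasSum_integral_of_summable_integral_norm hGi h2
  have h4 : ∀ v : ℝ, ∑' l, G l v = F (s0 + (b + v * I)) * cexp ((b + v * I) * y) * EX b v := by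
    intro v
    have h5 := ((hF (s0 + (b + v * I)) (hre v)).mul_right (cexp ((b + v * I) * y))).mul_right
      (EX b v)
    exact h5.tsum_eq
  simp_rw [h4] at h3
  refine h3.congr_fun fun l => ?_
  have h6 := EG_int b (y - Λ l)
  have h7 : ∀ v : ℝ, G l v = c l * cexp (-(s0 * Λ l)) *
      cexp (((b : ℂ) + v * I) ^ 2 + (b + v * I) * (y - Λ l : ℝ)) := by
    intro v
    rw [hG]
    simp only [EX]
    rw [mul_assoc, mul_assoc, mul_assoc, ← Complex.exp_add, ← Complex.exp_add, ← Complex.exp_add]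
    congr 2
    push_cast
    ring
  simp_rw [h7]
  rw [integral_const_mul, h6]
  ring

/-- the bound for one Gaussian -/
theorem one_term {X : Type} [Countable X] {u v : X → ℂ} {L : X → ℝ} {F : ℂ → ℂ}
    (hF : PairF u v L F) {d : ℝ}
    (hs3 : Summable fun x => ‖u x‖ * ‖v x‖ * Real.exp (-((3 : ℝ) * L x)))
    {σ₀ B K : ℝ} (hσ : 0 < σ₀)
    (hB : ∀ v' : ℝ, ‖F (((-σ₀ : ℝ) : ℂ) + (d + v' : ℝ) * I)‖ ≤ B * (1 + |v'|) ^ K) (y : ℝ) :
    ∃ T : ℂ, HasSum (fun l : TT X => co u v l * cexp (-(d * I * Lam L l)) * EG (y - Lam L l)) T ∧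
      ‖T‖ ≤ Real.exp (σ₀ ^ 2) * JK K * B * Real.exp (-(σ₀ * y)) := by
  have hre0 : ((d : ℂ) * I).re = 0 := by simp
  have him0 : ((d : ℂ) * I).im = d := by simp
  have h1 := expandG (c := fun l : TT X => co u v l) (Λ := Lam L) (F := F) (s0 := d * I) (b := 3)
    (by rw [hre0, zero_add]; exact (co_abs hs3).summable) (fun s hs' => by
      rw [hre0, zero_add] at hs'
      rw [hF.eq s (by rw [hs'])]
      exact co_sum (by rw [hs']; exact hs3)) y
  set H : ℂ → ℂ := fun w => F (d * I + w) * cexp (w * y) * cexp (w ^ 2) with hH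
  obtain ⟨C1, A1, hCA⟩ := hF.growth (-σ₀) 3
  obtain ⟨C2, hC20, hC2⟩ := rpow_exp (|A1|)
  have hHb : ∀ w : ℂ, -σ₀ ≤ w.re → w.re ≤ 3 →
      ‖H w‖ ≤ (|C1| * ((1 + |d|) ^ (|A1|) * C2) * Real.exp ((|-σ₀| + 3) * |y|) *
        Real.exp (σ₀ ^ 2 + 3 ^ 2) * Real.exp 3) * (1 + |w.im|) ^ (-2 : ℝ) := by
    intro w hw1 hw2
    rw [hH]
    simp only
    rw [norm_mul, norm_mul, norm_exp_sq]
    have h2 := hCA (d * I + w) (by rw [add_re, hre0, zero_add]; exact hw1)
      (by rw [add_re, hre0, zero_add]; exact hw2)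
    have h3 : ‖cexp (w * y)‖ ≤ Real.exp ((|-σ₀| + 3) * |y|) := by
      rw [Complex.norm_exp]
      refine Real.exp_le_exp.2 ?_
      simp only [Complex.mul_re, Complex.ofReal_re, Complex.ofReal_im, mul_zero, sub_zero]
      calc w.re * y ≤ |w.re * y| := le_abs_self _
        _ = |w.re| * |y| := abs_mul _ _
        _ ≤ (|-σ₀| + 3) * |y| := by
            refine mul_le_mul_of_nonneg_right ?_ (abs_nonneg y)
            rw [abs_le]
            constructor
            · linarith [neg_abs_le (-σ₀)]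
            · linarith [abs_nonneg (-σ₀)]
    have h4 : (1 + |(d * I + w).im|) ^ A1 ≤ (1 + |d|) ^ (|A1|) * C2 * Real.exp |w.im| := by
      have e1 : 1 + |(d * I + w).im| ≤ (1 + |d|) * (1 + |w.im|) := by
        rw [Complex.add_im, him0]
        have := abs_add_le d w.im
        nlinarith [abs_nonneg d, abs_nonneg w.im]
      have e2 : (1 + |(d * I + w).im|) ^ A1 ≤ (1 + |(d * I + w).im|) ^ (|A1|) :=
        Real.rpow_le_rpow_of_exponent_le (by linarith [abs_nonneg (d * I + w).im]) (le_abs_self _)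
      have e3 : (1 + |(d * I + w).im|) ^ (|A1|) ≤ ((1 + |d|) * (1 + |w.im|)) ^ (|A1|) :=
        Real.rpow_le_rpow (by positivity) e1 (abs_nonneg _)
      rw [Real.mul_rpow (by positivity) (by positivity)] at e3
      refine (e2.trans e3).trans ?_
      rw [mul_assoc]
      exact mul_le_mul_of_nonneg_left (hC2 _ (abs_nonneg _)) (by positivity)
    have h5 : ‖F (d * I + w)‖ ≤ |C1| * ((1 + |d|) ^ (|A1|) * C2 * Real.exp |w.im|) := by
      refine h2.trans ?_
      have hX : 0 ≤ (1 + |(d * I + w).im|) ^ A1 := Real.rpow_nonneg (by positivity) _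
      calc _ ≤ |C1| * (1 + |(d * I + w).im|) ^ A1 :=
            mul_le_mul_of_nonneg_right (le_abs_self _) hX
        _ ≤ _ := mul_le_mul_of_nonneg_left h4 (abs_nonneg _)
    have h6 : Real.exp (w.re ^ 2 - w.im ^ 2) ≤
        Real.exp (σ₀ ^ 2 + 3 ^ 2) * Real.exp (- w.im ^ 2) := by
      rw [← Real.exp_add]
      refine Real.exp_le_exp.2 ?_
      have : w.re ^ 2 ≤ σ₀ ^ 2 + 3 ^ 2 := by
        rcases le_total 0 w.re with h0 | h0 <;> nlinarith
      linarith
    calc ‖F (d * I + w)‖ * ‖cexp (w * y)‖ * Real.exp (w.re ^ 2 - w.im ^ 2) ≤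
          (|C1| * ((1 + |d|) ^ (|A1|) * C2 * Real.exp |w.im|)) * Real.exp ((|-σ₀| + 3) * |y|) *
            (Real.exp (σ₀ ^ 2 + 3 ^ 2) * Real.exp (- w.im ^ 2)) :=
          mul_le_mul (mul_le_mul h5 h3 (norm_nonneg _) (by positivity)) h6 (Real.exp_pos _).le
            (by positivity)
      _ = |C1| * ((1 + |d|) ^ (|A1|) * C2) * Real.exp ((|-σ₀| + 3) * |y|) *
            Real.exp (σ₀ ^ 2 + 3 ^ 2) * Real.exp (|w.im| - w.im ^ 2) := by
          rw [sub_eq_add_neg |w.im|, Real.exp_add |w.im|]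
          ring
      _ ≤ |C1| * ((1 + |d|) ^ (|A1|) * C2) * Real.exp ((|-σ₀| + 3) * |y|) *
            Real.exp (σ₀ ^ 2 + 3 ^ 2) * (Real.exp 3 * (1 + |w.im|) ^ (-2 : ℝ)) :=
          mul_le_mul_of_nonneg_left (exp_aux _) (by positivity)
      _ = _ := by ring
  have hHd : Differentiable ℂ H :=
    ((hF.diff.comp (by fun_prop)).mul (by fun_prop)).mul (by fun_prop)
  have h2 := shift (H := H) (a := -σ₀) (b := 3) (p := 2) (by norm_num) (by linarith)
    (fun s _ _ => hHd s) hHb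
  -- the integral on the left
  have hIb : ‖∫ t : ℝ, H (((-σ₀ : ℝ) : ℂ) + t * I)‖ ≤
      Real.exp (σ₀ ^ 2) * JK K * B * Real.exp (-(σ₀ * y)) := by
    have h3 : ∀ t : ℝ, ‖H (((-σ₀ : ℝ) : ℂ) + t * I)‖ ≤
        Real.exp (σ₀ ^ 2) * B * Real.exp (-(σ₀ * y)) * ((1 + |t|) ^ K * Real.exp (-t ^ 2)) := by
      intro t
      have e1 : (d : ℂ) * I + (((-σ₀ : ℝ) : ℂ) + t * I) =
          ((-σ₀ : ℝ) : ℂ) + (d + t : ℝ) * I := by
        push_cast
        ring
      have e2 : ‖cexp ((((-σ₀ : ℝ) : ℂ) + t * I) * y)‖ = Real.exp (-(σ₀ * y)) := by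
        rw [Complex.norm_exp]
        congr 1
        simp
      have e3 : ‖cexp ((((-σ₀ : ℝ) : ℂ) + t * I) ^ 2)‖ = Real.exp (σ₀ ^ 2) * Real.exp (-t ^ 2) := by
        have := EX_norm (-σ₀) t
        rw [neg_sq] at this
        exact this
      rw [hH]
      simp only
      rw [norm_mul, norm_mul, e1, e2, e3]
      calc _ ≤ (B * (1 + |t|) ^ K) * Real.exp (-(σ₀ * y)) *
            (Real.exp (σ₀ ^ 2) * Real.exp (-t ^ 2)) := by
            refine mul_le_mul_of_nonneg_right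
              (mul_le_mul_of_nonneg_right (hB t) (Real.exp_pos _).le) (by positivity)
        _ = _ := by ring
    refine (norm_integral_le_of_norm_le ((JK_int K).const_mul _)
      (Eventually.of_forall h3)).trans (le_of_eq ?_)
    rw [integral_const_mul]
    unfold JK
    ring
  -- conclusion
  have hpi := Real.pi_pos
  have h2pi : (2 * Real.pi : ℂ) ≠ 0 := by exact_mod_cast (by positivity : (2 * Real.pi : ℝ) ≠ 0)
  have hpi' : (((2 * Real.pi)⁻¹ : ℝ) : ℂ) ≠ 0 := by
    exact_mod_cast (by positivity : (2 * Real.pi)⁻¹ ≠ 0)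
  unfold V at h2
  have h4 := mul_left_cancel₀ hpi' h2
  have h5 : (∫ v : ℝ, F (d * I + (((3 : ℝ) : ℂ) + v * I)) * cexp ((((3 : ℝ) : ℂ) + v * I) * y) *
      EX 3 v) = ∫ t : ℝ, H (((-σ₀ : ℝ) : ℂ) + t * I) := by
    rw [h4]
    rfl
  rw [h5] at h1
  refine ⟨(2 * Real.pi : ℂ)⁻¹ * ∫ t : ℝ, H (((-σ₀ : ℝ) : ℂ) + t * I), ?_, ?_⟩
  · refine (h1.mul_left ((2 * Real.pi : ℂ)⁻¹)).congr_fun fun l => ?_
    field_simp
  · rw [norm_mul, norm_inv]
    have h5 : ‖(2 * Real.pi : ℂ)‖ = 2 * Real.pi := by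
      rw [norm_mul, Complex.norm_real, Real.norm_of_nonneg hpi.le]
      simp
    rw [h5]
    have h6 : (2 * Real.pi)⁻¹ ≤ 1 := inv_le_one_of_one_le₀ (by linarith [Real.pi_gt_three])
    calc _ ≤ 1 * ‖∫ t : ℝ, H (((-σ₀ : ℝ) : ℂ) + t * I)‖ :=
          mul_le_mul_of_nonneg_right h6 (norm_nonneg _)
      _ ≤ _ := by rw [one_mul]; exact hIb

end GRAMP

open GRAMP in
theorem gram (h : S_WW) : S_GRAM := by
  intro σ₀ A hσ hA
  obtain ⟨hW1, -, hW3⟩ := h
  obtain ⟨C₀, hC₀, hW⟩ := hW3 (1 / 4) (by norm_num) le_rfl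
  set C₁ : ℝ := Real.exp (σ₀ ^ 2) * JK A with hC₁
  have hC₁0 : 0 ≤ C₁ := mul_nonneg (Real.exp_pos _).le (JK_nonneg A)
  have hq0 : 0 ≤ Real.exp (-σ₀) := (Real.exp_pos _).le
  have hq1 : Real.exp (-σ₀) < 1 := by
    rw [Real.exp_lt_one_iff]
    linarith
  have hq2 : 0 < 1 - Real.exp (-σ₀) := by linarith
  refine ⟨C₁ * (1 - Real.exp (-σ₀))⁻¹ + 1, by positivity, ?_⟩
  intro X _ u v L F hL hF hu hv d B y hB0 hy hB
  have hcs := summ_cs hu hv
  have hco := (co_abs hcs).summable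
  have hWpos : ∀ x, 0 ≤ WW y x := fun x =>
    tsum_nonneg fun m => mul_nonneg (rho_pos _ _).le (EG_pos _).le
  have hS1 : Summable fun l : TT X => ‖co u v l‖ * WW y (Lam L l) := by
    refine Summable.of_nonneg_of_le (fun l => mul_nonneg (norm_nonneg _) (hWpos _)) (fun l => ?_)
      (hco.mul_left (C₀ * Real.exp (5 / 4 * y)))
    have h1 := hW y (Lam L l) hy
    calc ‖co u v l‖ * WW y (Lam L l) ≤
          ‖co u v l‖ * (C₀ * Real.exp ((1 + 1 / 4) * (y - Lam L l))) :=
          mul_le_mul_of_nonneg_left h1 (norm_nonneg _)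
      _ = _ := by
          have e1 : (1 + 1 / 4) * (y - Lam L l) = 5 / 4 * y + -(5 / 4 * Lam L l) := by ring
          rw [e1, Real.exp_add]
          ring
  refine ⟨hS1, ?_⟩
  have hs3 : Summable fun x => ‖u x‖ * ‖v x‖ * Real.exp (-((3 : ℝ) * L x)) :=
    summ_mono' hL (fun x => by positivity) (by norm_num) hcs
  choose T hT hTn using fun y' : ℝ => one_term hF (d := d) hs3 hσ hB y'
  -- the double series
  set f : TT X × ℕ → ℂ := fun p => co u v p.1 * cexp (-(d * I * Lam L p.1)) *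
    ((rho y p.2 * EG (p.2 - Lam L p.1) : ℝ) : ℂ) with hf
  have hfn : ∀ p, ‖f p‖ = ‖co u v p.1‖ * (rho y p.2 * EG (p.2 - Lam L p.1)) := by
    intro p
    rw [hf]
    simp only
    rw [norm_mul, term_norm', Complex.norm_real,
      Real.norm_of_nonneg (mul_nonneg (rho_pos _ _).le (EG_pos _).le)]
    have : ((d : ℂ) * I).re = 0 := by simp
    rw [this, zero_mul, neg_zero, Real.exp_zero, mul_one]
  have hfs : Summable f := by
    refine Summable.of_norm ?_
    rw [summable_prod_of_nonneg fun p => norm_nonneg _]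
    simp only [hfn]
    refine ⟨fun l => (hW1 y (Lam L l)).mul_left _, ?_⟩
    refine hS1.congr fun l => ?_
    rw [tsum_mul_left]
    rfl
  have h1 : ∑' l : TT X, co u v l * Complex.exp (-(d * I * Lam L l)) * WW y (Lam L l) =
      ∑' m : ℕ, rho y m * T m := by
    calc _ = ∑' l : TT X, ∑' m : ℕ, f (l, m) := by
          refine tsum_congr fun l => ?_
          rw [hf]
          simp only
          rw [tsum_mul_left]
          congr 1
          unfold WW
          rw [Complex.ofReal_tsum]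
      _ = ∑' m : ℕ, ∑' l : TT X, f (l, m) := 
          (Summable.tsum_comm (f := fun l m => f (l, m)) hfs).symm
      _ = _ := by
          refine tsum_congr fun m => ?_
          have h2 := (hT m).mul_left (rho y m : ℂ)
          rw [← h2.tsum_eq]
          refine tsum_congr fun l => ?_
          rw [hf]
          simp only
          push_cast
          ring
  rw [h1]
  have hgeo := (hasSum_geometric_of_lt_one hq0 hq1).mul_left (C₁ * B)
  have h3 : ∀ m : ℕ, ‖(rho y m : ℂ) * T m‖ ≤ C₁ * B * Real.exp (-σ₀) ^ m := by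
    intro m
    rw [norm_mul, Complex.norm_real, Real.norm_of_nonneg (rho_pos _ _).le]
    calc rho y m * ‖T m‖ ≤ 1 * ‖T m‖ := mul_le_mul_of_nonneg_right (rho_le _ _) (norm_nonneg _)
      _ ≤ C₁ * B * Real.exp (-(σ₀ * m)) := by rw [one_mul]; exact hTn m
      _ = _ := by
          rw [← Real.exp_nat_mul]
          congr 2
          ring
  have h4 := tsum_of_norm_bounded hgeo h3
  refine h4.trans ?_
  have h5 : 0 ≤ B := hB0
  nlinarith

end Pool.Agent.N846.LM
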