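import Pool.Agent.N846.LM.Sieve

/-! Moments in families: the bound for fixed small parameters. -/

set_option autoImplicit false

namespace Pool.Agent.N846.LM

open Filter Topology Complex MeasureTheory Set NumberField IsDedekindDomain
open Pool.Agent.TH949.LT (TT Lam VV VV_nonneg VV_le)
open Pool.Agent.N846.DT (PairF co Uc co_abs summ_mono' summ_cs JK_int JK JK_nonneg Lam_nonneg half_exp)
open Pool.Agent.N846.DU (VX LV logRS RS GLFamily Rep LV_nonneg one_le_cond shift_cond S_LEFT S_DIAG)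

theorem z1_bound {c y x : ℝ} (hc : 0 < c) (hc1 : c ≤ 1 / 4) :
    ‖cexp (-((1 / 2 : ℂ) * (x : ℂ))) * (VV (y - x) : ℂ)‖ ^ 2 ≤
      Real.exp 2 * Real.exp (2 * c * y) * Real.exp (-((1 + 2 * c) * x)) * rho y x := by
  have h0 : ‖cexp (-((1 / 2 : ℂ) * (x : ℂ)))‖ = Real.exp (-(1 / 2 * x)) := by
    rw [Complex.norm_exp]
    congr 1
    simp
  rw [norm_mul, h0, Complex.norm_real, Real.norm_of_nonneg (VV_nonneg _), mul_pow, ← Real.exp_nat_mul]
  unfold rho
  rcases le_total x y with h | h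
  · rw [max_eq_right (by linarith), mul_zero, Real.exp_zero, mul_one]
    have h1 : VV (y - x) ^ 2 ≤ 1 := pow_le_one₀ (VV_nonneg _) (VV_le_one _)
    calc _ ≤ Real.exp ((2 : ℕ) * -(1 / 2 * x)) * 1 := mul_le_mul_of_nonneg_left h1 (Real.exp_pos _).le
      _ ≤ _ := by
          rw [mul_one, ← Real.exp_add, ← Real.exp_add]
          refine Real.exp_le_exp.2 ?_
          push_cast
          nlinarith
  · rw [max_eq_left (by linarith)]
    have h1 : VV (y - x) ^ 2 ≤ Real.exp (2 * (1 + (y - x))) := by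
      have h2 := VV_le (c := 1) one_pos (y - x)
      have h3 : Real.exp (2 * (1 + (y - x))) = Real.exp (1 + (y - x)) ^ 2 := by
        rw [← Real.exp_nat_mul]
        congr 1
      rw [h3]
      refine pow_le_pow_left₀ (VV_nonneg _) (h2.trans (le_of_eq ?_)) 2
      rw [div_one]
      congr 1
      ring
    calc _ ≤ Real.exp ((2 : ℕ) * -(1 / 2 * x)) * Real.exp (2 * (1 + (y - x))) :=
          mul_le_mul_of_nonneg_left h1 (Real.exp_pos _).le
      _ ≤ _ := by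
          rw [← Real.exp_add, ← Real.exp_add, ← Real.exp_add, ← Real.exp_add]
          refine Real.exp_le_exp.2 ?_
          push_cast
          nlinarith

theorem z2_norm (a v x : ℝ) : ‖cexp (-(((a : ℂ) + (v : ℂ) * I) * (x : ℂ)))‖ ^ 2 = Real.exp (-(2 * a * x)) := by
  rw [Complex.norm_exp, ← Real.exp_nat_mul]
  congr 1
  simp
  ring

theorem z2_bound {c y x v : ℝ} :
    ‖if x ≤ y then cexp (-((((1 / 2 + c : ℝ) : ℂ) + (v : ℂ) * I) * (x : ℂ))) else 0‖ ^ 2 ≤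
      1 * Real.exp (-((1 + 2 * c) * x)) * rho y x := by
  split_ifs with h
  · rw [z2_norm]
    unfold rho
    rw [max_eq_right (by linarith), mul_zero, Real.exp_zero, mul_one, one_mul]
    refine Real.exp_le_exp.2 ?_
    linarith
  · rw [norm_zero, zero_pow two_ne_zero]
    have := (rhoS_pos y x).le
    positivity

theorem z3_bound {c y x v : ℝ} (hc1 : c ≤ 1 / 4) :
    ‖if x ≤ y then 0 else cexp (-((((3 / 2 : ℝ) : ℂ) + (v : ℂ) * I) * (x : ℂ)))‖ ^ 2 ≤
      Real.exp (-((2 - 2 * c) * y)) * Real.exp (-((1 + 2 * c) * x)) * rho y x := by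
  split_ifs with h
  · rw [norm_zero, zero_pow two_ne_zero]
    have := (rhoS_pos y x).le
    positivity
  · rw [z2_norm]
    unfold rho
    push Not at h
    rw [max_eq_left (by linarith), ← Real.exp_add, ← Real.exp_add]
    refine Real.exp_le_exp.2 ?_
    nlinarith

theorem tsum_split (t v : ℝ) (a x : ℝ) :
    cexp (-(((a : ℂ) + (t + v : ℝ) * I) * (x : ℂ))) =
      cexp (-((t : ℂ) * I * x)) * cexp (-(((a : ℂ) + (v : ℂ) * I) * (x : ℂ))) := by
  rw [← Complex.exp_add]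
  congr 1
  push_cast
  ring

/-- the moment bound, small parameters fixed -/
theorem moment_core (hA : S_AFE) (hLS : S_LS) (hWW : S_WW) (hG : S_GRAM) (hL : S_LEFT) (hDi : S_DIAG)
    (K : Type) [Field K] [NumberField K] (n N n' N' N'' k : ℕ) (hk : 1 ≤ k) {σ₀ η η' c : ℝ} (hσ : 0 < σ₀)
    (hη : 0 < η) (hη1 : η ≤ 1 / 4) (hη' : 0 < η') (hc : 0 < c) (hc1 : c ≤ 1 / 4) : ∃ A : ℝ, 0 < A ∧
    ∀ (ι : Type) [Fintype ι] (S : ι → Finset (HeightOneSpectrum (𝓞 K)))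
      (α : ι → HeightOneSpectrum (𝓞 K) → Fin n → ℂ) (u : ι → VX K → ℂ) (q : ι → ι → ℝ) (κ : ι → ι → Fin N → ℂ)
      (S' : Finset (HeightOneSpectrum (𝓞 K))) (α' : HeightOneSpectrum (𝓞 K) → Fin n' → ℂ) (w : VX K → ℂ) (q' : ℝ)
      (κ' : Fin N'' → ℂ) (qs : ι → ℝ) (μ : ι → Fin N' → ℂ) (F : ι → ℂ → ℂ),
      GLFamily n N S α u q κ → Rep n' S' α' w → RS w w q' κ' 1 → (∀ f, RS (u f) w (qs f) (μ f) 0) →
      (∀ f j, -(1 / 2) < (μ f j).re) → (∀ f, Differentiable ℂ (F f)) →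
      (∀ f (s : ℂ), 1 < s.re → F f s = cexp (logRS (u f) w s)) →
      ∀ (t : ι → ℝ) (C Q Q' : ℝ), 1 ≤ C → 1 ≤ Q → 1 ≤ Q' →
        (∀ f, qs f * ∏ j, (1 + ‖μ f j + (1 / 2 + t f * I)‖) ≤ C) →
        (∀ f g, q f g * ∏ j, (1 + ‖κ f g j + ((t f - t g : ℝ) : ℂ) * I‖) ≤ Q) →
        (q' * ∏ j, (1 + ‖κ' j‖) ≤ Q') →
        ∑ f, ‖F f (1 / 2 + t f * I)‖ ^ (2 * k) ≤ A * (C ^ (k * c) * Q' ^ η') *
          (C ^ (k * (1 + η) / 2) * Q ^ η' + Fintype.card ι * Q ^ (1 / 2 + σ₀ + η')) := by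
  have hk0 : (0 : ℝ) < k := by exact_mod_cast hk
  obtain ⟨CA, AA, hCA0, hAA0, hCA⟩ := hA N' k c hk hc hc1
  obtain ⟨CG, hCG0, hCG⟩ := gram_fam hWW hG (A := N * (1 / 2 + σ₀)) hσ hη hη1 (by positivity)
  obtain ⟨hWs, ⟨c0, hc0, hlow⟩, hup⟩ := hWW
  obtain ⟨CL, hCL0, hCL⟩ := hL N σ₀ hσ
  obtain ⟨C1, hC10, hC1⟩ := hDi K n N η η' hη hη'
  obtain ⟨C2, hC20, hC2⟩ := hDi K n N σ₀ η' hσ hη'
  obtain ⟨C3, hC30, hC3⟩ := hDi K n' N'' (2 * c) (η' / (k : ℝ) ^ 2) (by positivity) (by positivity)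
  set J : ℝ := ∫ v : ℝ, om AA v with hJ
  have hJint : Integrable fun v : ℝ => om AA v := JK_int AA
  have hJ0 : 0 ≤ J := integral_nonneg fun v => by
    unfold om
    have := abs_nonneg v
    positivity
  refine ⟨(3 * Real.exp 2 + 2 * (CA * J)) / c0 * C3 ^ (k ^ 2) * (CG * (C1 + CL * C2)), by positivity, ?_⟩
  intro ι _ S α u q κ S' α' w q' κ' qs μ F h hw hww hRS hμ hFd hFe t C Q Q' hC hQ hQ' hcC hcQ hcQ'
  have hC0 : 0 < C := by linarith
  have hQ0 : 0 < Q := by linarith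
  have hQ'0 : 0 < Q' := by linarith
  have hq1 : ∀ f g, 1 ≤ q f g := by
    intro f g
    by_cases hfg : f = g
    · rw [hfg]
      exact (h.self g).one_le
    · exact (h.pair f g hfg).one_le
  set y : ℝ := k / 2 * Real.log C with hy
  have hlog : 0 ≤ Real.log C := Real.log_nonneg hC
  have hy0 : 0 ≤ y := by positivity
  have hexpy : ∀ a : ℝ, Real.exp (a * y) = C ^ (k * a / 2) := by
    intro a
    rw [Real.rpow_def_of_pos hC0, hy]
    congr 1
    ring
  -- the diagonal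
  have hself : ∀ f, q f f * ∏ j, (1 + ‖κ f f j‖) ≤ Q := by
    intro f
    have := hcQ f f
    simpa using this
  have hpow : ∀ f, (q f f * ∏ j, (1 + ‖κ f f j‖)) ^ η' ≤ Q ^ η' := by
    intro f
    have h1 := one_le_cond (κ := κ f f) (hq1 f f) 0
    simp only [add_zero] at h1
    exact Real.rpow_le_rpow (by linarith) (hself f) hη'.le
  have hD1 : ∀ f, Real.exp (∑' x : VX K, ‖u f x‖ ^ 2 * Real.exp (-((1 + η) * LV x))) ≤ C1 * Q ^ η' := fun f =>
    (hC1 (S f) (α f) (u f) (q f f) (κ f f) (h.rep f) (h.self f)).trans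
      (mul_le_mul_of_nonneg_left (hpow f) hC10.le)
  have hD2 : ∀ f, Real.exp (∑' x : VX K, ‖u f x‖ ^ 2 * Real.exp (-((1 + σ₀) * LV x))) ≤ C2 * Q ^ η' := fun f =>
    (hC2 (S f) (α f) (u f) (q f f) (κ f f) (h.rep f) (h.self f)).trans
      (mul_le_mul_of_nonneg_left (hpow f) hC20.le)
  -- the pairs
  have hpair := fun f g (hfg : f ≠ g) => hCL K (u f) (u g) (q f g) (κ f g) 0 (by norm_num) (h.pair f g hfg)
    (h.rep f).summable (h.rep g).summable
  choose! G hG1 hG2 hG3 hG4 hG5 using hpair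
  have hPF : ∀ f g, f ≠ g → PairF (u f) (u g) LV (G f g) := by
    intro f g hfg
    refine ⟨hG1 f g hfg, fun z hz => ?_, hG3 f g hfg⟩
    rw [hG2 f g hfg z (by linarith), pow_zero, one_mul]
    rfl
  have hGb : ∀ f g, f ≠ g → ∀ v : ℝ, ‖G f g (((-σ₀ : ℝ) : ℂ) + ((t f - t g) + v : ℝ) * I)‖ ≤
      CL * C2 * Q ^ (1 / 2 + σ₀ + η') * (1 + |v|) ^ (N * (1 / 2 + σ₀)) := by
    intro f g hfg v
    have h1 := hG5 f g hfg ((t f - t g) + v)
    simp only [pow_zero, mul_one] at h1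
    have e1 : q f g * ∏ j, (1 + ‖κ f g j + (((t f - t g) + v : ℝ) : ℂ) * I‖) ≤ Q * (1 + |v|) ^ N := by
      have h3 := shift_cond (κ := κ f g) (hq1 f g) (z := ((t f - t g : ℝ) : ℂ) * I) (w := 0) (c := 0)
        (by simp) v
      rw [add_zero, one_pow, one_mul] at h3
      refine le_trans (le_of_eq ?_) (h3.trans (mul_le_mul_of_nonneg_right (hcQ f g) (by positivity)))
      congr 1
      refine Finset.prod_congr rfl fun j _ => ?_
      congr 2
      push_cast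
      ring
    have h0 : 0 ≤ q f g * ∏ j, (1 + ‖κ f g j + (((t f - t g) + v : ℝ) : ℂ) * I‖) := by
      have := one_le_cond (κ := κ f g) (hq1 f g) ((((t f - t g) + v : ℝ) : ℂ) * I)
      linarith
    have e4 : (q f g * ∏ j, (1 + ‖κ f g j + (((t f - t g) + v : ℝ) : ℂ) * I‖)) ^ (1 / 2 + σ₀) ≤
        Q ^ (1 / 2 + σ₀) * (1 + |v|) ^ (N * (1 / 2 + σ₀)) := by
      refine (Real.rpow_le_rpow h0 e1 (by linarith)).trans (le_of_eq ?_)
      rw [Real.mul_rpow hQ0.le (by positivity), ← Real.rpow_natCast (1 + |v|) N,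
        ← Real.rpow_mul (by positivity)]
    have e5 : Real.exp ((∑' x : VX K, ‖u f x‖ ^ 2 * Real.exp (-((1 + σ₀) * LV x))) / 2 +
        (∑' x : VX K, ‖u g x‖ ^ 2 * Real.exp (-((1 + σ₀) * LV x))) / 2) ≤ C2 * Q ^ η' :=
      half_exp (hD2 f) (hD2 g)
    calc _ ≤ CL * (Q ^ (1 / 2 + σ₀) * (1 + |v|) ^ (N * (1 / 2 + σ₀))) * (C2 * Q ^ η') :=
          h1.trans (mul_le_mul (mul_le_mul_of_nonneg_left e4 hCL0.le) e5 (Real.exp_pos _).le (by positivity))
      _ = _ := by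
          rw [Real.rpow_add hQ0 (1 / 2 + σ₀) η']
          ring
  obtain ⟨hgs, hgb⟩ := hCG (VX K) ι u LV t G (C1 * Q ^ η') (CL * C2 * Q ^ (1 / 2 + σ₀ + η')) y LV_nonneg
    (by positivity) (by positivity) hy0 (fun f => (h.rep f).summable _ (by linarith)) hD1 hPF hGb
  set M : ℝ := CG * (C1 * Q ^ η' * Real.exp ((1 + η) * y) +
    Fintype.card ι * (CL * C2 * Q ^ (1 / 2 + σ₀ + η'))) with hMdef
  have hM0 : 0 ≤ M := by positivity
  -- the vector `k w`
  set w' : VX K → ℂ := fun x => k * w x with hw'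
  have hwsum : Summable fun x => ‖w x‖ ^ 2 * Real.exp (-((1 + 2 * c) * LV x)) := hw.summable _ (by linarith)
  have hw'eq : ∀ x, ‖w' x‖ ^ 2 * Real.exp (-((1 + 2 * c) * LV x)) =
      (k : ℝ) ^ 2 * (‖w x‖ ^ 2 * Real.exp (-((1 + 2 * c) * LV x))) := by
    intro x
    rw [hw']
    simp only
    rw [norm_mul, Complex.norm_natCast, mul_pow]
    ring
  have hw'sum : Summable fun x => ‖w' x‖ ^ 2 * Real.exp (-((1 + 2 * c) * LV x)) := by
    simp_rw [hw'eq]
    exact hwsum.mul_left _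
  have hDw : Real.exp (∑' x, ‖w' x‖ ^ 2 * Real.exp (-((1 + 2 * c) * LV x))) ≤ C3 ^ (k ^ 2) * Q' ^ η' := by
    simp_rw [hw'eq]
    rw [tsum_mul_left, show ((k : ℝ) ^ 2) = ((k ^ 2 : ℕ) : ℝ) by push_cast; rfl, Real.exp_nat_mul]
    have h1 := hC3 S' α' w q' κ' hw hww
    have h2 := one_le_cond (κ := κ') hww.one_le 0
    simp only [add_zero] at h2
    calc _ ≤ (C3 * (q' * ∏ j, (1 + ‖κ' j‖)) ^ (η' / (k : ℝ) ^ 2)) ^ (k ^ 2) :=
          pow_le_pow_left₀ (Real.exp_pos _).le h1 _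
      _ ≤ (C3 * Q' ^ (η' / (k : ℝ) ^ 2)) ^ (k ^ 2) := by
          refine pow_le_pow_left₀ (by positivity) (mul_le_mul_of_nonneg_left ?_ hC30.le) _
          exact Real.rpow_le_rpow (by linarith) hcQ' (by positivity)
      _ = _ := by
          rw [mul_pow, ← Real.rpow_natCast (Q' ^ (η' / (k : ℝ) ^ 2)), ← Real.rpow_mul hQ'0.le]
          congr 2
          push_cast
          field_simp
  set Dw : ℝ := Real.exp (∑' x, ‖w' x‖ ^ 2 * Real.exp (-((1 + 2 * c) * LV x))) with hDwdef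
  have hDw0 : 0 ≤ Dw := (Real.exp_pos _).le
  have hls := fun (z : TT (VX K) → ℂ) (P : ℝ) (hP : 0 ≤ P)
    (hz : ∀ l, ‖z l‖ ^ 2 ≤ P * Real.exp (-((1 + 2 * c) * Lam LV l)) * rho y (Lam LV l)) =>
    ls_fam hLS (u := u) (L := LV) (LV_nonneg (K := K)) (t := t) (y := y) hM0 hgs hgb hc0 hlow hw'sum hP hz
  -- three sums
  have hS1 : ∑ f, ‖∑' l : TT (VX K), co (u f) w' l * cexp (-((1 / 2 + t f * I) * Lam LV l)) *
      VV (y - Lam LV l)‖ ^ 2 ≤ M * (Real.exp 2 * Real.exp (2 * c * y) / c0 * Dw) := by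
    refine le_trans (le_of_eq ?_) (hls (fun l => cexp (-((1 / 2 : ℂ) * (Lam LV l : ℂ))) * (VV (y - Lam LV l) : ℂ))
      _ (by positivity) fun l => z1_bound hc hc1)
    refine Finset.sum_congr rfl fun f _ => ?_
    congr 2
    refine tsum_congr fun l => ?_
    have e : cexp (-((1 / 2 + t f * I) * Lam LV l)) =
        cexp (-((t f : ℂ) * I * Lam LV l)) * cexp (-((1 / 2 : ℂ) * (Lam LV l : ℂ))) := by
      rw [← Complex.exp_add]
      congr 1
      ring
    rw [e]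
    ring
  have hS2 : ∀ v : ℝ, ∑ f, ‖∑' l : TT (VX K), if Lam LV l ≤ y then co (u f) w' l *
      cexp (-((((1 / 2 + c : ℝ) : ℂ) + (t f + v : ℝ) * I) * Lam LV l)) else 0‖ ^ 2 ≤ M * (1 / c0 * Dw) := by
    intro v
    refine le_trans (le_of_eq ?_) (hls (fun l => if Lam LV l ≤ y then
      cexp (-((((1 / 2 + c : ℝ) : ℂ) + (v : ℂ) * I) * (Lam LV l : ℂ))) else 0)
      1 (by positivity) fun l => z2_bound)
    refine Finset.sum_congr rfl fun f _ => ?_
    congr 2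
    refine tsum_congr fun l => ?_
    split_ifs
    · rw [tsum_split]
      ring
    · rw [mul_zero]
  have hS3 : ∀ v : ℝ, ∑ f, ‖∑' l : TT (VX K), if Lam LV l ≤ y then 0 else co (u f) w' l *
      cexp (-((((3 / 2 : ℝ) : ℂ) + (t f + v : ℝ) * I) * Lam LV l))‖ ^ 2 ≤
        M * (Real.exp (-((2 - 2 * c) * y)) / c0 * Dw) := by
    intro v
    refine le_trans (le_of_eq ?_) (hls (fun l => if Lam LV l ≤ y then 0 else
      cexp (-((((3 / 2 : ℝ) : ℂ) + (v : ℂ) * I) * (Lam LV l : ℂ))))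
      _ (by positivity) fun l => z3_bound hc1)
    refine Finset.sum_congr rfl fun f _ => ?_
    congr 2
    refine tsum_congr fun l => ?_
    split_ifs
    · rw [mul_zero]
    · rw [tsum_split]
      ring
  have hom : ∀ v : ℝ, 0 ≤ om AA v := by
    intro v
    unfold om
    have := abs_nonneg v
    positivity
  have hI2 : ∑ f, ∫ v : ℝ, om AA v * ‖∑' l : TT (VX K), if Lam LV l ≤ y then co (u f) w' l *
      cexp (-((((1 / 2 + c : ℝ) : ℂ) + (t f + v : ℝ) * I) * Lam LV l)) else 0‖ ^ 2 ≤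
        J * (M * (1 / c0 * Dw)) := by
    rw [hJ, ← integral_mul_const]
    refine sum_int_le (fun f v => mul_nonneg (hom v) (by positivity)) (hJint.mul_const _) fun v => ?_
    rw [← Finset.mul_sum]
    exact mul_le_mul_of_nonneg_left (hS2 v) (hom v)
  have hI3 : ∑ f, ∫ v : ℝ, om AA v * ‖∑' l : TT (VX K), if Lam LV l ≤ y then 0 else co (u f) w' l *
      cexp (-((((3 / 2 : ℝ) : ℂ) + (t f + v : ℝ) * I) * Lam LV l))‖ ^ 2 ≤
        J * (M * (Real.exp (-((2 - 2 * c) * y)) / c0 * Dw)) := by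
    rw [hJ, ← integral_mul_const]
    refine sum_int_le (fun f v => mul_nonneg (hom v) (by positivity)) (hJint.mul_const _) fun v => ?_
    rw [← Finset.mul_sum]
    exact mul_le_mul_of_nonneg_left (hS3 v) (hom v)
  -- the approximate functional equation
  have hmain : ∀ f, ‖F f (1 / 2 + t f * I)‖ ^ (2 * k) ≤
        3 * ‖∑' l : TT (VX K), co (u f) w' l * cexp (-((1 / 2 + t f * I) * Lam LV l)) * VV (y - Lam LV l)‖ ^ 2 +
        CA * (C ^ (2 * k * c) * Real.exp (-(2 * c * y))) * (∫ v : ℝ, om AA v *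
          ‖∑' l : TT (VX K), if Lam LV l ≤ y then co (u f) w' l *
            cexp (-((((1 / 2 + c : ℝ) : ℂ) + (t f + v : ℝ) * I) * Lam LV l)) else 0‖ ^ 2) +
        CA * (C ^ (2 * k : ℝ) * Real.exp (-(2 * y))) * ∫ v : ℝ, om AA v *
          ‖∑' l : TT (VX K), if Lam LV l ≤ y then 0 else co (u f) w' l *
            cexp (-((((3 / 2 : ℝ) : ℂ) + (t f + v : ℝ) * I) * Lam LV l))‖ ^ 2 := by
    intro f
    exact hCA K (u f) w (qs f) (μ f) (F f) (hRS f) (hμ f) (hFd f) (hFe f) (h.rep f).summable hw.summable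
      (t f) y C hy0 (hcC f)
  have hsum : ∑ f, ‖F f (1 / 2 + t f * I)‖ ^ (2 * k) ≤
      3 * (M * (Real.exp 2 * Real.exp (2 * c * y) / c0 * Dw)) +
      CA * (C ^ (2 * k * c) * Real.exp (-(2 * c * y))) * (J * (M * (1 / c0 * Dw))) +
      CA * (C ^ (2 * k : ℝ) * Real.exp (-(2 * y))) * (J * (M * (Real.exp (-((2 - 2 * c) * y)) / c0 * Dw))) := by
    refine (Finset.sum_le_sum fun f _ => hmain f).trans ?_
    rw [Finset.sum_add_distrib, Finset.sum_add_distrib, ← Finset.mul_sum, ← Finset.mul_sum, ← Finset.mul_sum]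
    refine add_le_add (add_le_add ?_ ?_) ?_
    · exact mul_le_mul_of_nonneg_left hS1 (by norm_num)
    · exact mul_le_mul_of_nonneg_left hI2 (by positivity)
    · exact mul_le_mul_of_nonneg_left hI3 (by positivity)
  have e1 : Real.exp (2 * c * y) = C ^ (k * c) := by
    rw [hexpy]
    congr 1
    ring
  have e2 : C ^ (2 * k * c) * Real.exp (-(2 * c * y)) = C ^ (k * c) := by
    rw [show -(2 * c * y) = (-(2 * c)) * y by ring, hexpy, ← Real.rpow_add hC0]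
    congr 1
    ring
  have e3 : C ^ (2 * k : ℝ) * Real.exp (-(2 * y)) * Real.exp (-((2 - 2 * c) * y)) = C ^ (k * c) := by
    rw [show -(2 * y) = (-2) * y by ring, show -((2 - 2 * c) * y) = (-(2 - 2 * c)) * y by ring, hexpy, hexpy,
      ← Real.rpow_add hC0, ← Real.rpow_add hC0]
    congr 1
    ring
  have e4 : 3 * (M * (Real.exp 2 * Real.exp (2 * c * y) / c0 * Dw)) +
      CA * (C ^ (2 * k * c) * Real.exp (-(2 * c * y))) * (J * (M * (1 / c0 * Dw))) +
      CA * (C ^ (2 * k : ℝ) * Real.exp (-(2 * y))) * (J * (M * (Real.exp (-((2 - 2 * c) * y)) / c0 * Dw))) =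
      (3 * Real.exp 2 + 2 * (CA * J)) / c0 * (C ^ (k * c) * Dw) * M := by
    rw [e2]
    have e5 : CA * (C ^ (2 * k : ℝ) * Real.exp (-(2 * y))) *
        (J * (M * (Real.exp (-((2 - 2 * c) * y)) / c0 * Dw))) =
        CA * (C ^ (2 * k : ℝ) * Real.exp (-(2 * y)) * Real.exp (-((2 - 2 * c) * y))) * (J * (M * (1 / c0 * Dw))) := by
      ring
    rw [e5, e3, e1]
    ring
  rw [e4] at hsum
  have hMle : M ≤ CG * (C1 + CL * C2) *
      (C ^ (k * (1 + η) / 2) * Q ^ η' + Fintype.card ι * Q ^ (1 / 2 + σ₀ + η')) := by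
    rw [hMdef, hexpy]
    have h1 : 0 ≤ Q ^ η' * C ^ (k * (1 + η) / 2) := by positivity
    have h2 : 0 ≤ (Fintype.card ι : ℝ) * Q ^ (1 / 2 + σ₀ + η') := by positivity
    have h3 : 0 ≤ CG * C1 * ((Fintype.card ι : ℝ) * Q ^ (1 / 2 + σ₀ + η')) := by positivity
    have h4 : 0 ≤ CG * (CL * C2) * (Q ^ η' * C ^ (k * (1 + η) / 2)) := by positivity
    nlinarith
  calc _ ≤ _ := hsum
    _ ≤ (3 * Real.exp 2 + 2 * (CA * J)) / c0 * (C ^ (k * c) * (C3 ^ (k ^ 2) * Q' ^ η')) *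
        (CG * (C1 + CL * C2) *
          (C ^ (k * (1 + η) / 2) * Q ^ η' + Fintype.card ι * Q ^ (1 / 2 + σ₀ + η'))) := by
        refine mul_le_mul (mul_le_mul_of_nonneg_left (mul_le_mul_of_nonneg_left hDw (by positivity))
          (by positivity)) hMle hM0 (by positivity)
    _ = _ := by ring

end Pool.Agent.N846.LM
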