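import Pool.Agent.N846.LM.Fam
import Pool.Agent.N846.DU.Final

/-! Moments and large values in families of `L`-functions. -/

set_option autoImplicit false

namespace Pool.Agent.N846.LM

open Filter Topology Complex MeasureTheory Set NumberField IsDedekindDomain
open Pool.Agent.N846.DT (finite_of_bound)
open Pool.Agent.N846.DU (VX LV logRS RS GLFamily Rep LV_nonneg one_le_cond shift_cond S_LEFT S_DIAG)

/-- The `L`-functions `L f = L(s, π_f × π'~)`, where `π_f` has the vector of coefficients `u f` and `π'` is a fixed unitary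
cuspidal automorphic representation of `GL_{n'}` over `K` with the vector `w`, different from all `π_f` (for `n' = 1` and
`π'` trivial, `L f` is the standard `L`-function of `π_f`): `qs f` and `μ f` are the arithmetic conductor and the shifts in the
Gamma factors `Γ_ℝ(s + μ f j)` of `L(s, π_f × π'~)`, `q'` and `κ'` those of `L(s, π' × π'~)`. -/
structure Twists {K : Type} [Field K] [NumberField K] {ι : Type} (n' N' N'' : ℕ) (u : ι → VX K → ℂ)
    (S' : Finset (HeightOneSpectrum (𝓞 K))) (α' : HeightOneSpectrum (𝓞 K) → Fin n' → ℂ) (w : VX K → ℂ) (q' : ℝ)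
    (κ' : Fin N'' → ℂ) (qs : ι → ℝ) (μ : ι → Fin N' → ℂ) (L : ι → ℂ → ℂ) : Prop where
  rep : Rep n' S' α' w
  self : RS w w q' κ' 1
  rs : ∀ f, RS (u f) w (qs f) (μ f) 0
  /-- for `n' = 1` this is the bound of Jacquet and Shalika -/
  re_gt : ∀ f j, -(1 / 2) < (μ f j).re
  diff : ∀ f, Differentiable ℂ (L f)
  eq : ∀ f (s : ℂ), 1 < s.re → L f s = Complex.exp (logRS (u f) w s)

theorem cond_shift {N : ℕ} {κ : Fin N → ℂ} {q : ℝ} (hq : 1 ≤ q) {z : ℂ} {Z P : ℝ} (hz : 1 + ‖z‖ ≤ Z)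
    (h : q * ∏ j, (1 + ‖κ j‖) ≤ P) : q * ∏ j, (1 + ‖κ j + z‖) ≤ Z ^ N * P := by
  have hZ : 0 ≤ Z := by linarith [norm_nonneg z]
  have h1 : ∏ j, (1 + ‖κ j + z‖) ≤ ∏ j, (Z * (1 + ‖κ j‖)) := by
    refine Finset.prod_le_prod (fun j _ => by positivity) fun j _ => ?_
    have h2 := norm_add_le (κ j) z
    have h3 := norm_nonneg (κ j)
    have h4 := norm_nonneg z
    nlinarith
  rw [Finset.prod_mul_distrib, Finset.prod_const, Finset.card_univ, Fintype.card_fin] at h1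
  calc _ ≤ q * (Z ^ N * ∏ j, (1 + ‖κ j‖)) := mul_le_mul_of_nonneg_left h1 (by linarith)
    _ = Z ^ N * (q * ∏ j, (1 + ‖κ j‖)) := by ring
    _ ≤ _ := mul_le_mul_of_nonneg_left h (by positivity)

/-- the moment bound -/
theorem moment_all (hA : S_AFE) (hLS : S_LS) (hWW : S_WW) (hG : S_GRAM) (hL : S_LEFT) (hDi : S_DIAG)
    (K : Type) [Field K] [NumberField K] (n N n' N' N'' k : ℕ) (hk : 1 ≤ k) {ε : ℝ} (hε : 0 < ε) : ∃ A : ℝ, 0 < A ∧
    ∀ (ι : Type) (S : ι → Finset (HeightOneSpectrum (𝓞 K)))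
      (α : ι → HeightOneSpectrum (𝓞 K) → Fin n → ℂ) (u : ι → VX K → ℂ) (q : ι → ι → ℝ) (κ : ι → ι → Fin N → ℂ)
      (S' : Finset (HeightOneSpectrum (𝓞 K))) (α' : HeightOneSpectrum (𝓞 K) → Fin n' → ℂ) (w : VX K → ℂ) (q' : ℝ)
      (κ' : Fin N'' → ℂ) (qs : ι → ℝ) (μ : ι → Fin N' → ℂ) (L : ι → ℂ → ℂ),
      GLFamily n N S α u q κ → Twists n' N' N'' u S' α' w q' κ' qs μ L →
      ∀ (T : Finset ι) (t : ι → ℝ) (C Q Q' : ℝ), 1 ≤ C → 1 ≤ Q → q' * ∏ j, (1 + ‖κ' j‖) ≤ Q' →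
        (∀ f ∈ T, qs f * ∏ j, (1 + ‖μ f j + (1 / 2 + t f * I)‖) ≤ C) →
        (∀ f ∈ T, ∀ g ∈ T, q f g * ∏ j, (1 + ‖κ f g j + (t f - t g) * I‖) ≤ Q) →
        ∑ f ∈ T, ‖L f (1 / 2 + t f * I)‖ ^ (2 * k) ≤
          A * (C * Q * Q') ^ ε * (C ^ ((k : ℝ) / 2) + T.card * Q ^ (1 / 2 : ℝ)) := by
  have hk0 : (0 : ℝ) < k := by exact_mod_cast hk
  set δ : ℝ := min (1 / 4) (ε / (2 * k)) with hδ
  have hδ0 : 0 < δ := lt_min (by norm_num) (by positivity)
  have hδ1 : δ ≤ 1 / 4 := min_le_left _ _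
  have hδ2 : k * δ ≤ ε / 2 := by
    have h1 : δ ≤ ε / (2 * k) := min_le_right _ _
    calc k * δ ≤ k * (ε / (2 * k)) := mul_le_mul_of_nonneg_left h1 hk0.le
      _ = ε / 2 := by field_simp
  obtain ⟨A, hA0, hA1⟩ := moment_core hA hLS hWW hG hL hDi K n N n' N' N'' k hk (σ₀ := ε / 2) (η := δ) (η' := ε / 2)
    (c := δ) (by positivity) hδ0 hδ1 (by positivity) hδ0 hδ1
  refine ⟨A, hA0, ?_⟩
  intro ι S α u q κ S' α' w q' κ' qs μ L h hT T t C Q Q' hC hQ hQ' hcC hcQ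
  have hC0 : 0 < C := by linarith
  have hQ0 : 0 < Q := by linarith
  have hQ'1 : 1 ≤ Q' := by
    have h1 := one_le_cond (κ := κ') hT.self.one_le 0
    simp only [add_zero] at h1
    linarith
  have hQ'0 : 0 < Q' := by linarith
  have h1 := hA1 {f // f ∈ T} (fun f => S f.1) (fun f => α f.1) (fun f => u f.1) (fun f g => q f.1 g.1)
    (fun f g => κ f.1 g.1) S' α' w q' κ' (fun f => qs f.1) (fun f => μ f.1) (fun f => L f.1)
    (h.sub (fun f : {f // f ∈ T} => f.1) Subtype.val_injective) hT.rep hT.self (fun f => hT.rs f.1)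
    (fun f => hT.re_gt f.1) (fun f => hT.diff f.1) (fun f => hT.eq f.1) (fun f => t f.1) C Q Q' hC hQ hQ'1
    (fun f => hcC f.1 f.2) (fun f g => by
      have := hcQ f.1 f.2 g.1 g.2
      push_cast
      exact this) hQ'
  simp only [Finset.univ_eq_attach, Fintype.card_coe] at h1
  have e0 := Finset.sum_attach T (fun f => ‖L f (1 / 2 + t f * I)‖ ^ (2 * k))
  rw [e0] at h1
  refine h1.trans ?_
  have hX : C ^ (k * δ) * Q' ^ (ε / 2) *
      (C ^ (k * (1 + δ) / 2) * Q ^ (ε / 2) + (T.card : ℝ) * Q ^ (1 / 2 + ε / 2 + ε / 2)) ≤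
      (C * Q * Q') ^ ε * (C ^ ((k : ℝ) / 2) + T.card * Q ^ (1 / 2 : ℝ)) := by
    have e1 : C ^ (k * (1 + δ) / 2) = C ^ (k * δ / 2) * C ^ ((k : ℝ) / 2) := by
      rw [← Real.rpow_add hC0]
      congr 1
      ring
    have e2 : Q ^ (1 / 2 + ε / 2 + ε / 2) = Q ^ ε * Q ^ (1 / 2 : ℝ) := by
      rw [← Real.rpow_add hQ0]
      congr 1
      ring
    have e3 : (C * Q * Q') ^ ε = C ^ ε * Q ^ ε * Q' ^ ε := by
      rw [Real.mul_rpow (by positivity) hQ'0.le, Real.mul_rpow hC0.le hQ0.le]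
    have i1 : C ^ (k * δ) * C ^ (k * δ / 2) ≤ C ^ ε := by
      rw [← Real.rpow_add hC0]
      exact Real.rpow_le_rpow_of_exponent_le hC (by linarith)
    have i2 : C ^ (k * δ) ≤ C ^ ε := Real.rpow_le_rpow_of_exponent_le hC (by linarith)
    have i3 : Q' ^ (ε / 2) ≤ Q' ^ ε := Real.rpow_le_rpow_of_exponent_le hQ'1 (by linarith)
    have i4 : Q ^ (ε / 2) ≤ Q ^ ε := Real.rpow_le_rpow_of_exponent_le hQ (by linarith)
    rw [e1, e2, e3]
    have j1 : C ^ (k * δ) * Q' ^ (ε / 2) * (C ^ (k * δ / 2) * C ^ ((k : ℝ) / 2) * Q ^ (ε / 2)) ≤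
        C ^ ε * Q ^ ε * Q' ^ ε * C ^ ((k : ℝ) / 2) := by
      calc _ = (C ^ (k * δ) * C ^ (k * δ / 2)) * Q ^ (ε / 2) * Q' ^ (ε / 2) * C ^ ((k : ℝ) / 2) := by ring
        _ ≤ _ := by
            refine mul_le_mul_of_nonneg_right ?_ (by positivity)
            exact mul_le_mul (mul_le_mul i1 i4 (by positivity) (by positivity)) i3 (by positivity) (by positivity)
    have j2 : C ^ (k * δ) * Q' ^ (ε / 2) * ((T.card : ℝ) * (Q ^ ε * Q ^ (1 / 2 : ℝ))) ≤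
        C ^ ε * Q ^ ε * Q' ^ ε * (T.card * Q ^ (1 / 2 : ℝ)) := by
      calc _ = (C ^ (k * δ) * Q ^ ε * Q' ^ (ε / 2)) * (T.card * Q ^ (1 / 2 : ℝ)) := by ring
        _ ≤ _ := by
            refine mul_le_mul_of_nonneg_right ?_ (by positivity)
            exact mul_le_mul (mul_le_mul_of_nonneg_right i2 (by positivity)) i3 (by positivity) (by positivity)
    calc _ = C ^ (k * δ) * Q' ^ (ε / 2) * (C ^ (k * δ / 2) * C ^ ((k : ℝ) / 2) * Q ^ (ε / 2)) +
          C ^ (k * δ) * Q' ^ (ε / 2) * ((T.card : ℝ) * (Q ^ ε * Q ^ (1 / 2 : ℝ))) := by ring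
      _ ≤ _ := by
          rw [mul_add]
          exact add_le_add j1 j2
  calc _ = A * (C ^ (k * δ) * Q' ^ (ε / 2) *
      (C ^ (k * (1 + δ) / 2) * Q ^ (ε / 2) + (T.card : ℝ) * Q ^ (1 / 2 + ε / 2 + ε / 2))) := by ring
    _ ≤ _ := by
        rw [mul_assoc A]
        exact mul_le_mul_of_nonneg_left hX hA0.le

/-- large values in a universal family -/
theorem large_all (hA : S_AFE) (hLS : S_LS) (hWW : S_WW) (hG : S_GRAM) (hL : S_LEFT) (hDi : S_DIAG)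
    (K : Type) [Field K] [NumberField K] (n N n' N' N'' k : ℕ) (hk : 1 ≤ k) {ε v : ℝ} (hε : 0 < ε)
    (hv : (n : ℝ) / (2 * k) < v) (B Q' : ℝ) (hB : 1 ≤ B) (hQ' : 1 ≤ Q') : ∃ A c : ℝ, 1 ≤ A ∧ 0 < c ∧
    ∀ (ι : Type) (S : ι → Finset (HeightOneSpectrum (𝓞 K)))
      (α : ι → HeightOneSpectrum (𝓞 K) → Fin n → ℂ) (u : ι → VX K → ℂ) (q : ι → ι → ℝ) (κ : ι → ι → Fin N → ℂ)
      (S' : Finset (HeightOneSpectrum (𝓞 K))) (α' : HeightOneSpectrum (𝓞 K) → Fin n' → ℂ) (w : VX K → ℂ) (q' : ℝ)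
      (κ' : Fin N'' → ℂ) (qs : ι → ℝ) (μ : ι → Fin N' → ℂ) (L : ι → ℂ → ℂ) (C : ι → ℝ),
      GLFamily n N S α u q κ → Twists n' N' N'' u S' α' w q' κ' qs μ L → q' * ∏ j, (1 + ‖κ' j‖) ≤ Q' →
      (∀ f, qs f * ∏ j, (1 + ‖μ f j‖) ≤ C f) →
      (∀ f g, q f g * ∏ j, (1 + ‖κ f g j‖) ≤ B * (C f * C g) ^ n) →
      ∀ X : ℝ, A ≤ X →
        {f | C f ≤ X ∧ ∃ t : ℝ, |t| ≤ X ^ c ∧ X ^ v ≤ ‖L f (1 / 2 + t * I)‖}.Finite ∧
        ({f | C f ≤ X ∧ ∃ t : ℝ, |t| ≤ X ^ c ∧ X ^ v ≤ ‖L f (1 / 2 + t * I)‖}.ncard : ℝ) ≤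
          X ^ ((k : ℝ) / 2 * (1 - 4 * v) + ε) := by
  have hk0 : (0 : ℝ) < k := by exact_mod_cast hk
  have hn0 : (0 : ℝ) ≤ n := Nat.cast_nonneg n
  have hN0 : (0 : ℝ) ≤ N := Nat.cast_nonneg N
  have hN'0 : (0 : ℝ) ≤ N' := Nat.cast_nonneg N'
  set θ : ℝ := 2 * k * v - n with hθ
  have hθ0 : 0 < θ := by
    rw [div_lt_iff₀ (by positivity)] at hv
    rw [hθ]
    linarith
  -- the small parameters
  set m : ℝ := min (θ / 2) (ε / 2) with hm
  have hm0 : 0 < m := lt_min (by positivity) (by positivity)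
  have hm1 : m ≤ θ / 2 := min_le_left _ _
  have hm2 : m ≤ ε / 2 := min_le_right _ _
  set c : ℝ := m / (2 * (N + k * N' + 1)) with hc
  have hc0 : 0 < c := by positivity
  have hcm : c * (N + k * N' + 1) = m / 2 := by
    rw [hc]
    field_simp
  set ε₁ : ℝ := m / (2 * (1 + 2 * n + c * (N + N'))) with hε₁
  have hε₁0 : 0 < ε₁ := by positivity
  have hεm : ε₁ * (1 + 2 * n + c * (N + N')) = m / 2 := by
    rw [hε₁]
    field_simp
  obtain ⟨A, hA0, hA1⟩ := moment_all hA hLS hWW hG hL hDi K n N n' N' N'' k hk hε₁0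
  set A₁ : ℝ := A * (3 ^ N' * (3 ^ N * B) * Q') ^ ε₁ *
    (((3 : ℝ) ^ N') ^ ((k : ℝ) / 2) + (3 ^ N * B) ^ (1 / 2 : ℝ)) with hA₁
  have hB0 : 0 < B := by linarith
  have hQ'0 : 0 < Q' := by linarith
  have hA₁0 : 0 < A₁ := by positivity
  -- large X
  obtain ⟨X₀, hX₀⟩ : ∃ X₀ : ℝ, ∀ X, X₀ ≤ X → 2 * A₁ ≤ X ^ m := by
    have h1 : Tendsto (fun X : ℝ => X ^ m) atTop atTop := tendsto_rpow_atTop hm0
    exact (eventually_atTop.1 (h1.eventually_ge_atTop (2 * A₁)))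
  refine ⟨max 1 X₀, c, le_max_left _ _, hc0, ?_⟩
  intro ι S α u q κ S' α' w q' κ' qs μ L C h hT hcQ' hC1 hC2 X hX
  have hX1 : 1 ≤ X := (le_max_left _ _).trans hX
  have hX0 : 0 < X := by linarith
  have hXA : 2 * A₁ ≤ X ^ m := hX₀ X ((le_max_right _ _).trans hX)
  have hZ1 : 1 ≤ X ^ c := Real.one_le_rpow hX1 hc0.le
  refine finite_of_bound fun T hTs => ?_
  have hq1 : ∀ f g, 1 ≤ q f g := by
    intro f g
    by_cases hfg : f = g
    · rw [hfg]
      exact (h.self g).one_le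
    · exact (h.pair f g hfg).one_le
  have hch : ∀ f, ∃ t : ℝ, f ∈ T → |t| ≤ X ^ c ∧ X ^ v ≤ ‖L f (1 / 2 + t * I)‖ := by
    intro f
    by_cases hf : f ∈ T
    · obtain ⟨-, t, ht1, ht2⟩ := hTs f hf
      exact ⟨t, fun _ => ⟨ht1, ht2⟩⟩
    · exact ⟨0, fun h' => absurd h' hf⟩
  choose t ht using hch
  have hCX : ∀ f ∈ T, C f ≤ X := fun f hf => (hTs f hf).1
  have hC1' : ∀ f, 1 ≤ C f := fun f => by
    have h1 := one_le_cond (κ := μ f) (hT.rs f).one_le 0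
    simp only [add_zero] at h1
    exact h1.trans (hC1 f)
  have hcond1 : ∀ f ∈ T, qs f * ∏ j, (1 + ‖μ f j + (1 / 2 + t f * I)‖) ≤ (3 * X ^ c) ^ N' * X := by
    intro f hf
    refine cond_shift (hT.rs f).one_le ?_ ((hC1 f).trans (hCX f hf))
    have h1 := norm_add_le (1 / 2 : ℂ) (t f * I)
    have h2 : ‖(t f : ℂ) * I‖ = |t f| := by simp
    have h3 : ‖(1 / 2 : ℂ)‖ = 1 / 2 := by norm_num
    rw [h2, h3] at h1
    linarith [(ht f hf).1]
  have hcond2 : ∀ f ∈ T, ∀ g ∈ T, q f g * ∏ j, (1 + ‖κ f g j + (t f - t g) * I‖) ≤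
      (3 * X ^ c) ^ N * (B * (X * X) ^ n) := by
    intro f hf g hg
    refine cond_shift (hq1 f g) ?_ ((hC2 f g).trans ?_)
    · have h2 : ‖((t f : ℂ) - t g) * I‖ ≤ |t f| + |t g| := by
        rw [norm_mul, Complex.norm_I, mul_one]
        refine (norm_sub_le _ _).trans ?_
        simp
      linarith [(ht f hf).1, (ht g hg).1]
    · refine mul_le_mul_of_nonneg_left ?_ hB0.le
      refine pow_le_pow_left₀ ?_ ?_ n
      · nlinarith [hC1' f, hC1' g]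
      · exact mul_le_mul (hCX f hf) (hCX g hg) (by linarith [hC1' g]) hX0.le
  have hmom := hA1 ι S α u q κ S' α' w q' κ' qs μ L h hT T t ((3 * X ^ c) ^ N' * X)
    ((3 * X ^ c) ^ N * (B * (X * X) ^ n)) Q' ?_ ?_ hcQ' hcond1 hcond2
  rotate_left
  · have h1 : 1 ≤ (3 * X ^ c) ^ N' := one_le_pow₀ (by linarith)
    nlinarith
  · have h1 : 1 ≤ (3 * X ^ c) ^ N := one_le_pow₀ (by linarith)
    have h2 : 1 ≤ (X * X) ^ n := one_le_pow₀ (by nlinarith)
    have h3 : 1 ≤ B * (X * X) ^ n := by nlinarith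
    nlinarith
  -- exponents
  have eC : (3 * X ^ c) ^ N' * X = 3 ^ N' * X ^ (1 + c * N') := by
    rw [mul_pow, ← Real.rpow_natCast (X ^ c), ← Real.rpow_mul hX0.le, Real.rpow_add hX0, Real.rpow_one]
    ring
  have eQ : (3 * X ^ c) ^ N * (B * (X * X) ^ n) = (3 ^ N * B) * X ^ (2 * n + c * N) := by
    have e1 : (X * X) ^ n = X ^ (2 * (n : ℝ)) := by
      rw [← sq, ← pow_mul, ← Real.rpow_natCast]
      push_cast
      rfl
    rw [mul_pow, e1, ← Real.rpow_natCast (X ^ c), ← Real.rpow_mul hX0.le, Real.rpow_add hX0]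
    ring
  rw [eC, eQ] at hmom
  have hlow : (T.card : ℝ) * X ^ (2 * k * v) ≤ ∑ f ∈ T, ‖L f (1 / 2 + t f * I)‖ ^ (2 * k) := by
    rw [← nsmul_eq_mul]
    refine Finset.card_nsmul_le_sum _ _ _ fun f hf => ?_
    have h1 := pow_le_pow_left₀ (by positivity) (ht f hf).2 (2 * k)
    refine le_trans (le_of_eq ?_) h1
    rw [← Real.rpow_natCast, ← Real.rpow_mul hX0.le]
    congr 1
    push_cast
    ring
  have hup : A * (3 ^ N' * X ^ (1 + c * N') * ((3 ^ N * B) * X ^ (2 * n + c * N)) * Q') ^ ε₁ *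
      ((3 ^ N' * X ^ (1 + c * N')) ^ ((k : ℝ) / 2) + T.card * ((3 ^ N * B) * X ^ (2 * n + c * N)) ^ (1 / 2 : ℝ)) ≤
      A₁ * X ^ (m / 2) * (X ^ ((k : ℝ) / 2 * (1 + c * N')) + T.card * X ^ (n + c * N / 2)) := by
    have e1 : (3 ^ N' * X ^ (1 + c * N') * ((3 ^ N * B) * X ^ (2 * n + c * N)) * Q') ^ ε₁ =
        (3 ^ N' * (3 ^ N * B) * Q') ^ ε₁ * X ^ (m / 2) := by
      have e2 : 3 ^ N' * X ^ (1 + c * N') * ((3 ^ N * B) * X ^ (2 * n + c * N)) * Q' =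
          (3 ^ N' * (3 ^ N * B) * Q') * X ^ (1 + 2 * n + c * (N + N')) := by
        rw [show (1 + 2 * (n : ℝ) + c * (N + N')) = (1 + c * N') + (2 * n + c * N) by ring,
          Real.rpow_add hX0 (1 + c * N') (2 * n + c * N)]
        ring
      rw [e2, Real.mul_rpow (by positivity) (by positivity), ← Real.rpow_mul hX0.le, mul_comm _ ε₁, hεm]
    have e3 : (3 ^ N' * X ^ (1 + c * N')) ^ ((k : ℝ) / 2) =
        ((3 : ℝ) ^ N') ^ ((k : ℝ) / 2) * X ^ ((k : ℝ) / 2 * (1 + c * N')) := by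
      rw [Real.mul_rpow (by positivity) (by positivity), ← Real.rpow_mul hX0.le]
      congr 2
      ring
    have e4 : ((3 ^ N * B) * X ^ (2 * n + c * N)) ^ (1 / 2 : ℝ) = (3 ^ N * B) ^ (1 / 2 : ℝ) * X ^ (n + c * N / 2) := by
      rw [Real.mul_rpow (by positivity) (by positivity), ← Real.rpow_mul hX0.le]
      congr 2
      ring
    rw [e1, e3, e4, hA₁]
    set a1 : ℝ := ((3 : ℝ) ^ N') ^ ((k : ℝ) / 2) with ha1
    set a2 : ℝ := (3 ^ N * B) ^ (1 / 2 : ℝ) with ha2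
    set a3 : ℝ := X ^ ((k : ℝ) / 2 * (1 + c * N')) with ha3
    set a4 : ℝ := (T.card : ℝ) * X ^ (n + c * N / 2) with ha4
    have p1 : 0 < a1 := by positivity
    have p2 : 0 < a2 := by positivity
    have p3 : 0 < a3 := by positivity
    have p4 : 0 ≤ a4 := by positivity
    have e5 : a1 * a3 + T.card * (a2 * X ^ (n + c * N / 2)) = a1 * a3 + a2 * a4 := by
      rw [ha4]
      ring
    rw [e5]
    have p5 : a1 * a3 + a2 * a4 ≤ (a1 + a2) * (a3 + a4) := by nlinarith [mul_nonneg p1.le p4, mul_pos p2 p3]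
    calc _ ≤ A * ((3 ^ N' * (3 ^ N * B) * Q') ^ ε₁ * X ^ (m / 2)) * ((a1 + a2) * (a3 + a4)) :=
          mul_le_mul_of_nonneg_left p5 (by positivity)
      _ = _ := by ring
  have hall := (hlow.trans hmom).trans hup
  -- absorb the second term
  set R : ℝ := (T.card : ℝ) with hR
  have hR0 : 0 ≤ R := by positivity
  have hc3 : c * N / 2 ≤ m / 4 ∧ (k : ℝ) / 2 * (c * N') ≤ m / 4 := by
    have h1 : 0 ≤ c * N := by positivity
    have h2 : 0 ≤ c * (k * N') := by positivity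
    have h3 : c * (N + k * N' + 1) = c * N + c * (k * N') + c := by ring
    constructor
    · linarith
    · have : (k : ℝ) / 2 * (c * N') = c * (k * N') / 2 := by ring
      rw [this]
      linarith
  have h2 : A₁ * X ^ (m / 2) * (R * X ^ (n + c * N / 2)) ≤ R * X ^ (2 * k * v) / 2 := by
    have i1 : A₁ * X ^ (m / 2) * X ^ (n + c * N / 2) ≤ X ^ (2 * k * v) / 2 := by
      have i2 : X ^ (m / 2) * X ^ (n + c * N / 2) ≤ X ^ (2 * k * v - m) := by
        rw [← Real.rpow_add hX0]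
        refine Real.rpow_le_rpow_of_exponent_le hX1 ?_
        have : 2 * k * v = θ + n := by rw [hθ]; ring
        rw [this]
        linarith [hc3.1]
      have i3 : X ^ (2 * k * v) = X ^ m * X ^ (2 * k * v - m) := by
        rw [← Real.rpow_add hX0]
        congr 1
        ring
      rw [i3]
      have i4 : 0 < X ^ (2 * k * v - m) := by positivity
      calc _ = A₁ * (X ^ (m / 2) * X ^ (n + c * N / 2)) := by ring
        _ ≤ A₁ * X ^ (2 * k * v - m) := mul_le_mul_of_nonneg_left i2 hA₁0.le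
        _ ≤ X ^ m / 2 * X ^ (2 * k * v - m) := mul_le_mul_of_nonneg_right (by linarith) i4.le
        _ = _ := by ring
    calc _ = R * (A₁ * X ^ (m / 2) * X ^ (n + c * N / 2)) := by ring
      _ ≤ R * (X ^ (2 * k * v) / 2) := mul_le_mul_of_nonneg_left i1 hR0
      _ = _ := by ring
  have h3 : R * X ^ (2 * k * v) ≤ 2 * A₁ * X ^ (m / 2) * X ^ ((k : ℝ) / 2 * (1 + c * N')) := by
    rw [mul_add] at hall
    linarith
  have h4 : R ≤ 2 * A₁ * X ^ (m / 2) * X ^ ((k : ℝ) / 2 * (1 + c * N')) * X ^ (-(2 * k * v)) := by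
    have i1 : X ^ (2 * k * v) * X ^ (-(2 * k * v)) = 1 := by
      rw [← Real.rpow_add hX0, add_neg_cancel, Real.rpow_zero]
    calc R = R * X ^ (2 * k * v) * X ^ (-(2 * k * v)) := by rw [mul_assoc, i1, mul_one]
      _ ≤ _ := mul_le_mul_of_nonneg_right h3 (by positivity)
  refine h4.trans ?_
  calc _ ≤ X ^ m * X ^ (m / 2) * X ^ ((k : ℝ) / 2 * (1 + c * N')) * X ^ (-(2 * k * v)) := by
        refine mul_le_mul_of_nonneg_right ?_ (by positivity)
        refine mul_le_mul_of_nonneg_right ?_ (by positivity)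
        exact mul_le_mul_of_nonneg_right hXA (by positivity)
    _ ≤ _ := by
        rw [← Real.rpow_add hX0, ← Real.rpow_add hX0, ← Real.rpow_add hX0]
        refine Real.rpow_le_rpow_of_exponent_le hX1 ?_
        have : (k : ℝ) / 2 * (1 + c * N') = k / 2 + k / 2 * (c * N') := by ring
        rw [this]
        linarith [hc3.2]

end Pool.Agent.N846.LM
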