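import Pool.Agent.N846.LM.Stm
import Pool.Agent.N846.DU.Core

/-! The large sieve inequality in the Fock space for a family of `L`-functions. -/

set_option autoImplicit false

namespace Pool.Agent.N846.LM

open Filter Topology Complex MeasureTheory Set NumberField IsDedekindDomain
open Pool.Agent.TH949.LT (TT Lam VV VV_nonneg VV_le)
open Pool.Agent.N846.DT (PairF co Uc co_abs summ_mono' summ_cs JK_int JK JK_nonneg Lam_nonneg half_exp)

theorem VV_le_one (x : ℝ) : VV x ≤ 1 := by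
  unfold VV
  have hint : Integrable fun u : ℝ => Real.exp (-(x - u) ^ 2 / 4) := by
    have h1 := (integrable_exp_neg_mul_sq (b := 1 / 4) (by norm_num)).comp_sub_right x
    refine h1.congr (Eventually.of_forall fun u => ?_)
    simp only
    congr 1
    ring
  have h1 : ∫ u in Ioi (0 : ℝ), Real.exp (-(x - u) ^ 2 / 4) ≤ ∫ u : ℝ, Real.exp (-(x - u) ^ 2 / 4) :=
    setIntegral_le_integral hint (Eventually.of_forall fun u => (Real.exp_pos _).le)
  have h2 : ∫ u : ℝ, Real.exp (-(x - u) ^ 2 / 4) = √(Real.pi / (1 / 4)) := by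
    rw [← integral_gaussian (1 / 4)]
    have h3 := integral_sub_right_eq_self (μ := volume) (fun u : ℝ => Real.exp (-(1 / 4) * u ^ 2)) x
    rw [← h3]
    congr 1
    ext u
    congr 1
    ring
  have h4 : √(Real.pi / (1 / 4)) = 2 * √Real.pi := by
    rw [show Real.pi / (1 / 4) = 2 ^ 2 * Real.pi by ring, Real.sqrt_mul (by norm_num),
      Real.sqrt_sq (by norm_num)]
  rw [h2, h4] at h1
  have h5 : 0 < 2 * √Real.pi := by positivity
  calc _ ≤ 1 / (2 * √Real.pi) * (2 * √Real.pi) := mul_le_mul_of_nonneg_left h1 (by positivity)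
    _ = 1 := by field_simp

theorem rhoS_pos (y x : ℝ) : 0 < rho y x := Real.exp_pos _

theorem Uc_sq {X : Type} (w : X → ℂ) (l : TT X) :
    ‖co w w l‖ = ‖Uc w l‖ ^ 2 / (l.1.factorial : ℝ) := by
  unfold co
  rw [norm_div, norm_mul, RCLike.norm_conj, Complex.norm_natCast]
  ring

/-- the large sieve inequality for a family -/
theorem ls_fam (hLS : S_LS) {X ι : Type} [Countable X] [Fintype ι] {u : ι → X → ℂ} {L : X → ℝ}
    (hL : ∀ x, 0 ≤ L x) {t : ι → ℝ} {y M : ℝ} (hM0 : 0 ≤ M)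
    (hs : ∀ f, Summable fun l : TT X => ‖co (u f) (u f) l‖ * WW y (Lam L l))
    (hM : ∀ f, ∑ g, ‖∑' l : TT X, co (u f) (u g) l * cexp (-(((t f - t g : ℝ) : ℂ) * I * Lam L l)) *
      WW y (Lam L l)‖ ≤ M) {w' : X → ℂ} {c c0 : ℝ} (hc0 : 0 < c0) (hlow : ∀ y x : ℝ, 0 ≤ x → c0 * rho y x ≤ WW y x)
    (hw' : Summable fun x => ‖w' x‖ ^ 2 * Real.exp (-((1 + 2 * c) * L x)))
    {z : TT X → ℂ} {P : ℝ} (hP : 0 ≤ P)
    (hz : ∀ l, ‖z l‖ ^ 2 ≤ P * Real.exp (-((1 + 2 * c) * Lam L l)) * rho y (Lam L l)) :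
    ∑ f, ‖∑' l, co (u f) w' l * cexp (-((t f : ℂ) * I * Lam L l)) * z l‖ ^ 2 ≤
      M * (P / c0 * Real.exp (∑' x, ‖w' x‖ ^ 2 * Real.exp (-((1 + 2 * c) * L x)))) := by
  set W : TT X → ℝ := fun l => WW y (Lam L l) with hW
  have hWlow : ∀ l, c0 * rho y (Lam L l) ≤ W l := fun l => hlow y _ (Lam_nonneg hL l)
  have hWpos : ∀ l, 0 < W l := fun l => lt_of_lt_of_le (mul_pos hc0 (rhoS_pos _ _)) (hWlow l)
  set r : TT X → ℝ := fun l => √(l.1.factorial : ℝ) with hr
  have hf0 : ∀ l : TT X, (0 : ℝ) < (l.1.factorial : ℝ) := fun l => by exact_mod_cast l.1.factorial_pos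
  have hr2 : ∀ l, r l ^ 2 = (l.1.factorial : ℝ) := fun l => Real.sq_sqrt (hf0 l).le
  have hr0 : ∀ l, 0 < r l := fun l => Real.sqrt_pos.2 (hf0 l)
  set a : ι → TT X → ℂ := fun f l => Uc (u f) l * cexp (-((t f : ℂ) * I * Lam L l)) / (r l : ℂ) with ha
  set b : TT X → ℂ := fun l => (starRingEnd ℂ) (Uc w' l) / (r l : ℂ) * z l with hb
  have hexp1 : ∀ (τ x : ℝ), ‖cexp (-((τ : ℂ) * I * x))‖ = 1 := by
    intro τ x
    rw [Complex.norm_exp]
    simp
  have hab : ∀ f l, a f l * b l = co (u f) w' l * cexp (-((t f : ℂ) * I * Lam L l)) * z l := by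
    intro f l
    rw [ha, hb]
    simp only
    unfold co
    have h1 : ((l.1.factorial : ℕ) : ℂ) = (r l : ℂ) * (r l : ℂ) := by
      rw [← sq, ← Complex.ofReal_pow, hr2]
      simp
    have h2 : (r l : ℂ) ≠ 0 := by exact_mod_cast (hr0 l).ne'
    rw [h1]
    field_simp
  have haa : ∀ f g l, a f l * (starRingEnd ℂ) (a g l) * W l =
      co (u f) (u g) l * cexp (-(((t f - t g : ℝ) : ℂ) * I * Lam L l)) * WW y (Lam L l) := by
    intro f g l
    rw [ha]
    simp only
    unfold co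
    have h1 : ((l.1.factorial : ℕ) : ℂ) = (r l : ℂ) * (r l : ℂ) := by
      rw [← sq, ← Complex.ofReal_pow, hr2]
      simp
    have h2 : (r l : ℂ) ≠ 0 := by exact_mod_cast (hr0 l).ne'
    have h3 : cexp (-(((t f - t g : ℝ) : ℂ) * I * Lam L l)) =
        cexp (-((t f : ℂ) * I * Lam L l)) * (starRingEnd ℂ) (cexp (-((t g : ℂ) * I * Lam L l))) := by
      rw [← Complex.exp_conj, ← Complex.exp_add]
      congr 1
      simp only [map_neg, map_mul, Complex.conj_ofReal, Complex.conj_I]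
      push_cast
      ring
    rw [h1, h3, map_div₀, map_mul, Complex.conj_ofReal]
    field_simp
    rfl
  have hsum1 : ∀ f, Summable fun l => ‖a f l‖ ^ 2 * W l := by
    intro f
    refine (hs f).congr fun l => ?_
    rw [Uc_sq, ha]
    simp only
    rw [norm_div, norm_mul, hexp1, mul_one, div_pow, Complex.norm_real, Real.norm_of_nonneg (hr0 l).le, hr2]
  have hco := co_abs (u := w') (v := w') (L := L) (σ := 1 + 2 * c) (hw'.congr fun x => by rw [sq])
  have hbl : ∀ l, ‖b l‖ ^ 2 / W l ≤ P / c0 * (‖co w' w' l‖ * Real.exp (-((1 + 2 * c) * Lam L l))) := by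
    intro l
    rw [hb]
    simp only
    rw [norm_mul, norm_div, RCLike.norm_conj, mul_pow, div_pow, Complex.norm_real,
      Real.norm_of_nonneg (hr0 l).le, hr2, ← Uc_sq]
    rw [div_le_iff₀ (hWpos l)]
    calc ‖co w' w' l‖ * ‖z l‖ ^ 2 ≤
          ‖co w' w' l‖ * (P * Real.exp (-((1 + 2 * c) * Lam L l)) * rho y (Lam L l)) :=
          mul_le_mul_of_nonneg_left (hz l) (norm_nonneg _)
      _ = P / c0 * (‖co w' w' l‖ * Real.exp (-((1 + 2 * c) * Lam L l))) * (c0 * rho y (Lam L l)) := by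
          field_simp
      _ ≤ _ := mul_le_mul_of_nonneg_left (hWlow l) (by positivity)
  have hsum2 : Summable fun l => ‖b l‖ ^ 2 / W l :=
    Summable.of_nonneg_of_le (fun l => div_nonneg (by positivity) (hWpos l).le) hbl (hco.summable.mul_left _)
  have h1 := hLS (TT X) ι a b W M hM0 hWpos hsum1 hsum2 (fun f => by
    refine le_trans (le_of_eq ?_) (hM f)
    refine Finset.sum_congr rfl fun g _ => ?_
    congr 1
    exact tsum_congr fun l => haa f g l)
  simp_rw [hab] at h1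
  refine h1.trans (mul_le_mul_of_nonneg_left ?_ hM0)
  refine (hsum2.tsum_le_tsum hbl (hco.summable.mul_left _)).trans (le_of_eq ?_)
  rw [tsum_mul_left, hco.tsum_eq]
  congr 2
  exact tsum_congr fun x => by rw [sq]

/-- the bound for the Gram matrix -/
theorem gram_fam (hWW : S_WW) (hG : S_GRAM) {σ₀ η A : ℝ} (hσ : 0 < σ₀) (hη : 0 < η) (hη1 : η ≤ 1 / 4) (hA : 0 ≤ A) :
    ∃ C : ℝ, 0 < C ∧ ∀ (X ι : Type) [Countable X] [Fintype ι] (u : ι → X → ℂ) (L : X → ℝ) (t : ι → ℝ)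
      (F : ι → ι → ℂ → ℂ) (D B y : ℝ), (∀ x, 0 ≤ L x) → 0 ≤ D → 0 ≤ B → 0 ≤ y →
      (∀ f, Summable fun x => ‖u f x‖ ^ 2 * Real.exp (-((1 + η) * L x))) →
      (∀ f, Real.exp (∑' x, ‖u f x‖ ^ 2 * Real.exp (-((1 + η) * L x))) ≤ D) →
      (∀ f g, f ≠ g → PairF (u f) (u g) L (F f g)) →
      (∀ f g, f ≠ g → ∀ v : ℝ, ‖F f g (((-σ₀ : ℝ) : ℂ) + ((t f - t g) + v : ℝ) * I)‖ ≤ B * (1 + |v|) ^ A) →
      (∀ f, Summable fun l : TT X => ‖co (u f) (u f) l‖ * WW y (Lam L l)) ∧
      ∀ f, ∑ g, ‖∑' l : TT X, co (u f) (u g) l * cexp (-(((t f - t g : ℝ) : ℂ) * I * Lam L l)) *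
        WW y (Lam L l)‖ ≤ C * (D * Real.exp ((1 + η) * y) + Fintype.card ι * B) := by
  obtain ⟨hWs, ⟨c0, hc0, hlow⟩, hup⟩ := hWW
  obtain ⟨CW, hCW0, hCW⟩ := hup η hη hη1
  obtain ⟨CG, hCG0, hCG⟩ := hG σ₀ A hσ hA
  refine ⟨CW + CG, by positivity, ?_⟩
  intro X ι _ _ u L t F D B y hL hD0 hB0 hy hsum hD hF hB
  have hW0 : ∀ l : TT X, 0 ≤ WW y (Lam L l) := fun l =>
    (mul_pos hc0 (rhoS_pos y (Lam L l))).le.trans (hlow y _ (Lam_nonneg hL l))
  have hdiag : ∀ f, (Summable fun l : TT X => ‖co (u f) (u f) l‖ * WW y (Lam L l)) ∧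
      ∑' l : TT X, ‖co (u f) (u f) l‖ * WW y (Lam L l) ≤ CW * (D * Real.exp ((1 + η) * y)) := by
    intro f
    have hco := co_abs (u := u f) (v := u f) (L := L) (σ := 1 + η) ((hsum f).congr fun x => by rw [sq])
    have hle : ∀ l : TT X, ‖co (u f) (u f) l‖ * WW y (Lam L l) ≤
        CW * Real.exp ((1 + η) * y) * (‖co (u f) (u f) l‖ * Real.exp (-((1 + η) * Lam L l))) := by
      intro l
      have h1 := hCW y (Lam L l) hy
      calc _ ≤ ‖co (u f) (u f) l‖ * (CW * Real.exp ((1 + η) * (y - Lam L l))) :=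
            mul_le_mul_of_nonneg_left h1 (norm_nonneg _)
        _ = ‖co (u f) (u f) l‖ * (CW * (Real.exp ((1 + η) * y) * Real.exp (-((1 + η) * Lam L l)))) := by
            rw [← Real.exp_add]
            congr 3
            ring
        _ = _ := by ring
    have hsm : Summable fun l : TT X => ‖co (u f) (u f) l‖ * WW y (Lam L l) :=
      Summable.of_nonneg_of_le (fun l => mul_nonneg (norm_nonneg _) (hW0 l)) hle (hco.summable.mul_left _)
    refine ⟨hsm, (hsm.tsum_le_tsum hle (hco.summable.mul_left _)).trans ?_⟩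
    rw [tsum_mul_left, hco.tsum_eq]
    have h2 : Real.exp (∑' x, ‖u f x‖ * ‖u f x‖ * Real.exp (-((1 + η) * L x))) ≤ D := by
      refine le_trans (le_of_eq ?_) (hD f)
      congr 1
      exact tsum_congr fun x => by rw [sq]
    calc _ ≤ CW * Real.exp ((1 + η) * y) * D := mul_le_mul_of_nonneg_left h2 (by positivity)
      _ = _ := by ring
  refine ⟨fun f => (hdiag f).1, fun f => ?_⟩
  have hoff : ∀ g, f ≠ g → ‖∑' l : TT X, co (u f) (u g) l * cexp (-(((t f - t g : ℝ) : ℂ) * I * Lam L l)) *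
        WW y (Lam L l)‖ ≤ CG * B := by
    intro g hfg
    exact (hCG X (u f) (u g) L (F f g) hL (hF f g hfg)
      (summ_mono' hL (fun x => by positivity) (by linarith) (hsum f))
      (summ_mono' hL (fun x => by positivity) (by linarith) (hsum g)) (t f - t g) B y hB0 hy (hB f g hfg)).2
  have hself : ‖∑' l : TT X, co (u f) (u f) l * cexp (-(((t f - t f : ℝ) : ℂ) * I * Lam L l)) *
        WW y (Lam L l)‖ ≤ CW * (D * Real.exp ((1 + η) * y)) := by
    have h1 : ∀ l : TT X, ‖co (u f) (u f) l * cexp (-(((t f - t f : ℝ) : ℂ) * I * Lam L l)) *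
        WW y (Lam L l)‖ = ‖co (u f) (u f) l‖ * WW y (Lam L l) := by
      intro l
      rw [sub_self, norm_mul, norm_mul, Complex.norm_real, Real.norm_of_nonneg (hW0 l)]
      simp
    have h2 : Summable fun l : TT X => ‖co (u f) (u f) l * cexp (-(((t f - t f : ℝ) : ℂ) * I * Lam L l)) *
        WW y (Lam L l)‖ := (hdiag f).1.congr fun l => (h1 l).symm
    refine (norm_tsum_le_tsum_norm h2).trans ?_
    simp_rw [h1]
    exact (hdiag f).2
  classical
  rw [← Finset.add_sum_erase Finset.univ _ (Finset.mem_univ f)]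
  have h3 : ∑ g ∈ Finset.univ.erase f, ‖∑' l : TT X, co (u f) (u g) l *
      cexp (-(((t f - t g : ℝ) : ℂ) * I * Lam L l)) * WW y (Lam L l)‖ ≤ Fintype.card ι * (CG * B) := by
    have h4 : ∀ g ∈ Finset.univ.erase f, ‖∑' l : TT X, co (u f) (u g) l *
        cexp (-(((t f - t g : ℝ) : ℂ) * I * Lam L l)) * WW y (Lam L l)‖ ≤ CG * B := by
      intro g hg
      refine hoff g fun h => ?_
      rw [h] at hg
      simp at hg
    refine (Finset.sum_le_card_nsmul _ _ _ h4).trans ?_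
    rw [nsmul_eq_mul]
    refine mul_le_mul_of_nonneg_right ?_ (by positivity)
    exact_mod_cast Finset.card_le_univ _
  refine (add_le_add hself h3).trans ?_
  have h5 : 0 ≤ D * Real.exp ((1 + η) * y) := by positivity
  have h6 : 0 ≤ (Fintype.card ι : ℝ) * B := by positivity
  nlinarith [mul_nonneg hCG0.le h5, mul_nonneg hCW0.le h6]

/-- a finite sum of integrals of nonnegative functions -/
theorem sum_int_le {ι : Type} [Fintype ι] {g : ι → ℝ → ℝ} {h : ℝ → ℝ} (hg : ∀ f v, 0 ≤ g f v)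
    (hh : Integrable h) (hle : ∀ v, ∑ f, g f v ≤ h v) : ∑ f, ∫ v, g f v ≤ ∫ v, h v := by
  classical
  have h1 : ∀ f, ¬ Integrable (g f) → ∫ v, g f v = 0 := fun f hf => integral_undef hf
  have h2 : ∑ f, ∫ v, g f v = ∑ f ∈ Finset.univ.filter (fun f => Integrable (g f)), ∫ v, g f v := by
    rw [Finset.sum_filter]
    refine Finset.sum_congr rfl fun f _ => ?_
    split_ifs with h
    · rfl
    · exact h1 f h
  rw [h2, ← integral_finsetSum _ fun f hf => (Finset.mem_filter.1 hf).2]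
  refine integral_mono (integrable_finsetSum _ fun f hf => (Finset.mem_filter.1 hf).2) hh fun v => ?_
  refine le_trans ?_ (hle v)
  exact Finset.sum_le_sum_of_subset_of_nonneg (Finset.filter_subset _ _) fun f _ _ => hg f v

end Pool.Agent.N846.LM
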