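import Pool.Agent.N846.DT.Master
import Pool.Agent.N846.DU.Stm

/-!
# Moments and large values of `L`-functions of `GL(n)` in arbitrary families: definitions, statements of the parts

`N846/LM`: project of helper846, problem `MP_cf4097_nt`.
-/

set_option autoImplicit false

namespace Pool.Agent.N846.LM

open Complex MeasureTheory NumberField IsDedekindDomain
open Pool.Agent.TH949.LT (TT Lam VV)
open Pool.Agent.N846.DT (PairF co Uc)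
open Pool.Agent.N846.DU (VX LV logRS RS)

/-- the Gaussian; `EG x = (1/2π) ∫ exp((c+iv)² + (c+iv) x) dv` for every real `c` -/
noncomputable def EG (x : ℝ) : ℝ := Real.exp (-x ^ 2 / 4) / (2 * √Real.pi)

/-- `min(1, exp(-(3/2)(x - y)))` -/
noncomputable def rho (y x : ℝ) : ℝ := Real.exp (-(3 / 2) * max (x - y) 0)

/-- the weight, essentially `rho y x` for `x ≥ 0` -/
noncomputable def WW (y x : ℝ) : ℝ := ∑' m : ℕ, rho y m * EG (m - x)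

/-- the weight on the lines -/
noncomputable def om (A v : ℝ) : ℝ := (1 + |v|) ^ A * Real.exp (-v ^ 2)

/-- GAMS: quotients of Gamma factors, small shifts -/
def S_GAMS : Prop := ∀ c : ℝ, 0 < c → ∃ C : ℝ, 0 < C ∧ ∀ z : ℂ, -c < z.re →
  ‖Complex.Gammaℝ (z + ((2 * c : ℝ) : ℂ)) * (Complex.Gammaℝ z)⁻¹‖ ≤ C * (1 + ‖z‖) ^ c

/-- GI: size of the inverse of the Gamma factor in vertical strips -/
def S_GI : Prop := ∀ a b : ℝ, ∃ C : ℝ, 0 < C ∧ ∀ z : ℂ, a ≤ z.re → z.re ≤ b →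
  ‖(Complex.Gammaℝ z)⁻¹‖ ≤ C * Real.exp (3 * |z.im|)

/-- CHI: the functional equation `F(s) = χ(s) conj (F(1 - conj s))` -/
def S_CHI : Prop := ∀ (N : ℕ) (c : ℝ), 0 < c → c ≤ 1 / 4 → ∃ C : ℝ, 0 < C ∧
  ∀ (K : Type) [Field K] [NumberField K] (u w : VX K → ℂ) (q : ℝ) (κ : Fin N → ℂ) (F : ℂ → ℂ),
    RS u w q κ 0 → (∀ j, -(1 / 2) < (κ j).re) → Differentiable ℂ F →
    (∀ s : ℂ, 1 < s.re → F s = Complex.exp (logRS u w s)) →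
    ∃ χ : ℂ → ℂ, (∀ s : ℂ, s.re < 1 / 2 → DifferentiableAt ℂ χ s) ∧
      (∀ s : ℂ, s.re < 1 / 2 → F s = χ s * (starRingEnd ℂ) (F (1 - (starRingEnd ℂ) s))) ∧
      (∀ t v : ℝ, ‖χ (((1 / 2 - c : ℝ) : ℂ) + (t + v : ℝ) * I)‖ ≤
        C * (q * ∏ j, (1 + ‖κ j + (1 / 2 + t * I)‖)) ^ c * (1 + |v|) ^ (N : ℝ)) ∧
      (∀ t v : ℝ, ‖χ (((-(1 / 2) : ℝ) : ℂ) + (t + v : ℝ) * I)‖ ≤
        C * (q * ∏ j, (1 + ‖κ j + (1 / 2 + t * I)‖)) * (1 + |v|) ^ (N : ℝ)) ∧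
      ∃ C' : ℝ, ∀ s : ℂ, -(1 / 2) ≤ s.re → s.re ≤ 1 / 2 - c → ‖χ s‖ ≤ C' * Real.exp (3 * N * |s.im|)

/-- WWL: the weight -/
def S_WW : Prop := (∀ y x : ℝ, Summable fun m : ℕ => rho y m * EG (m - x)) ∧
  (∃ c : ℝ, 0 < c ∧ ∀ y x : ℝ, 0 ≤ x → c * rho y x ≤ WW y x) ∧
  ∀ η : ℝ, 0 < η → η ≤ 1 / 4 → ∃ C : ℝ, 0 < C ∧ ∀ y x : ℝ, 0 ≤ y → WW y x ≤ C * Real.exp ((1 + η) * (y - x))

/-- GRAM: the off-diagonal elements of the Gram matrix -/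
def S_GRAM : Prop := ∀ σ₀ A : ℝ, 0 < σ₀ → 0 ≤ A → ∃ C : ℝ, 0 < C ∧
  ∀ (X : Type) [Countable X] (u v : X → ℂ) (L : X → ℝ) (F : ℂ → ℂ), (∀ x, 0 ≤ L x) → PairF u v L F →
    (Summable fun x => ‖u x‖ ^ 2 * Real.exp (-((5 / 4 : ℝ) * L x))) →
    (Summable fun x => ‖v x‖ ^ 2 * Real.exp (-((5 / 4 : ℝ) * L x))) →
    ∀ d B y : ℝ, 0 ≤ B → 0 ≤ y → (∀ v' : ℝ, ‖F (((-σ₀ : ℝ) : ℂ) + (d + v' : ℝ) * I)‖ ≤ B * (1 + |v'|) ^ A) →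
      (Summable fun l : TT X => ‖co u v l‖ * WW y (Lam L l)) ∧
      ‖∑' l : TT X, co u v l * Complex.exp (-(d * I * Lam L l)) * WW y (Lam L l)‖ ≤ C * B

/-- LS: the large sieve (duality) -/
def S_LS : Prop := ∀ (T ι : Type) [Countable T] [Fintype ι] (a : ι → T → ℂ) (b : T → ℂ) (W : T → ℝ) (M : ℝ),
  0 ≤ M → (∀ l, 0 < W l) → (∀ f, Summable fun l => ‖a f l‖ ^ 2 * W l) → (Summable fun l => ‖b l‖ ^ 2 / W l) →
  (∀ f, ∑ g, ‖∑' l, a f l * (starRingEnd ℂ) (a g l) * W l‖ ≤ M) →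
  ∑ f, ‖∑' l, a f l * b l‖ ^ 2 ≤ M * ∑' l, ‖b l‖ ^ 2 / W l

/-- AFE: the approximate functional equation for `F ^ k` -/
def S_AFE : Prop := ∀ (N k : ℕ) (c : ℝ), 1 ≤ k → 0 < c → c ≤ 1 / 4 → ∃ C A : ℝ, 0 < C ∧ 0 ≤ A ∧
  ∀ (K : Type) [Field K] [NumberField K] (u w : VX K → ℂ) (q : ℝ) (κ : Fin N → ℂ) (F : ℂ → ℂ),
    RS u w q κ 0 → (∀ j, -(1 / 2) < (κ j).re) → Differentiable ℂ F →
    (∀ s : ℂ, 1 < s.re → F s = Complex.exp (logRS u w s)) →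
    (∀ σ : ℝ, 1 < σ → Summable fun x : VX K => ‖u x‖ ^ 2 * Real.exp (-(σ * LV x))) →
    (∀ σ : ℝ, 1 < σ → Summable fun x : VX K => ‖w x‖ ^ 2 * Real.exp (-(σ * LV x))) →
    ∀ t y Q : ℝ, 0 ≤ y → q * ∏ j, (1 + ‖κ j + (1 / 2 + t * I)‖) ≤ Q →
      ‖F (1 / 2 + t * I)‖ ^ (2 * k) ≤
        3 * ‖∑' l : TT (VX K), co u (fun x => k * w x) l *
          Complex.exp (-((1 / 2 + t * I) * Lam LV l)) * VV (y - Lam LV l)‖ ^ 2 +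
        C * (Q ^ (2 * k * c) * Real.exp (-(2 * c * y))) * (∫ v : ℝ, om A v *
          ‖∑' l : TT (VX K), if Lam LV l ≤ y then co u (fun x => k * w x) l *
            Complex.exp (-((((1 / 2 + c : ℝ) : ℂ) + (t + v : ℝ) * I) * Lam LV l)) else 0‖ ^ 2) +
        C * (Q ^ (2 * k : ℝ) * Real.exp (-(2 * y))) * ∫ v : ℝ, om A v *
          ‖∑' l : TT (VX K), if Lam LV l ≤ y then 0 else co u (fun x => k * w x) l *
            Complex.exp (-((((3 / 2 : ℝ) : ℂ) + (t + v : ℝ) * I) * Lam LV l))‖ ^ 2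

end Pool.Agent.N846.LM
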